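import Mathlib
import Pool.Prelude.Def_H_3587d628

/-!
Quantum circuits, the class QMA, and two player games with classical questions and quantum answers.
-/

namespace Pool.Agent.MP_d439b8_lc.H96

open Function

/-- The matrix entries of the one qubit gates: `0` is `X`, `1` is Hadamard, `2` is `T`, every
other number is `Z`. -/
noncomputable def op : ℕ → Bool → Bool → ℂ
  | 0, a, b => if a = b then 0 else 1
  | 1, a, b => (if a = true ∧ b = true then -1 else 1) / (√2 : ℝ)
  | 2, a, b => if a = b then (if a = true then Complex.exp ((Real.pi / 4 : ℝ) * Complex.I) else 1)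
      else 0
  | _, a, b => if a = b then (if a = true then -1 else 1) else 0

/-- A controlled gate: a list of control qubits with the values they must have, the number of a
one qubit gate, and the target qubit. -/
abbrev Gate (ι : Type) : Type := List (ι × Bool) × ℕ × ι

/-- Renaming the qubits in a list of qubits with values. -/
def mapPat {ι ι' : Type} (f : ι → ι') (π : List (ι × Bool)) : List (ι' × Bool) :=
  π.map fun c => (f c.1, c.2)

/-- Renaming the qubits of a circuit. -/
def mapCirc {ι ι' : Type} (f : ι → ι') (C : List (Gate ι)) : List (Gate ι') :=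
  C.map fun g => (mapPat f g.1, g.2.1, f g.2.2)

section

variable {ι : Type} [DecidableEq ι] {E : Type} [AddCommGroup E] [Module ℂ E]

/-- The action of a gate on amplitudes (a control equal to the target is ignored). -/
noncomputable def app (g : Gate ι) (ψ : (ι → Bool) → E) (x : ι → Bool) : E :=
  if ∀ c ∈ g.1, c.1 = g.2.2 ∨ x c.1 = c.2 then
    ∑ b : Bool, op g.2.1 (x g.2.2) b • ψ (update x g.2.2 b)
  else ψ x

/-- The action of a circuit: the gates are applied from left to right. -/
noncomputable def run (C : List (Gate ι)) (ψ : (ι → Bool) → E) : (ι → Bool) → E :=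
  C.foldl (fun φ g => app g φ) ψ

end

/-- The squared norm of a vector of amplitudes. -/
noncomputable def nsq {X : Type} [Fintype X] {E : Type} [Norm E] (ψ : X → E) : ℝ :=
  ∑ x, ‖ψ x‖ ^ 2

/-- The gate set of QMA verifiers: `(0, i, _)` is Hadamard on `i`, `(1, i, _)` is `T` on `i`, and
any other `(_, i, j)` is CNOT with control `i` and target `j`. -/
def std (g : ℕ × ℕ × ℕ) : Gate ℕ :=
  if g.1 = 0 then ([], 1, g.2.1) else if g.1 = 1 then ([], 2, g.2.1)
  else ([(g.2.1, true)], 0, g.2.2)

/-- A verifier circuit: the number `w` of witness qubits and a number `m` in unary (there are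
`m + 1` ancilla qubits), and the gates. -/
abbrev Verifier : Type := List Bool × List Bool × List (ℕ × ℕ × ℕ)

/-- The total number of qubits. -/
abbrev Verifier.n (V : Verifier) : ℕ := V.1.length + V.2.1.length + 1

/-- The circuit; qubit numbers are read modulo the number of qubits. -/
def Verifier.circ (V : Verifier) : List (Gate (Fin V.n)) :=
  mapCirc (Fin.ofNat V.n) (V.2.2.map std)

/-- A unit vector in which all ancilla qubits are `0`, i.e. a witness tensored with `|0…0⟩`. -/
def Verifier.Input (V : Verifier) (ψ : (Fin V.n → Bool) → ℂ) : Prop :=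
  nsq ψ = 1 ∧ ∀ x : Fin V.n → Bool, ∀ i : Fin V.n, V.1.length ≤ i → x i = true → ψ x = 0

/-- The probability that qubit `0` is `1` after the circuit. -/
noncomputable def Verifier.acc (V : Verifier) (ψ : (Fin V.n → Bool) → ℂ) : ℝ :=
  ∑ x, if x 0 = true then ‖run V.circ ψ x‖ ^ 2 else 0

/-- The promise problem with yes instances `Y` and no instances `N` is in QMA. -/
def QMA (Y N : Set (List Bool)) : Prop :=
  ∃ V : List Bool → Verifier, N68a2faeb.IsPolyTime V ∧
    (∀ x ∈ Y, ∃ ψ, (V x).Input ψ ∧ 2 / 3 ≤ (V x).acc ψ) ∧
    ∀ x ∈ N, ∀ ψ, (V x).Input ψ → (V x).acc ψ ≤ 1 / 3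

/-- The basis states of an answer register of `11` qubits. -/
abbrev Ans : Type := Fin 11 → Bool

/-- One row of the table of the referee: a weight, the two questions, a circuit on the `22` answer
qubits, and the measured values on which the referee rejects. -/
abbrev Test : Type := ℕ × ℕ × ℕ × List (Gate ℕ) × List (ℕ × Bool)

/-- A strategy: private registers of any finite dimension, a shared unit vector, and one unitary
for each player and question. -/
structure Strategy : Type 1 where
  DA : Type
  DB : Type
  [finA : Fintype DA]
  [decA : DecidableEq DA]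
  [finB : Fintype DB]
  [decB : DecidableEq DB]
  ψ : (Ans × DA) × (Ans × DB) → ℂ
  unit : nsq ψ = 1
  U : ℕ → Matrix.unitaryGroup (Ans × DA) ℂ
  V : ℕ → Matrix.unitaryGroup (Ans × DB) ℂ

attribute [instance] Strategy.finA Strategy.decA Strategy.finB Strategy.decB

/-- The amplitudes after the players have applied their unitaries for the questions `q`, `r`, as a
function of the `22` answer qubits, for the basis states `u`, `v` of the private registers. -/
noncomputable def Strategy.out (S : Strategy) (q r : ℕ) (u : S.DA) (v : S.DB)
    (x : Fin (11 + 11) → Bool) : ℂ :=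
  (Matrix.kronecker (S.U q).1 (S.V r).1).mulVec S.ψ
    ((fun i => x (Fin.castAdd 11 i), u), (fun i => x (Fin.natAdd 11 i), v))

/-- The probability that the referee accepts in the row `t`: it runs the circuit, measures all
answer qubits, and rejects exactly if all listed qubits have the listed values. -/
noncomputable def Strategy.acc (S : Strategy) (t : Test) : ℝ :=
  ∑ u, ∑ v, ∑ x, if ∀ c ∈ mapPat (Fin.ofNat (11 + 11)) t.2.2.2.2, x c.1 = c.2 then 0 else
    ‖run (mapCirc (Fin.ofNat (11 + 11)) t.2.2.2.1) (S.out t.2.1 t.2.2.1 u v) x‖ ^ 2

/-- The acceptance probability when the row is chosen with probability proportional to its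
weight. -/
noncomputable def Strategy.val (S : Strategy) (G : List Test) : ℝ :=
  (G.map fun t => (t.1 : ℝ) * S.acc t).sum / ((G.map fun t => t.1).sum : ℕ)

/-- The entangled value. -/
noncomputable def value (G : List Test) : ℝ := ⨆ S : Strategy, S.val G

/-- The size of a game: the number of bits of its description. -/
def size (G : List Test) : ℕ := (N487b59b3.bitEncode G).length

/-- The format of an instance `(G, c, s)`: positive total weight, questions are numbers below the
size `n` (so they have at most `log₂ n + 1` bits), and `c - s ≥ 1 / p(n)`. -/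
def Format (p : Polynomial ℕ) (I : List Test × ℚ × ℚ) : Prop :=
  0 < (I.1.map fun t => t.1).sum ∧ (∀ t ∈ I.1, t.2.1 < size I.1 ∧ t.2.2.1 < size I.1) ∧
    1 ≤ (p.eval (size I.1) : ℕ) * (I.2.1 - I.2.2)

/-- Yes instances: the value is at least `c`. -/
def GameYes (p : Polynomial ℕ) : Set (List Test × ℚ × ℚ) :=
  {I | Format p I ∧ (I.2.1 : ℝ) ≤ value I.1}

/-- No instances: the value is at most `s`. -/
def GameNo (p : Polynomial ℕ) : Set (List Test × ℚ × ℚ) :=
  {I | Format p I ∧ value I.1 ≤ (I.2.2 : ℝ)}

end Pool.Agent.MP_d439b8_lc.H96
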