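import Pool.Agent.MP_d439b8_lc.H96.Sound

/-!
A strategy that passes the consistency tests holds one global state on the qubits and keys.
-/

namespace Pool.Agent.MP_d439b8_lc.H96

open Function

lemma exists_emb {n : ℕ} (hn : 11 ≤ n) {i j : Fin n} (h : i ≠ j) :
    ∃ q : Fin 11 ↪ Fin n, q 0 = i ∧ q 1 = j := by
  obtain ⟨σ, hσ⟩ := Equiv.Perm.exists_extending_pair
    (f := ![Fin.castLEEmb hn 0, Fin.castLEEmb hn 1]) (g := ![i, j])
    (injective_pair_iff_ne.mpr ((Fin.castLEEmb hn).injective.ne (by decide)))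
    (injective_pair_iff_ne.mpr h)
  exact ⟨(Fin.castLEEmb hn).trans σ.toEmbedding, hσ 0, hσ 1⟩

lemma exists_sing {n : ℕ} (hn : 11 ≤ n) : ∃ s : Fin n → Fin 11 ↪ Fin n, ∀ i, s i 0 = i := by
  have : Nontrivial (Fin n) := Fin.nontrivial_iff_two_le.mpr (by omega)
  have : ∀ i : Fin n, ∃ q : Fin 11 ↪ Fin n, q 0 = i := fun i => by
    obtain ⟨j, hj⟩ := exists_ne i
    exact (exists_emb hn hj.symm).imp fun _ h => h.1
  exact ⟨fun i => (this i).choose, fun i => (this i).choose_spec⟩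

section

variable {J : Type} [Fintype J] [DecidableEq J] {E : Type} [NormedAddCommGroup E]
  [InnerProductSpace ℂ E]

/-- A list of instruments in `A` on distinct sites in `X`. -/
structure Nice (A : Set (Module.End ℂ E)) (X : Set J) (l : List (J × (O → Module.End ℂ E))) :
    Prop where
  nodup : (l.map Prod.fst).Nodup
  site : ∀ p ∈ l, p.1 ∈ X
  inst : ∀ p ∈ l, Inst p.2
  mem : ∀ p ∈ l, ∀ o, p.2 o ∈ A

lemma Nice.nsq_W {A : Set (Module.End ℂ E)} {X : Set J} {l} (h : Nice A X l) {F : (J → O) → E}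
    (hF : ∀ j ∈ X, Indep j F) : nsq (W l F) = nsq F :=
  H96.nsq_W h.nodup h.inst fun p hp => hF _ (h.site p hp)

omit [Fintype J] in
lemma Nice.indep {A : Set (Module.End ℂ E)} {X : Set J} {l} (h : Nice A X l) {F : (J → O) → E}
    {j : J} (hj : j ∉ X) (hF : Indep j F) : Indep j (W l F) :=
  hF.W fun hl => by
    obtain ⟨p, hp, rfl⟩ := List.mem_map.mp hl
    exact hj (h.site p hp)

lemma rigid_emb {n : ℕ} (hn : 11 ≤ n) {e : Fin n → J} (he : Injective e) (ψ : E) {δ : ℝ}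
    (hδ : 0 ≤ δ) (A : Set (Module.End ℂ E))
    (κ : (Fin 11 ↪ Fin n) → Fin 11 → O → Module.End ℂ E) (k' : Fin n → O → Module.End ℂ E)
    (hcomm : ∀ a ∈ A, ∀ i o, Commute a (k' i o)) (hk' : ∀ i, Inst (k' i))
    (hg : ∀ q l i, q l = i → Good ψ δ A (k' i) (κ q l))
    (hc : ∀ q l l', l ≠ l' → ∀ o o', Commute (κ q l o) (κ q l' o')) :
    ∃ L, Nice A (Set.range e) L ∧ ∀ q : Fin 11 ↪ Fin n, ∃ R,
      Nice A (Set.range e \ Set.range (e ∘ q)) R ∧
      Nice A (Set.range e) ((List.finRange 11).map (fun l => (e (q l), κ q l)) ++ R) ∧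
      nrm (W L (fun _ => ψ) - W ((List.finRange 11).map (fun l => (e (q l), κ q l)) ++ R)
        fun _ => ψ) ≤ 112 * n * δ * √(Fintype.card (J → O)) := by
  obtain ⟨s, hs⟩ := exists_sing hn
  set k : J → O → Module.End ℂ E := extend e (fun i => κ (s i) 0) 0 with hk
  set K : J → O → Module.End ℂ E := extend e k' 0 with hK
  have hL : ((List.finRange n).map e).Nodup := (List.nodup_finRange n).map he
  have hkg : ∀ j ∈ (List.finRange n).map e, Good ψ δ A (K j) (k j) := fun j hj => by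
    obtain ⟨i, -, rfl⟩ := List.mem_map.mp hj
    rw [hK, hk, he.extend_apply, he.extend_apply]
    exact hg _ _ _ (hs i)
  have hN : ∀ (X : Set J) (L : List J), L.Nodup → (∀ j ∈ L, j ∈ X ∧ j ∈ (List.finRange n).map e) →
      Nice A X (L.map fun j => (j, k j)) := fun X L h1 h2 =>
    ⟨by simpa [comp_def] using h1, List.forall_mem_map.mpr fun j hj => (h2 j hj).1,
      List.forall_mem_map.mpr fun j hj => (hkg j (h2 j hj).2).inst,
      List.forall_mem_map.mpr fun j hj => (hkg j (h2 j hj).2).mem⟩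
  refine ⟨_, hN _ _ hL fun j hj => ⟨by simpa using hj, hj⟩, fun q => ?_⟩
  set l := (List.finRange 11).map fun l => (e (q l), κ q l) with hl
  have hl1 : l.map Prod.fst = (List.finRange 11).map (e ∘ q) := by simp [hl, comp_def]
  have hl2 : (l.map Prod.fst).Nodup := by
    rw [hl1]
    exact (List.nodup_finRange 11).map (he.comp q.injective)
  have hR := hN (Set.range e \ Set.range (e ∘ q)) _
    (hL.filter fun j => j ∉ l.map Prod.fst) fun j hj => by
      rw [List.mem_filter, hl1] at hj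
      exact ⟨⟨by simpa using hj.1, by simpa using hj.2⟩, hj.1⟩
  refine ⟨_, hR, ⟨?_, ?_, ?_, ?_⟩, (rigid ψ δ hδ A k K _ hL ?_ ?_ hkg ?_ l hl2 ?_).trans_eq ?_⟩
  · rw [List.map_append, List.nodup_append]
    refine ⟨hl2, hR.nodup, fun a ha b hb hab => ?_⟩
    obtain ⟨p, hp, rfl⟩ := List.mem_map.mp hb
    rw [hl1, hab] at ha
    exact (hR.site p hp).2 (by simpa using ha)
  · exact List.forall_mem_append.mpr ⟨List.forall_mem_map.mpr fun l _ => ⟨_, rfl⟩,
      fun p hp => (hR.site p hp).1⟩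
  · exact List.forall_mem_append.mpr ⟨List.forall_mem_map.mpr fun l _ => (hg q l _ rfl).inst,
      hR.inst⟩
  · exact List.forall_mem_append.mpr ⟨List.forall_mem_map.mpr fun l _ => (hg q l _ rfl).mem,
      hR.mem⟩
  · intro a ha j hj o
    obtain ⟨i, -, rfl⟩ := List.mem_map.mp hj
    rw [hK, he.extend_apply]
    exact hcomm a ha i o
  · intro j hj
    obtain ⟨i, -, rfl⟩ := List.mem_map.mp hj
    rw [hK, he.extend_apply]
    exact hk' i
  · intro a ha b hb hab
    obtain ⟨i, -, rfl⟩ := List.mem_map.mp ha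
    obtain ⟨j, -, rfl⟩ := List.mem_map.mp hb
    obtain ⟨q, h0, h1⟩ := exists_emb hn (i := i) (j := j) fun h => hab (congrArg e h)
    rw [hK, he.extend_apply, he.extend_apply]
    exact ⟨_, _, hg q 0 i h0, hg q 1 j h1, hc q 0 1 (by decide)⟩
  · refine List.forall_mem_map.mpr fun l _ => ⟨by simp, ?_⟩
    rw [hK, he.extend_apply]
    exact hg q l _ rfl
  · simp [hl]
    norm_num

omit [Fintype J] in
lemma tst_linear {E' : Type} [NormedAddCommGroup E'] [InnerProductSpace ℂ E'] (C : List (Gate J))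
    (π : List (J × Bool)) (f : E →ₗ[ℂ] E') (G : (J → O) → E) (ω : J → O) :
    tst C π (fun ω => f (G ω)) ω = f (tst C π G ω) := by
  simp only [tst]
  rw [run_linear C (fun _ => f) fun _ _ _ _ => rfl]
  simp only [cut]
  split_ifs <;> simp

end

/-- The outcome with the junk bit replaced by the extracted bit. -/
def dup (o : O) : O := (o.1, o.1)

/-- The matrix unit used at each answer position. -/
def sel : Fin (11 + 11) → O → O := Fin.append (fun _ => id) fun _ => dup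

/-- All answer positions. -/
def pos : List (Fin (11 + 11)) :=
  (List.finRange 11).map (Fin.natAdd 11) ++ (List.finRange 11).map (Fin.castAdd 11)

lemma sel_fst (j : Fin (11 + 11)) (o : O) : (sel j o).1 = o.1 := by
  induction j using Fin.addCases <;> simp only [sel, Fin.append_left, Fin.append_right] <;> rfl

lemma mem_pos : ∀ j, j ∈ pos := by decide

lemma nodup_pos : pos.Nodup := by decide

namespace Strategy

variable (S : Strategy) {J : Type} [Fintype J] [DecidableEq J]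

/-- The instruments at the answer positions. -/
noncomputable def kk (a b : ℕ) : Fin (11 + 11) → O → Module.End ℂ S.E :=
  Fin.append (fun l => S.kA a l id) fun l => S.kB b l dup

lemma co_kk (a b j o) (v : S.E) (u w) :
    S.co (S.T a b (S.kk a b j o v)) u w = loc j (sel j o) (S.co (S.T a b v) u w) := by
  induction j using Fin.addCases <;>
    simp only [kk, sel, Fin.append_left, Fin.append_right, T_kA, T_kB, co_left, co_right]

omit [Fintype J] [DecidableEq J] in
lemma co_W (a b) (Q : Fin (11 + 11) → J) (P : List (Fin (11 + 11))) (F : (J → O) → S.E) (ω u w) :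
    S.co (S.T a b (W (P.map fun j => (Q j, S.kk a b j)) F ω)) u w =
      P.foldl (fun G j => loc j (sel j (ω (Q j))) G) (S.co (S.T a b (F ω)) u w) := by
  induction P generalizing F with
  | nil => rfl
  | cons j P ih => rw [List.map_cons, W_cons, ih, List.foldl_cons, ← co_kk, M]

/-- One coordinate after the unitaries. -/
noncomputable def ev (a b : ℕ) (u : S.DA) (w : S.DB) (x : Fin (11 + 11) → Bool) : S.E →ₗ[ℂ] ℂ where
  toFun v := S.co (S.T a b v) u w x
  map_add' v v' := by simp [co]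
  map_smul' c v := by simp [co]

omit [Fintype J] in
lemma co_tst (a b) {Q : Fin (11 + 11) → J} (hQ : Injective Q) (C : List (Gate (Fin (11 + 11))))
    (hC : ∀ g ∈ C, ∃ l, g.2.2 = Fin.castAdd 11 l) (π) (ω : J → O) (u w x) :
    S.co (S.T a b (tst (mapCirc Q C) (mapPat Q π)
      (W (pos.map fun j => (Q j, S.kk a b j)) fun _ => S.Ψ) ω)) u w x =
      if x = fun j => (sel j (ω (Q j))).2 then
        2 ^ 11 * cut π (run C (S.out a b u w)) fun j => (ω (Q j)).1 else 0 := by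
  have h2 : ((√2 : ℝ) : ℂ) ^ pos.length = 2 ^ 11 := by
    rw [show pos.length = 2 * 11 from rfl, pow_mul, ← Complex.ofReal_pow,
      Real.sq_sqrt zero_le_two, Complex.ofReal_ofNat]
  refine (tst_linear _ _ (S.ev a b u w x) _ ω).symm.trans ?_
  have h := run_pull hQ C (fun y => if x = fun j => (sel j (y (Q j), (ω (Q j)).2)).2 then
    (2 ^ 11 : ℂ) • LinearMap.id else 0) (fun g hg y c => by
      obtain ⟨l, hl⟩ := hC g hg
      congr 3
      funext j
      induction j using Fin.addCases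
      · simp only [sel, Fin.append_left, id]
      · rw [hl, update_of_ne (hQ.ne (left_ne_right _ _).symm)]) (S.out a b u w)
  simp only [tst, ev, LinearMap.coe_mk, AddHom.coe_mk, co_W, foldl_loc _ nodup_pos, mem_pos,
    forall_const, if_true, h2, co_T, sel_fst, ← funext_iff]
  simp only [DFunLike.ite_apply, LinearMap.smul_apply, LinearMap.id_apply, smul_eq_mul,
    LinearMap.zero_apply, comp_def] at h
  rw [h]
  simp only [cut, forall_mapPat]
  split_ifs <;> simp

lemma nsq_tst_eq (t : Test) {Q : Fin (11 + 11) → J} (hQ : Injective Q)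
    (hC : ∀ g ∈ t.2.2.2.1, g.2.2 < 11) :
    nsq (tst (mapCirc (Q ∘ Fin.ofNat (11 + 11)) t.2.2.2.1)
      (mapPat (Q ∘ Fin.ofNat (11 + 11)) t.2.2.2.2)
      (W (pos.map fun j => (Q j, S.kk t.2.1 t.2.2.1 j)) fun _ => S.Ψ)) =
      Fintype.card (J → O) * (1 - S.acc t) ∧
    ∀ j ∉ Set.range Q, Indep j (tst (mapCirc (Q ∘ Fin.ofNat (11 + 11)) t.2.2.2.1)
      (mapPat (Q ∘ Fin.ofNat (11 + 11)) t.2.2.2.2)
      (W (pos.map fun j => (Q j, S.kk t.2.1 t.2.2.1 j)) fun _ => S.Ψ)) := by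
  have h := S.co_tst t.2.1 t.2.2.1 hQ (mapCirc (Fin.ofNat (11 + 11)) t.2.2.2.1)
    (List.forall_mem_map.mpr fun g hg => ⟨⟨_, hC g hg⟩, ofNat_left ⟨_, hC g hg⟩⟩)
    (mapPat (Fin.ofNat (11 + 11)) t.2.2.2.2)
  rw [mapCirc_mapCirc, mapPat_mapPat] at h
  refine ⟨?_, fun j hj ω o => S.T_injective t.2.1 t.2.2.1 (S.co_injective ?_)⟩
  · rw [one_sub_acc]
    simp only [rej, nsq]
    set f := fun u w => cut (mapPat (Fin.ofNat (11 + 11)) t.2.2.2.2)
      (run (mapCirc (Fin.ofNat (11 + 11)) t.2.2.2.1) (S.out t.2.1 t.2.2.1 u w))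
    have h1 := sum_comp_inj hQ fun z => ∑ u, ∑ w, ‖f u w z‖ ^ 2
    have h2 : ∑ u, ∑ w, ∑ z, ‖f u w z‖ ^ 2 = ∑ z, ∑ u, ∑ w, ‖f u w z‖ ^ 2 := by
      rw [Finset.sum_comm (γ := Fin (11 + 11) → Bool)]
      exact Finset.sum_congr rfl fun u _ => Finset.sum_comm
    rw [h2]
    refine (Finset.sum_congr rfl fun ω _ => (?_ : _ = 2 ^ (11 + 11) *
      ∑ u, ∑ w, ‖f u w ((fun j => (ω j).1) ∘ Q)‖ ^ 2)).trans ?_
    · rw [← S.norm_T t.2.1 t.2.2.1, norm_sq_co]
      simp only [nsq, h, Finset.mul_sum, apply_ite norm, ite_pow, norm_zero, norm_mul, mul_pow]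
      simp only [comp_def, Finset.sum_ite_eq', Finset.mem_univ, if_true, ne_eq, OfNat.ofNat_ne_zero,
        not_false_eq_true, zero_pow, norm_pow, Complex.norm_ofNat, ← pow_mul, f]
    · rw [sum_zip]
      simp only [← Finset.mul_sum]
      rw [Fintype.card_fin] at h1
      simp only [Finset.sum_const, Finset.card_univ, Fintype.card_fun, Fintype.card_prod,
        Fintype.card_bool, nsmul_eq_mul]
      rw [mul_left_comm, h1]
      push_cast
      rw [show (4 : ℝ) = 2 * 2 by norm_num, mul_pow, mul_assoc]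
  · funext u w x
    have : ∀ i, update ω j o (Q i) = ω (Q i) := fun i => update_of_ne (fun e => hj ⟨i, e⟩) _ _
    simp only [h, this]

end Strategy

theorem sound {N M : ℕ} (hN : 11 ≤ N) (hM : 11 ≤ M) (S : Strategy) (cA cB : Qn N M → ℕ) {ε : ℝ}
    (hε : 0 ≤ ε) (w : ℕ)
    (hq : ∀ q q' (l l' : Fin 11) v, q l = q' l' →
      1 - S.acc (zt w (cA (.inl q)) (cB (.inl q')) l l' v) ≤ ε ^ 2 ∧
      1 - S.acc (xt w (cA (.inl q)) (cB (.inl q')) l l' v) ≤ ε ^ 2)
    (hk : ∀ q q' (l l' : Fin 11) v, q l = q' l' →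
      1 - S.acc (zt w (cA (.inr q)) (cB (.inr q')) l l' v) ≤ ε ^ 2) :
    ∃ (I : Type) (_ : Fintype I) (F : I → (Fin N ⊕ Fin M → Bool) → ℂ), ∑ i, nsq (F i) = 1 ∧
      ∀ (t : Test) q q', t.2.1 = cA (.inl q) → t.2.2.1 = cB (.inr q') →
        (∀ g ∈ t.2.2.2.1, g.2.2 < 11) →
        √(∑ i, rej (mapCirc (joint q q' ∘ Fin.ofNat (11 + 11)) t.2.2.2.1)
          (mapPat (joint q q' ∘ Fin.ofNat (11 + 11)) t.2.2.2.2) (F i)) ≤
          √(1 - S.acc t) + 448 * (N + M) * ε := by
  obtain ⟨s, hs⟩ := exists_sing hN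
  obtain ⟨s', hs'⟩ := exists_sing hM
  obtain ⟨LA, hLA, hA⟩ := rigid_emb hN (e := (Sum.inl : Fin N → Fin N ⊕ Fin M)) Sum.inl_injective
    S.Ψ (δ := 4 * ε) (by positivity) (Set.range fun X => S.L X 1)
    (fun q l => S.kA (cA (.inl q)) l id) (fun i => S.kB (cB (.inl (s i))) 0 Prod.swap)
    (by rintro _ ⟨X, rfl⟩ i o; exact S.L_commute _ _) (fun i => S.inst_kB _ _ (.inr fun _ => rfl))
    (fun q l i h => ⟨S.inst_kA _ _ (.inl fun _ => rfl), fun o => ⟨_, rfl⟩,
      S.close_qubit hε fun v => hq q (s i) l 0 v (h.trans (hs i).symm)⟩)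
    fun q l l' h => S.commute_kA _ h _
  obtain ⟨LB, hLB, hB⟩ := rigid_emb hM (e := (Sum.inr : Fin M → Fin N ⊕ Fin M)) Sum.inr_injective
    S.Ψ (δ := 4 * ε) (by positivity) (Set.range fun X => S.L 1 X)
    (fun q l => S.kB (cB (.inr q)) l dup) (fun i => S.kA (cA (.inr (s' i))) 0 dup)
    (by rintro _ ⟨X, rfl⟩ i o; exact (S.L_commute _ _).symm)
    (fun i => S.inst_kA _ _ (.inl fun _ => rfl))
    (fun q l i h => ⟨S.inst_kB _ _ (.inl fun _ => rfl), fun o => ⟨_, rfl⟩,
      S.close_key hε fun v => hk (s' i) q 0 l v ((hs' i).trans h.symm)⟩)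
    fun q l l' h => S.commute_kB _ h _
  set r : ℝ := √(Fintype.card (Fin N ⊕ Fin M → O)) with hr
  have hr0 : 0 < r := Real.sqrt_pos.mpr (Nat.cast_pos.mpr Fintype.card_pos)
  have hr2 : r ^ 2 = Fintype.card (Fin N ⊕ Fin M → O) := Real.sq_sqrt (Nat.cast_nonneg _)
  set c : (Fin N ⊕ Fin M → O) → S.E := fun _ => S.Ψ with hc
  have hci : ∀ j, Indep j c := fun j => indep_const j _
  have hlr : ∀ j ∈ Set.range (Sum.inr : Fin M → Fin N ⊕ Fin M), j ∉ Set.range Sum.inl := by
    rintro _ ⟨i, rfl⟩ ⟨j, h⟩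
    exact Sum.inl_ne_inr h
  have hcm : ∀ {X X' l l'}, Nice (Set.range fun X => S.L X 1) X l →
      Nice (Set.range fun X => S.L 1 X) X' l' → ∀ F : (Fin N ⊕ Fin M → O) → S.E,
      W l (W l' F) = W l' (W l F) := fun h h' => W_comm fun p hp p' hp' o o' => by
    obtain ⟨X, hX⟩ := h.mem p hp o
    obtain ⟨Y, hY⟩ := h'.mem p' hp' o'
    rw [← hX, ← hY]
    exact S.L_commute _ _
  set Φ := W LB (W LA c) with hΦ
  let f : (Ans × S.DA) × (Ans × S.DB) → S.E →ₗ[ℂ] ℂ := fun e =>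
    ((r⁻¹ : ℝ) : ℂ) • EuclideanSpace.projₗ e
  have hF : ∀ C π, ∑ i : (Fin N ⊕ Fin M → Bool) × ((Ans × S.DA) × (Ans × S.DB)),
      rej C π (fun x => f i.2 (Φ fun j => (x j, i.1 j))) = nsq (tst C π Φ) / r ^ 2 := by
    intro C π
    rw [Fintype.sum_prod_type, Finset.sum_comm]
    have : ∀ e, ∑ x' : Fin N ⊕ Fin M → Bool, rej C π (fun x => f e (Φ fun j => (x j, x' j))) =
        ∑ ω, ‖f e (tst C π Φ ω)‖ ^ 2 := fun e => by
      simp only [← tst_linear]
      exact (nsq_tst C π fun ω => f e (Φ ω)).symm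
    simp only [this]
    rw [Finset.sum_comm, nsq, Finset.sum_div]
    refine Finset.sum_congr rfl fun ω _ => ?_
    rw [EuclideanSpace.norm_sq_eq, Finset.sum_div]
    refine Finset.sum_congr rfl fun e _ => ?_
    simp [f, mul_pow, div_eq_inv_mul]
  refine ⟨_, inferInstance, fun (i : (Fin N ⊕ Fin M → Bool) × _) x =>
    f i.2 (Φ fun j => (x j, i.1 j)), ?_, fun t q q' ha hb hC => ?_⟩
  · have h := hF [] []
    rw [show tst [] [] Φ = Φ from funext fun ω => by simp [tst, cut], hΦ,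
      hLB.nsq_W fun j hj => hLA.indep (hlr j hj) (hci j), hLA.nsq_W fun j _ => hci j, hr2] at h
    simp only [rej_eq, List.not_mem_nil, false_imp_iff, imp_true_iff, if_true, run_nil] at h
    refine h.trans ?_
    simp [nsq, hc, S.norm_Ψ]
  obtain ⟨RA, hRA, hA1, hA2⟩ := hA q
  obtain ⟨RB, hRB, hB1, hB2⟩ := hB q'
  obtain ⟨h1, h2⟩ := S.nsq_tst_eq t (joint_injective q q') hC
  set lA := (List.finRange 11).map fun l =>
    ((.inl (q l), S.kA (cA (.inl q)) l id) : (Fin N ⊕ Fin M) × _) with hlA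
  set lB := (List.finRange 11).map fun l =>
    ((.inr (q' l), S.kB (cB (.inr q')) l dup) : (Fin N ⊕ Fin M) × _) with hlB
  have hp : pos.map (fun j => (joint q q' j, S.kk t.2.1 t.2.2.1 j)) = lB ++ lA := by
    simp only [pos, List.map_append, List.map_map, comp_def, joint, Strategy.kk, Fin.append_left,
      Fin.append_right, ha, hb, hlA, hlB]
  rw [hp, W_append] at h1 h2
  set C := mapCirc (joint q q' ∘ Fin.ofNat (11 + 11)) t.2.2.2.1 with hCd
  set π := mapPat (joint q q' ∘ Fin.ofNat (11 + 11)) t.2.2.2.2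
  have hCt : ∀ g ∈ C, ∃ l, g.2.2 = .inl (q l) := List.forall_mem_map.mpr fun g hg =>
    ⟨⟨_, hC g hg⟩, by
      rw [comp_apply, show Fin.ofNat (11 + 11) g.2.2 = _ from ofNat_left ⟨_, hC g hg⟩, joint,
        Fin.append_left]⟩
  have hlA' : Nice (Set.range fun X => S.L X 1) (Set.range Sum.inl) lA :=
    ⟨((List.map_append ▸ hA1.nodup).sublist (List.sublist_append_left _ _)),
      fun p hp => hA1.site p (List.mem_append_left _ hp),
      fun p hp => hA1.inst p (List.mem_append_left _ hp),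
      fun p hp => hA1.mem p (List.mem_append_left _ hp)⟩
  have e1 : nrm (Φ - W LB (W (lA ++ RA) c)) ≤ 112 * N * (4 * ε) * r := by
    rw [hΦ, ← W_sub, nrm, hLB.nsq_W fun j hj =>
      (hLA.indep (hlr j hj) (hci j)).sub (hA1.indep (hlr j hj) (hci j))]
    exact hA2
  have e2 : nrm (W LB (W (lA ++ RA) c) - W RA (W RB (W lA (W lB c)))) ≤ 112 * M * (4 * ε) * r := by
    rw [← hcm hA1 hLB, ← hcm hlA' hRB, ← W_append lA, ← W_append lB, ← W_sub, nrm,
      hA1.nsq_W fun j hj => (hLB.indep (fun h => hlr j h hj) (hci j)).sub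
        (hB1.indep (fun h => hlr j h hj) (hci j))]
    exact hB2
  have hj : ∀ j, j ∉ Set.range (Sum.inl ∘ q) → j ∉ Set.range (Sum.inr ∘ q') →
      j ∉ Set.range (joint q q') := by
    rintro _ h h' ⟨i, rfl⟩
    induction i using Fin.addCases
    · exact h ⟨_, by simp only [joint, Fin.append_left]; rfl⟩
    · exact h' ⟨_, by simp only [joint, Fin.append_right]; rfl⟩
  have e3 : nsq (tst C π (W RA (W RB (W lA (W lB c))))) = r ^ 2 * (1 - S.acc t) := by
    rw [tst_W _ _ RA fun p hp g hg h => by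
        obtain ⟨l, hl⟩ := hCt g hg
        exact (hRA.site p hp).2 ⟨l, hl.symm.trans h⟩,
      tst_W _ _ RB fun p hp g hg h => by
        obtain ⟨l, hl⟩ := hCt g hg
        exact hlr _ (hRB.site p hp).1 ⟨_, hl.symm.trans h⟩,
      hRA.nsq_W fun j h => hRB.indep (fun h' => hlr j h'.1 h.1)
        (h2 j (hj j h.2 fun ⟨l, hl⟩ => hlr j ⟨_, hl⟩ h.1)),
      hRB.nsq_W fun j h => h2 j (hj j (fun ⟨l, hl⟩ => hlr j h.1 ⟨_, hl⟩) h.2), h1, hr2]
  have e4 := nrm_le_add (tst C π Φ) (tst C π (W RA (W RB (W lA (W lB c)))))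
  have e5 := nrm_mono (nsq_tst_le C π (Φ - W RA (W RB (W lA (W lB c)))))
  have e6 := nrm_triangle Φ (W LB (W (lA ++ RA) c)) (W RA (W RB (W lA (W lB c))))
  rw [tst_sub] at e5
  rw [nrm, nrm, e3, Real.sqrt_mul (sq_nonneg _), Real.sqrt_sq hr0.le] at e4
  rw [hF, Real.sqrt_div (nsq_nonneg _), Real.sqrt_sq hr0.le, div_le_iff₀ hr0]
  linarith

end Pool.Agent.MP_d439b8_lc.H96
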