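import Pool.Agent.MP_d439b8_lc.H96.Table
import Pool.Agent.Shared.H56.Converse

/-!
Soundness, completeness, format and running time of the reduction.
-/

namespace Pool.Agent.MP_d439b8_lc.H96

open Function Pool.Agent.Shared.H56

namespace Verifier

variable {V : Verifier}

lemma rz_mem {q q' : Fin 11 ↪ Fin V.N} {l l' : Fin 11} (v : Bool) (h : q l = q' l') :
    rz (V.k * V.k) false (lst q, lst q', l, l', v) ∈ V.raw :=
  List.mem_append_right _ (List.mem_append_left _ (List.mem_append_left _
    (List.mem_map_of_mem (mem_quads.mpr ⟨q, q', l, l', v, h, rfl⟩))))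

lemma rx_mem {q q' : Fin 11 ↪ Fin V.N} {l l' : Fin 11} (v : Bool) (h : q l = q' l') :
    rx (V.k * V.k) (lst q, lst q', l, l', v) ∈ V.raw :=
  List.mem_append_right _ (List.mem_append_left _ (List.mem_append_right _
    (List.mem_map_of_mem (mem_quads.mpr ⟨q, q', l, l', v, h, rfl⟩))))

lemma rk_mem {q q' : Fin 11 ↪ Fin V.M} {l l' : Fin 11} (v : Bool) (h : q l = q' l') :
    rz (V.k * V.k) true (lst q, lst q', l, l', v) ∈ V.raw :=
  List.mem_append_right _ (List.mem_append_right _
    (List.mem_map_of_mem (mem_quads.mpr ⟨q, q', l, l', v, h, rfl⟩)))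

lemma loss_table (S : Strategy) : S.loss V.table =
    (V.etests.map fun t => (t.1 : ℝ) * (1 - S.acc (num V.raw t))).sum +
      S.loss (V.ctests.map (num V.raw)) := by
  rw [table, show V.raw.map (num V.raw) = (V.etests ++ V.ctests).map (num V.raw) from rfl,
    List.map_append, S.loss_append, Strategy.loss, List.map_map]
  rfl

theorem loss_no (h : ∀ ψ, V.Input ψ → V.acc ψ ≤ 1 / 3) (S : Strategy) :
    1 - 1 / (12 * V.R) ≤ S.loss V.table := by
  have hR : (1 : ℝ) ≤ V.R := Nat.one_le_cast.mpr V.R_pos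
  have hW : (1 : ℝ) ≤ V.WE := Nat.one_le_cast.mpr V.WE_pos
  have hN : (0 : ℝ) < V.N + V.M := by positivity
  have hk : (V.k : ℝ) = 448 * (V.N + V.M) * (36 * V.WE * V.R) := by simp only [k]; push_cast; rfl
  have hk0 : (0 : ℝ) < V.k := by rw [hk]; positivity
  rcases le_total 1 (S.loss V.table) with h1 | h1
  · exact (sub_le_self _ (by positivity)).trans h1
  have hc : ∀ t ∈ V.raw, t.1 = V.k * V.k → 1 - S.acc (num V.raw t) ≤ (1 / V.k) ^ 2 := by
    intro t ht e
    have := (S.le_loss (List.mem_map_of_mem (f := num V.raw) ht)).trans h1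
    rw [show (num V.raw t).1 = t.1 from rfl, e, Nat.cast_mul] at this
    rw [div_pow, one_pow, le_div_iff₀ (by positivity)]
    linarith
  obtain ⟨I, _, F, hF, hS⟩ := sound V.le_N V.le_M S
    (fun Q => (V.raw.map fun t => t.2.1).idxOf (encQ Q))
    (fun Q => (V.raw.map fun t => t.2.2.1).idxOf (encQ Q)) (ε := 1 / V.k) (by positivity) (V.k * V.k)
    (fun q q' l l' v e => by
      simpa only [num_rz, num_rx, encQ, Sum.elim_inl] using
        And.intro (hc _ (rz_mem v e) rfl) (hc _ (rx_mem v e) rfl))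
    fun q q' l l' v e => by simpa only [num_rz, encQ, Sum.elim_inr] using hc _ (rk_mem v e) rfl
  have hd : (448 * (V.N + V.M) * (1 / V.k) : ℝ) = 1 / (36 * V.WE * V.R) := by
    rw [hk]
    field_simp
  have h2 : ∀ t ∈ V.etests, (t.1 : ℝ) * ∑ i, rej (mapCirc (V.place t) t.2.2.2.1)
      (mapPat (V.place t) t.2.2.2.2) (F i) ≤
      t.1 * (1 - S.acc (num V.raw t)) + 3 * (1 / (36 * V.WE * V.R)) * t.1 := fun t ht => by
    obtain ⟨q, q', e1, e2, e3, e4, -⟩ := etests_wf ht
    have := hS (num V.raw t) q q' (by rw [← e1]; rfl) (by rw [← e2]; rfl) e3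
    rw [e4, hd] at this
    rw [mul_comm (3 * _), ← mul_add]
    exact mul_le_mul_of_nonneg_left (sq_le_add_three
      (Finset.sum_nonneg fun i _ => rej_nonneg _ _ _) (sub_nonneg.mpr (S.acc_le_one _))
      (sub_le_self _ (S.acc_nonneg _)) (by positivity)
      ((div_le_one (by positivity)).mpr (by nlinarith)) this) (Nat.cast_nonneg _)
  have h3 := List.sum_le_sum h2
  have h4 := Finset.sum_le_sum fun i (_ : i ∈ Finset.univ) => eloss_no h (F i)
  have h5 : (V.etests.map fun t => (t.1 : ℝ)).sum = V.WE := by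
    rw [WE, Nat.cast_list_sum, List.map_map]
    rfl
  simp only [Finset.mul_sum] at h3
  rw [sum_list_comm, List.sum_map_add, List.sum_map_mul_left, h5,
    show (3 * (1 / (36 * V.WE * V.R)) * V.WE : ℝ) = 1 / (12 * V.R) by field_simp; norm_num] at h3
  rw [hF] at h4
  have h6 := S.loss_nonneg (V.ctests.map (num V.raw))
  rw [loss_table]
  simp only [eloss] at h4
  linarith

theorem loss_yes {ψ : (Fin V.n → Bool) → ℂ} (h : V.Input ψ) (h' : 2 / 3 ≤ V.acc ψ) :
    ∃ S : Strategy, S.loss V.table ≤ 1 - 1 / (6 * V.R) := by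
  have hR : (1 : ℝ) ≤ V.R := Nat.one_le_cast.mpr V.R_pos
  have hW : (1 : ℝ) ≤ V.WE := Nat.one_le_cast.mpr V.WE_pos
  obtain ⟨η, hη, hE⟩ := V.energy_yes h h'
  obtain ⟨B, good, a, b, hg, hB⟩ := frames η hη V.R V.R_pos
  have : Nonempty (Qn V.N V.M) := ⟨.inl (Fin.castLEEmb V.le_N)⟩
  obtain ⟨S, h1, h2, h3⟩ := honest B (fun m => V.key (good m) (a m) (b m))
    (fun i => invFun encQ ((V.raw.map fun t => t.2.1).getD i default))
    fun i => invFun encQ ((V.raw.map fun t => t.2.2.1).getD i default)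
  have hi : ∀ (L : List (Bool × List ℕ)) (Q : Qn V.N V.M), encQ Q ∈ L →
      invFun encQ (L.getD (L.idxOf (encQ Q)) default) = Q := fun L Q hQ => by
    rw [List.getD_eq_getElem _ _ (List.idxOf_lt_length_of_mem hQ), List.getElem_idxOf,
      leftInverse_invFun encQ_injective]
  have hA : ∀ t ∈ V.raw, ∀ Q : Qn V.N V.M, t.2.1 = encQ Q →
      invFun encQ ((V.raw.map fun t => t.2.1).getD (num V.raw t).2.1 default) = Q := by
    intro t ht Q e
    rw [num, e]
    exact hi _ Q (e ▸ List.mem_map_of_mem (f := fun t : RT => t.2.1) ht)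
  have hB' : ∀ t ∈ V.raw, ∀ Q : Qn V.N V.M, t.2.2.1 = encQ Q →
      invFun encQ ((V.raw.map fun t => t.2.2.1).getD (num V.raw t).2.2.1 default) = Q := by
    intro t ht Q e
    rw [num, e]
    exact hi _ Q (e ▸ List.mem_map_of_mem (f := fun t : RT => t.2.2.1) ht)
  have hc : S.loss (V.ctests.map (num V.raw)) = 0 := by
    refine List.sum_eq_zero (List.forall_mem_map.mpr (List.forall_mem_map.mpr fun t ht =>
      mul_eq_zero_of_right _ (sub_eq_zero.mpr (Eq.symm ?_))))
    have ht' : t ∈ V.raw := List.mem_append_right _ ht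
    simp only [ctests, List.mem_append, List.mem_map, mem_quads] at ht
    rcases ht with (⟨_, ⟨q, q', l, l', v, e, rfl⟩, rfl⟩ | ⟨_, ⟨q, q', l, l', v, e, rfl⟩, rfl⟩) |
      ⟨_, ⟨q, q', l, l', v, e, rfl⟩, rfl⟩
    · exact (h2 _ _ _ q q' l l' v (hA _ ht' _ rfl) (hB' _ ht' _ rfl) e).1
    · exact (h2 _ _ _ q q' l l' v (hA _ ht' _ rfl) (hB' _ ht' _ rfl) e).2
    · exact h3 _ _ _ q q' l l' v (hA _ ht' _ rfl) (hB' _ ht' _ rfl) e
  refine ⟨S, ?_⟩
  rw [loss_table, hc, add_zero, List.map_congr_left (g := fun t => ∑ m, (t.1 : ℝ) *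
    rej (mapCirc (V.place t) t.2.2.2.1) (mapPat (V.place t) t.2.2.2.2)
      (label (fun x => B.1 x m) (V.key (good m) (a m) (b m))) / 2 ^ V.N) fun t ht => by
      obtain ⟨q, q', e1, e2, -, e4, -⟩ := etests_wf ht
      have ht' : t ∈ V.raw := List.mem_append_left _ ht
      rw [h1 _ q q' (hA t ht' _ e1) (hB' t ht' _ e2), e4, ← Finset.sum_div, ← Finset.mul_sum,
        mul_div_assoc]
      rfl, sum_list_comm]
  simp only [div_eq_mul_inv _ ((2 : ℝ) ^ V.N), List.sum_map_mul_right, ← Finset.sum_mul]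
  have h4 : ∀ m, V.eloss (label (fun x => B.1 x m) (V.key (good m) (a m) (b m))) ≤
      1 - if good m = true then 1 / 6 else 0 := fun m => by
    refine (eloss_yes hη _ _ _ (d := 1 / (18 * V.WE)) (by positivity)
      ((div_le_one (by positivity)).mpr (by linarith)) fun e => (hB m e).trans_eq ?_).trans ?_
    · simp only [R]
      push_cast
      field_simp
      norm_num
    · split_ifs
      · rw [show (3 * (1 / (18 * V.WE)) * V.WE : ℝ) = 1 / 6 by field_simp; norm_num]
        linarith
      · have := nsq_mulVec B (Pi.single m 1)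
        rw [Matrix.mulVec_single_one] at this
        rw [sub_zero]
        refine (this.trans ?_).le
        simp [nsq, Pi.single_apply, apply_ite norm]
  have h5 := Finset.sum_le_sum fun m (_ : m ∈ Finset.univ) => h4 m
  rw [Finset.sum_sub_distrib, ← Finset.sum_filter] at h5
  simp only [Finset.sum_const, Finset.card_univ, Fintype.card_fun, Fintype.card_fin,
    Fintype.card_bool, nsmul_eq_mul, mul_one, Nat.cast_pow, Nat.cast_ofNat, eloss] at h5
  rw [Fintype.card_fin] at hg
  have h6 : (2 : ℝ) ^ V.N ≤ V.R * (Finset.univ.filter fun m => good m = true).card := by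
    exact_mod_cast hg
  rw [mul_inv_le_iff₀ (by positivity)]
  refine h5.trans ?_
  rw [sub_mul, one_mul, sub_le_sub_iff_left, div_mul_eq_mul_div, div_le_iff₀ (by positivity)]
  linarith

variable (V)

/-- The total weight. -/
def W : ℕ := (V.table.map fun t => t.1).sum

/-- The instance of the game problem. -/
def inst : List Test × ℚ × ℚ :=
  (V.table, 1 - (1 - 1 / (6 * V.R)) / V.W, 1 - (1 - 1 / (12 * V.R)) / V.W)

lemma W_eq : V.W = V.WE + (V.ctests.map fun t => t.1).sum := by
  rw [W, table, List.map_map, WE, ← List.sum_append, ← List.map_append]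
  rfl

lemma W_pos : 0 < V.W := V.W_eq ▸ Nat.add_pos_left V.WE_pos _

lemma length_raw : V.raw.length ≤ size V.table :=
  (List.length_map _).symm.trans_le (length_le_sz V.table)

lemma N_le : V.N ≤ size V.table := by
  obtain ⟨s, hs⟩ := exists_sing V.le_N
  have h : ((List.finRange V.N).map fun i => (encQ (.inl (s i) : Qn V.N V.M))).Subperm
      (V.raw.map fun t => t.2.1) :=
    List.subperm_of_subset ((List.nodup_finRange _).map fun i j e => by
      rw [← hs i, Sum.inl_injective (encQ_injective e), hs]) fun x hx => by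
      obtain ⟨i, -, rfl⟩ := List.mem_map.mp hx
      exact List.mem_map_of_mem (f := fun t : RT => t.2.1) (rz_mem (l := 0) (l' := 0) true rfl)
  simpa using h.length_le.trans ((List.length_map _).trans_le V.length_raw)

end Verifier

open Polynomial in
/-- The polynomial that bounds the inverse gap. -/
noncomputable def gapPoly : ℕ[X] :=
  12 * (36 * (X * (4000 * X ^ 3))) ^ 2 * (X * (4000 * X ^ 3) +
    X * (448 * (4 * X) * (36 * (X * (4000 * X ^ 3))) ^ 3) ^ 2)

namespace Verifier

variable (V : Verifier)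

lemma format : Format gapPoly V.inst := by
  refine ⟨V.W_pos, List.forall_mem_map.mpr fun t ht => ⟨?_, ?_⟩, ?_⟩
  · exact (List.idxOf_lt_length_of_mem (List.mem_map_of_mem (f := fun t : RT => t.2.1) ht)).trans_le
      ((List.length_map _).trans_le V.length_raw)
  · exact (List.idxOf_lt_length_of_mem
      (List.mem_map_of_mem (f := fun t : RT => t.2.2.1) ht)).trans_le
      ((List.length_map _).trans_le V.length_raw)
  have hR : (0 : ℚ) < V.R := Nat.cast_pos.mpr V.R_pos
  have hW : (0 : ℚ) < V.W := Nat.cast_pos.mpr V.W_pos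
  rw [show V.inst.2.1 - V.inst.2.2 = ((12 * V.R * V.W : ℕ) : ℚ)⁻¹ by
    simp only [inst]; push_cast; field_simp; ring, le_mul_inv_iff₀ (by push_cast; positivity),
    one_mul, Nat.cast_le]
  have h1 := V.N_le
  have h2 := V.length_raw
  have h3 := V.le_N
  rw [raw, List.length_append] at h2
  rw [show V.inst.1 = V.table from rfl]
  generalize size V.table = n at *
  have hE : V.WE ≤ n * (4000 * n ^ 3) := by
    refine (List.sum_le_card_nsmul _ V.J (List.forall_mem_map.mpr fun t ht => ?_)).trans ?_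
    · obtain ⟨_, _, -, -, -, -, h⟩ := etests_wf ht
      exact h
    · rw [List.length_map, smul_eq_mul, J, pow_three']
      gcongr
      omega
  have hR : V.R ≤ (36 * (n * (4000 * n ^ 3))) ^ 2 := by
    rw [R, sq]
    gcongr
  have hk : V.k ≤ 448 * (4 * n) * (36 * (n * (4000 * n ^ 3))) ^ 3 := by
    rw [k, pow_succ' _ 2]
    gcongr
    simp only [M]
    omega
  have hC : (V.ctests.map fun t => t.1).sum ≤
      n * (448 * (4 * n) * (36 * (n * (4000 * n ^ 3))) ^ 3) ^ 2 := by
    refine (List.sum_le_card_nsmul _ (V.k * V.k) (List.forall_mem_map.mpr fun t ht => ?_)).trans ?_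
    · simp only [ctests, List.mem_append, List.mem_map] at ht
      rcases ht with (⟨_, -, rfl⟩ | ⟨_, -, rfl⟩) | ⟨_, -, rfl⟩ <;> exact le_rfl
    · rw [List.length_map, smul_eq_mul, sq]
      gcongr
      omega
  simp only [gapPoly, Polynomial.eval_mul, Polynomial.eval_add, Polynomial.eval_pow,
    Polynomial.eval_X, Polynomial.eval_ofNat, W_eq]
  gcongr

lemma bdd (G : List Test) (h : 0 < (G.map fun t => t.1).sum) :
    BddAbove (Set.range fun S : Strategy => S.val G) :=
  ⟨1, Set.forall_mem_range.mpr fun S => by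
    rw [S.val_eq h]
    exact sub_le_self _ (div_nonneg (S.loss_nonneg G) (Nat.cast_nonneg _))⟩

variable {V}

theorem inst_yes {ψ : (Fin V.n → Bool) → ℂ} (h : V.Input ψ) (h' : 2 / 3 ≤ V.acc ψ) :
    V.inst ∈ GameYes gapPoly := by
  obtain ⟨S, hS⟩ := loss_yes h h'
  refine ⟨V.format, le_trans ?_ (le_ciSup (bdd _ V.W_pos) S)⟩
  rw [S.val_eq V.W_pos]
  simp only [inst, W]
  push_cast [-Nat.cast_list_sum]
  gcongr

theorem inst_no (h : ∀ ψ, V.Input ψ → V.acc ψ ≤ 1 / 3) : V.inst ∈ GameNo gapPoly := by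
  obtain ⟨S, -⟩ := honest (N := 11) (M := 0) 1 (fun _ => default) (fun _ => .inl (.refl _))
    fun _ => .inl (.refl _)
  have : Nonempty Strategy := ⟨S⟩
  refine ⟨V.format, ciSup_le fun S => (S.val_eq V.W_pos).trans_le ?_⟩
  simp only [inst, W]
  push_cast [-Nat.cast_list_sum]
  gcongr
  exact loss_no h S

end Verifier

theorem pt_tup (k : ℕ) : PT fun L : List ℕ => tup L k := by
  induction k with
  | zero => exact PT.const _
  | succ k ih =>
    unfold tup
    fun_prop

theorem pt_quads : PT quads := by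
  have := pt_tup 11
  unfold quads
  fun_prop

theorem pt_unN : PT fun V : Verifier => un V.N :=
  PT.un_add (PT.un_add (PT.un_add (PT.un_add (PT.un_add (PT.un_length (by fun_prop))
    (PT.un_length (by fun_prop))) (PT.const (un 1))) (PT.const (un 10)))
    (PT.un_add (PT.un_length (by fun_prop)) (PT.const (un 1)))) (PT.const (un 1))

theorem pt_unM : PT fun V : Verifier => un V.M :=
  PT.un_add (PT.un_add pt_unN pt_unN) (PT.const (un 1))

theorem pt_etests : PT Verifier.etests := by
  refine PT.cons (PT.const _) (PT.map ?_ pt_sem)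
  unfold Verifier.etest Verifier.pads Verifier.N Verifier.n Verifier.T
  fun_prop

theorem pt_WE : PT Verifier.WE := (PT.map (by fun_prop) pt_etests).sum

theorem pt_R : PT Verifier.R := ((PT.const 36).mul pt_WE).mul ((PT.const 36).mul pt_WE)

theorem pt_k : PT Verifier.k := ((PT.const 448).mul (pt_unN.of_un.add pt_unM.of_un)).mul
  (((PT.const 36).mul pt_WE).mul pt_R)

theorem pt_cons {w : Verifier → ℕ} {l l' : Verifier → List (List ℕ × List ℕ × ℕ × ℕ × Bool)}
    (hw : PT w) (hl : PT l) (hl' : PT l') : PT fun V => (l V).map (rz (w V) false) ++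
      (l V).map (rx (w V)) ++ (l' V).map (rz (w V) true) := by
  unfold rz rx
  fun_prop

theorem pt_raw : PT Verifier.raw := pt_etests.append
  (pt_cons (pt_k.mul pt_k) (pt_quads.comp (PT.range pt_unN)) (pt_quads.comp (PT.range pt_unM)))

theorem pt_table : PT Verifier.table := by
  have h : PT fun G : List RT => G.map (num G) := by
    unfold num
    fun_prop
  exact h.comp pt_raw

theorem pt_inst : PT Verifier.inst := by
  have h : PT fun p : ℕ × List Test => ((p.2,
      1 - (1 - 1 / (6 * p.1)) / ((p.2.map fun t => t.1).sum : ℕ),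
      1 - (1 - 1 / (12 * p.1)) / ((p.2.map fun t => t.1).sum : ℕ)) : List Test × ℚ × ℚ) := by
    fun_prop
  exact h.comp (pt_R.prodMk pt_table)

end Pool.Agent.MP_d439b8_lc.H96
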