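import Pool.Agent.MP_d439b8_lc.H96.Gates

/-!
Pauli translates of a state: many of them are close to members of one orthonormal basis.
-/

namespace Pool.Agent.MP_d439b8_lc.H96

variable {ι : Type} [Fintype ι] [DecidableEq ι]

/-- The vector `Z ^ b X ^ a η`. -/
noncomputable def pauli (a b : ι → Bool) (η : (ι → Bool) → ℂ) (x : ι → Bool) : ℂ :=
  (∏ i, if b i = true ∧ x i = true then -1 else 1) * η fun i => xor (x i) (a i)

/-- The gates that undo `Z ^ b X ^ a` on one qubit. -/
def corr {ι : Type} (s : ι) (a b : Bool) : List (Gate ι) :=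
  (if b = true then [([], 3, s)] else []) ++ if a = true then [([], 0, s)] else []

namespace Frames

open Function

/-- The sign of `Z ^ b` on the basis state `x`. -/
noncomputable def sg (b x : ι → Bool) : ℂ := ∏ i, if b i = true ∧ x i = true then -1 else 1

/-- The shift by `a`. -/
def sh (a x : ι → Bool) : ι → Bool := fun i => xor (x i) (a i)

omit [DecidableEq ι] in
lemma pauli_eq (a b : ι → Bool) (η : (ι → Bool) → ℂ) (x : ι → Bool) :
    pauli a b η x = sg b x * η (sh a x) := rfl

omit [DecidableEq ι] in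
lemma norm_sg (b x : ι → Bool) : ‖sg b x‖ = 1 := by
  rw [sg, norm_prod]
  exact Finset.prod_eq_one fun i _ => by split_ifs <;> simp

omit [DecidableEq ι] in
lemma sg_mul_self (b x : ι → Bool) : sg b x * sg b x = 1 := by
  rw [sg, ← Finset.prod_mul_distrib]
  exact Finset.prod_eq_one fun i _ => by split_ifs <;> simp

omit [DecidableEq ι] in
lemma conj_sg (b x : ι → Bool) : (starRingEnd ℂ) (sg b x) = sg b x := by
  rw [sg, map_prod]
  exact Finset.prod_congr rfl fun i _ => by split_ifs <;> simp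

omit [Fintype ι] [DecidableEq ι] in
lemma sh_sh (a x : ι → Bool) : sh a (sh a x) = x := by
  funext i
  simp [sh]

omit [Fintype ι] [DecidableEq ι] in
lemma sh_comm (a x : ι → Bool) : sh a x = sh x a := by
  funext i
  simp [sh, Bool.xor_comm]

lemma sum_sh (a : ι → Bool) (f : (ι → Bool) → ℝ) : ∑ x, f (sh a x) = ∑ x, f x :=
  Fintype.sum_bijective _ (Involutive.bijective (sh_sh a)) _ _ fun _ => rfl

lemma sg_update_right {b : ι → Bool} {t : ι} (hb : b t = false) (x : ι → Bool) (o : Bool) :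
    sg b (update x t o) = sg b x := by
  refine Finset.prod_congr rfl fun i _ => ?_
  by_cases h : i = t
  · subst h
    simp [hb]
  · rw [update_of_ne h]

lemma sg_update_left {b : ι → Bool} {s : ι} (hb : b s = true) (x : ι → Bool) :
    (if x s = true then -1 else 1) * sg b x = sg (update b s false) x := by
  rw [sg, sg, ← Finset.mul_prod_erase _ _ (Finset.mem_univ s),
    ← Finset.mul_prod_erase _ _ (Finset.mem_univ s), ← mul_assoc]
  congr 1
  · by_cases h : x s = true <;> simp [h, hb]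
  · refine Finset.prod_congr rfl fun i hi => ?_
    rw [update_of_ne (Finset.ne_of_mem_erase hi)]

omit [Fintype ι] in
lemma sh_update {a : ι → Bool} {t : ι} (ha : a t = false) (x : ι → Bool) (o : Bool) :
    sh a (update x t o) = update (sh a x) t o := by
  funext i
  by_cases h : i = t
  · subst h
    simp [sh, ha]
  · simp [sh, update_of_ne h]

lemma app_Z {a b : ι → Bool} {s : ι} (hb : b s = true) (η : (ι → Bool) → ℂ) :
    app ([], 3, s) (pauli a b η) = pauli a (update b s false) η := by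
  funext x
  rw [pauli_eq, ← sg_update_left hb, mul_assoc, ← pauli_eq]
  cases h : x s
  · have : update x s false = x := by rw [← h, update_eq_self]
    simp [app, op, h, this]
  · have : update x s true = x := by rw [← h, update_eq_self]
    simp [app, op, h, this]

lemma app_X {a b : ι → Bool} {s : ι} (ha : a s = true) (hb : b s = false) (η : (ι → Bool) → ℂ) :
    app ([], 0, s) (pauli a b η) = pauli (update a s false) b η := by
  funext x
  have key : sh a (update x s (!x s)) = sh (update a s false) x := by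
    funext i
    by_cases h : i = s
    · subst h
      simp [sh, ha]
    · simp [sh, update_of_ne h]
  rw [pauli_eq, ← key, ← sg_update_right hb x (!x s), ← pauli_eq]
  cases h : x s <;> simp [app, op, h]

lemma run_corr (a b : ι → Bool) (s : ι) (η : (ι → Bool) → ℂ) :
    run (corr s (a s) (b s)) (pauli a b η) = pauli (update a s false) (update b s false) η := by
  have e : ∀ c : ι → Bool, c s = false → update c s false = c := fun c h => by
    rw [← h, update_eq_self]
  cases ha : a s <;> cases hb : b s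
  · simp [corr, e a ha, e b hb]
  · simp [corr, e a ha, app_Z hb]
  · simp [corr, e b hb, app_X ha hb]
  · simp [corr, app_Z hb, app_X ha (update_self s false b)]

lemma run_corrs (l : List ι) (hl : l.Nodup) (a b : ι → Bool) (η : (ι → Bool) → ℂ) :
    ∃ a' b' : ι → Bool, (∀ s, s ∈ l ∨ a s = false → a' s = false) ∧
      (∀ s, s ∈ l ∨ b s = false → b' s = false) ∧
      run (l.flatMap fun s => corr s (a s) (b s)) (pauli a b η) = pauli a' b' η := by
  induction l generalizing a b with
  | nil => exact ⟨a, b, fun s h => by simpa using h, fun s h => by simpa using h, rfl⟩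
  | cons t l ih =>
    rw [List.nodup_cons] at hl
    obtain ⟨a', b', ha, hb, h⟩ := ih hl.2 (update a t false) (update b t false)
    have u : ∀ (c : ι → Bool) (s : ι), s ∈ t :: l ∨ c s = false →
        s ∈ l ∨ update c t false s = false := by
      intro c s hs
      by_cases e : s = t
      · subst e
        simp
      · simpa [e, update_of_ne e] using hs
    refine ⟨a', b', fun s hs => ha s (u a s hs), fun s hs => hb s (u b s hs), ?_⟩
    rw [List.flatMap_cons, run_append, run_corr, ← h]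
    congr 1
    refine List.flatMap_congr fun s hs => ?_
    have e : s ≠ t := fun e => hl.1 (e ▸ hs)
    rw [update_of_ne e, update_of_ne e]

lemma app_pauli {a b : ι → Bool} (g : Gate ι) (h1 : a g.2.2 = false) (h2 : b g.2.2 = false)
    (h3 : ∀ c ∈ g.1, a c.1 = false) (η : (ι → Bool) → ℂ) :
    app g (pauli a b η) = pauli a b (app g η) := by
  funext x
  have hc : (∀ c ∈ g.1, c.1 = g.2.2 ∨ sh a x c.1 = c.2) ↔
      ∀ c ∈ g.1, c.1 = g.2.2 ∨ x c.1 = c.2 :=
    forall₂_congr fun c hc => by simp [sh, h3 c hc]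
  have ht : sh a x g.2.2 = x g.2.2 := by simp [sh, h1]
  simp only [app, pauli_eq, hc, ht, sg_update_right h2, sh_update h1]
  split_ifs
  · rw [Finset.mul_sum]
    exact Finset.sum_congr rfl fun o _ => by simp only [smul_eq_mul]; ring
  · rfl

lemma run_pauli {a b : ι → Bool} (C : List (Gate ι))
    (h : ∀ g ∈ C, a g.2.2 = false ∧ b g.2.2 = false ∧ ∀ c ∈ g.1, a c.1 = false)
    (η : (ι → Bool) → ℂ) : run C (pauli a b η) = pauli a b (run C η) := by
  induction C generalizing η with
  | nil => rfl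
  | cons g C ih =>
    obtain ⟨h1, h2, h3⟩ := h g List.mem_cons_self
    rw [run_cons, run_cons, app_pauli g h1 h2 h3, ih fun g hg => h g (List.mem_cons_of_mem _ hg)]

lemma cut_pauli {a b : ι → Bool} (π : List (ι × Bool)) (h : ∀ c ∈ π, a c.1 = false)
    (η : (ι → Bool) → ℂ) : cut π (pauli a b η) = pauli a b (cut π η) := by
  funext x
  have hc : (∀ c ∈ π, sh a x c.1 = c.2) ↔ ∀ c ∈ π, x c.1 = c.2 :=
    forall₂_congr fun c hc => by simp [sh, h c hc]
  simp only [cut, pauli_eq, hc]
  split_ifs <;> simp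

lemma sum_sg (x y : ι → Bool) :
    ∑ b, sg b x * sg b y = if x = y then (2 : ℂ) ^ Fintype.card ι else 0 := by
  have e : ∑ b, sg b x * sg b y = ∏ i, ∑ β : Bool,
      ((if β = true ∧ x i = true then -1 else 1) * (if β = true ∧ y i = true then -1 else 1) :
        ℂ) := by
    rw [Finset.prod_univ_sum, Fintype.piFinset_univ]
    exact Finset.sum_congr rfl fun b _ => by rw [sg, sg, ← Finset.prod_mul_distrib]
  rw [e]
  split_ifs with h
  · subst h
    rw [← Finset.card_univ, ← Finset.prod_const]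
    exact Finset.prod_congr rfl fun i _ => by cases x i <;> norm_num
  · obtain ⟨i, hi⟩ := Function.ne_iff.mp h
    refine Finset.prod_eq_zero (Finset.mem_univ i) ?_
    revert hi
    cases x i <;> cases y i <;> simp

lemma parseval (f : (ι → Bool) → ℂ) :
    ∑ b, ‖∑ x, sg b x * f x‖ ^ 2 = 2 ^ Fintype.card ι * ∑ x, ‖f x‖ ^ 2 := by
  have e : ∀ b, ((‖∑ x, sg b x * f x‖ ^ 2 : ℝ) : ℂ) =
      ∑ x, ∑ y, (sg b x * sg b y) * (f x * (starRingEnd ℂ) (f y)) := by
    intro b
    rw [Complex.ofReal_pow, ← Complex.mul_conj', map_sum, Finset.sum_mul_sum]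
    refine Finset.sum_congr rfl fun x _ => Finset.sum_congr rfl fun y _ => ?_
    rw [map_mul, conj_sg]
    ring
  apply Complex.ofReal_injective
  rw [Complex.ofReal_sum]
  simp only [e]
  rw [Finset.sum_comm]
  push_cast
  rw [Finset.mul_sum]
  refine Finset.sum_congr rfl fun x _ => ?_
  rw [Finset.sum_comm]
  simp only [← Finset.sum_mul, sum_sg]
  simp [Complex.mul_conj']

/-- The Pauli translate as a vector of Euclidean space. -/
noncomputable def pv (η : (ι → Bool) → ℂ) (p : (ι → Bool) × (ι → Bool)) :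
    EuclideanSpace ℂ (ι → Bool) := WithLp.toLp 2 (pauli p.1 p.2 η)

lemma twirl (η : (ι → Bool) → ℂ) (u : EuclideanSpace ℂ (ι → Bool)) :
    ∑ p, ‖inner ℂ u (pv η p)‖ ^ 2 = 2 ^ Fintype.card ι * (‖u‖ ^ 2 * nsq η) := by
  have e : ∀ a b, inner ℂ u (pv η (a, b)) =
      ∑ x, sg b x * (η (sh a x) * (starRingEnd ℂ) (u x)) := by
    intro a b
    rw [PiLp.inner_apply]
    refine Finset.sum_congr rfl fun x _ => ?_
    simp [pv, pauli_eq, mul_assoc]
  rw [Fintype.sum_prod_type]
  simp only [e, parseval, norm_mul, mul_pow, Complex.norm_conj]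
  rw [← Finset.mul_sum, Finset.sum_comm, EuclideanSpace.norm_sq_eq, Finset.sum_mul]
  congr 1
  refine Finset.sum_congr rfl fun x _ => ?_
  rw [← Finset.sum_mul, mul_comm]
  congr 1
  simp only [sh_comm _ x]
  exact sum_sh x fun y => ‖η y‖ ^ 2

/-- One step of the Gram-Schmidt process. -/
lemma gs_step {X E : Type} [DecidableEq X] [NormedAddCommGroup E] [InnerProductSpace ℂ E]
    (s : Finset X) (v : X → E)
    (hv : ∀ i ∈ s, ∀ j ∈ s, inner ℂ (v i) (v j) = if i = j then (1 : ℂ) else 0) (p : E)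
    (hp : ‖p‖ = 1) (hτ : ∑ j ∈ s, ‖inner ℂ (v j) p‖ ^ 2 < 1) :
    ∃ u : E, ‖u‖ = 1 ∧ (∀ i ∈ s, inner ℂ (v i) u = (0 : ℂ)) ∧
      ‖u - p‖ ^ 2 ≤ 4 * ∑ j ∈ s, ‖inner ℂ (v j) p‖ ^ 2 := by
  set q : E := ∑ j ∈ s, (inner ℂ (v j) p : ℂ) • v j with hq
  have h1 : ∀ i ∈ s, inner ℂ (v i) q = (inner ℂ (v i) p : ℂ) := by
    intro i hi
    rw [hq, inner_sum, Finset.sum_eq_single i]
    · rw [inner_smul_right, hv i hi i hi]
      simp
    · intro j hj hji
      rw [inner_smul_right, hv i hi j hj, if_neg hji.symm, mul_zero]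
    · exact fun h => absurd hi h
  have h2 : ∀ i ∈ s, inner ℂ (v i) (p - q) = (0 : ℂ) := fun i hi => by
    rw [inner_sub_right, h1 i hi, sub_self]
  have h3 : inner ℂ q (p - q) = (0 : ℂ) := by
    conv_lhs => rw [hq, sum_inner]
    exact Finset.sum_eq_zero fun i hi => by rw [inner_smul_left, ← hq, h2 i hi, mul_zero]
  have h4 : ‖q‖ ^ 2 = ∑ j ∈ s, ‖inner ℂ (v j) p‖ ^ 2 := by
    apply Complex.ofReal_injective
    have : inner ℂ q q = ∑ j ∈ s, (starRingEnd ℂ) (inner ℂ (v j) p) * inner ℂ (v j) p := by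
      conv_lhs => arg 2; rw [hq]
      rw [sum_inner]
      exact Finset.sum_congr rfl fun i hi => by rw [inner_smul_left, h1 i hi]
    rw [inner_self_eq_norm_sq_to_K] at this
    push_cast
    refine this.trans (Finset.sum_congr rfl fun i _ => ?_)
    rw [Complex.conj_mul']
  have h5 : ‖q‖ ^ 2 + ‖p - q‖ ^ 2 = 1 := by
    have := norm_add_sq_eq_norm_sq_add_norm_sq_of_inner_eq_zero q (p - q) h3
    rw [add_sub_cancel, hp] at this
    linarith
  rw [← h4] at hτ ⊢
  have hq0 := norm_nonneg q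
  have hw0 : 0 < ‖p - q‖ := by
    by_contra h
    have : ‖p - q‖ = 0 := le_antisymm (not_lt.mp h) (norm_nonneg _)
    rw [this] at h5
    linarith
  have hw1 : ‖p - q‖ ≤ 1 := by nlinarith
  refine ⟨((‖p - q‖⁻¹ : ℝ) : ℂ) • (p - q), ?_, fun i hi => ?_, ?_⟩
  · rw [norm_smul, Complex.norm_real, norm_inv, norm_norm, inv_mul_cancel₀ hw0.ne']
  · rw [inner_smul_right, h2 i hi, mul_zero]
  · have e : ((‖p - q‖⁻¹ : ℝ) : ℂ) • (p - q) - p =
        ((‖p - q‖⁻¹ - 1 : ℝ) : ℂ) • (p - q) - q := by
      rw [Complex.ofReal_sub, sub_smul, Complex.ofReal_one, one_smul]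
      abel
    have h6 : ‖((‖p - q‖⁻¹ - 1 : ℝ) : ℂ) • (p - q)‖ = 1 - ‖p - q‖ := by
      rw [norm_smul, Complex.norm_real, Real.norm_of_nonneg
        (sub_nonneg.mpr ((one_le_inv₀ hw0).mpr hw1)), sub_mul, inv_mul_cancel₀ hw0.ne', one_mul]
    have h7 := norm_sub_le (((‖p - q‖⁻¹ - 1 : ℝ) : ℂ) • (p - q)) q
    rw [h6, ← e] at h7
    have h8 : 1 - ‖p - q‖ ≤ ‖q‖ := by nlinarith
    have h9 := norm_nonneg (((‖p - q‖⁻¹ : ℝ) : ℂ) • (p - q) - p)
    nlinarith

end Frames

open Frames

theorem nsq_pauli (a b : ι → Bool) (η : (ι → Bool) → ℂ) : nsq (pauli a b η) = nsq η := by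
  simp only [nsq, pauli_eq, norm_mul, norm_sg, one_mul]
  exact sum_sh a fun y => ‖η y‖ ^ 2

theorem pauli_surj (a b : ι → Bool) (φ : (ι → Bool) → ℂ) : ∃ η, pauli a b η = φ := by
  refine ⟨fun y => sg b (sh a y) * φ (sh a y), funext fun x => ?_⟩
  rw [pauli_eq, sh_sh, ← mul_assoc, sg_mul_self, one_mul]

theorem rej_corr (l : List ι) (hl : l.Nodup) (C : List (Gate ι)) (π : List (ι × Bool))
    (hC : ∀ g ∈ C, g.2.2 ∈ l ∧ ∀ c ∈ g.1, c.1 ∈ l) (hπ : ∀ c ∈ π, c.1 ∈ l) (a b : ι → Bool)
    (η : (ι → Bool) → ℂ) :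
    rej ((l.flatMap fun s => corr s (a s) (b s)) ++ C) π (pauli a b η) = rej C π η := by
  obtain ⟨a', b', ha, hb, h⟩ := run_corrs l hl a b η
  rw [rej, rej, run_append, h, run_pauli C fun g hg => ⟨ha _ (Or.inl (hC g hg).1),
    hb _ (Or.inl (hC g hg).1), fun c hc => ha _ (Or.inl ((hC g hg).2 c hc))⟩,
    cut_pauli π fun c hc => ha _ (Or.inl (hπ c hc)), nsq_pauli]

/-- The greedy construction of an orthonormal family close to Pauli translates. -/
lemma Frames.greedy (η : (ι → Bool) → ℂ) (hη : nsq η = 1) (R : ℕ) (hR : 0 < R) (k : ℕ) :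
    ∃ (s : Finset (ι → Bool)) (v : (ι → Bool) → EuclideanSpace ℂ (ι → Bool)),
      (k ≤ s.card ∨ 2 ^ Fintype.card ι ≤ R * s.card) ∧
      (∀ i ∈ s, ∀ j ∈ s, inner ℂ (v i) (v j) = if i = j then (1 : ℂ) else 0) ∧
      ∀ m ∈ s, ∃ p, ‖v m - pv η p‖ ^ 2 ≤ 4 / R := by
  induction k with
  | zero => exact ⟨∅, 0, Or.inl (Nat.zero_le _), by simp, by simp⟩
  | succ k ih =>
    obtain ⟨s, v, hk, hv, hp⟩ := ih
    by_cases hs : 2 ^ Fintype.card ι ≤ R * s.card
    · exact ⟨s, v, Or.inr hs, hv, hp⟩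
    have hk : k ≤ s.card := hk.resolve_right hs
    rw [not_le] at hs
    have hcard : Fintype.card (ι → Bool) = 2 ^ Fintype.card ι := by simp
    have hlt : s.card < (Finset.univ : Finset (ι → Bool)).card := by
      rw [Finset.card_univ, hcard]
      exact lt_of_le_of_lt (Nat.le_mul_of_pos_left _ hR) hs
    obtain ⟨m0, -, hm0⟩ := Finset.exists_mem_notMem_of_card_lt_card hlt
    have hR' : (0 : ℝ) < R := by exact_mod_cast hR
    have hR1 : (1 : ℝ) ≤ R := by exact_mod_cast hR
    have hs' : (R : ℝ) * s.card < 2 ^ Fintype.card ι := by exact_mod_cast hs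
    have hD : (0 : ℝ) < 2 ^ Fintype.card ι := by positivity
    have hn : ∀ j ∈ s, ‖v j‖ ^ 2 = 1 := by
      intro j hj
      have := hv j hj j hj
      rw [if_pos rfl] at this
      rw [← inner_self_eq_norm_sq (𝕜 := ℂ), this]
      simp
    have htot : ∑ p, ∑ j ∈ s, ‖inner ℂ (v j) (pv η p)‖ ^ 2 <
        ∑ _p : (ι → Bool) × (ι → Bool), (1 / R : ℝ) := by
      rw [Finset.sum_comm, Finset.sum_congr rfl fun j hj => by rw [twirl, hn j hj, hη]]
      simp only [Finset.sum_const, Finset.card_univ, Fintype.card_prod, hcard, nsmul_eq_mul]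
      push_cast
      rw [mul_one_div, lt_div_iff₀ hR']
      nlinarith
    obtain ⟨p, -, hτ⟩ := Finset.exists_lt_of_sum_lt htot
    have hp1 : ‖pv η p‖ = 1 := by
      rw [pv, ← nrm_eq, nrm, nsq_pauli, hη, Real.sqrt_one]
    obtain ⟨u, hu1, hu2, hu3⟩ := gs_step s v hv (pv η p) hp1
      (hτ.trans_le ((div_le_one hR').mpr hR1))
    have hne : ∀ i ∈ s, i ≠ m0 := fun i hi e => hm0 (e ▸ hi)
    have hup : ∀ i ∈ s, Function.update v m0 u i = v i := fun i hi =>
      Function.update_of_ne (hne i hi) _ _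
    refine ⟨insert m0 s, Function.update v m0 u, Or.inl ?_, ?_, ?_⟩
    · rw [Finset.card_insert_of_notMem hm0]
      omega
    · intro i hi j hj
      rcases Finset.mem_insert.mp hi with hi | hi <;> rcases Finset.mem_insert.mp hj with hj | hj
      · rw [hi, hj, Function.update_self, if_pos rfl, inner_self_eq_norm_sq_to_K, hu1]
        simp
      · rw [hi, Function.update_self, hup j hj, if_neg (hne j hj).symm, ← inner_conj_symm,
          hu2 j hj, map_zero]
      · rw [hj, Function.update_self, hup i hi, if_neg (hne i hi), hu2 i hi]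
      · rw [hup i hi, hup j hj, hv i hi j hj]
    · intro m hm
      rcases Finset.mem_insert.mp hm with rfl | hm
      · refine ⟨p, ?_⟩
        rw [Function.update_self]
        refine hu3.trans ?_
        rw [div_eq_mul_one_div 4]
        linarith
      · rw [hup m hm]
        exact hp m hm

theorem frames (η : (ι → Bool) → ℂ) (hη : nsq η = 1) (R : ℕ) (hR : 0 < R) :
    ∃ (B : Matrix.unitaryGroup (ι → Bool) ℂ) (good : (ι → Bool) → Bool)
      (a b : (ι → Bool) → ι → Bool),
      2 ^ Fintype.card ι ≤ R * (Finset.univ.filter fun m => good m = true).card ∧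
      ∀ m, good m = true → nsq ((fun x => B.1 x m) - pauli (a m) (b m) η) ≤ 4 / R := by
  obtain ⟨s, v, hk, hv, hp⟩ := Frames.greedy η hη R hR (2 ^ Fintype.card ι)
  have hk : 2 ^ Fintype.card ι ≤ R * s.card :=
    hk.elim (fun h => h.trans (Nat.le_mul_of_pos_left _ hR)) id
  have ho : Orthonormal ℂ ((s : Set (ι → Bool)).domRestrict v) := by
    rw [orthonormal_iff_ite]
    intro i j
    exact (hv i i.2 j j.2).trans (if_congr Subtype.ext_iff.symm rfl rfl)
  obtain ⟨c, hc⟩ := ho.exists_orthonormalBasis_extension_of_card_eq finrank_euclideanSpace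
  choose! p hp using hp
  refine ⟨⟨(EuclideanSpace.basisFun (ι → Bool) ℂ).toBasis.toMatrix c,
    OrthonormalBasis.toMatrix_orthonormalBasis_mem_unitary _ c⟩, fun m => decide (m ∈ s),
    fun m => (p m).1, fun m => (p m).2, ?_, fun m hm => ?_⟩
  · simpa using hk
  · have hm : m ∈ s := by simpa using hm
    refine le_of_eq_of_le ?_ (hp m hm)
    rw [← hc m hm, EuclideanSpace.norm_sq_eq, nsq]
    refine Finset.sum_congr rfl fun x _ => ?_
    simp [pv, Module.Basis.toMatrix_apply]

end Pool.Agent.MP_d439b8_lc.H96
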