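import Pool.Agent.MP_d439b8_lc.H96.Defs

/-!
Basic facts on circuits: linearity, unitarity, renaming of qubits.
-/

namespace Pool.Agent.MP_d439b8_lc.H96

open Function

set_option linter.unusedSectionVars false

section norm

variable {X : Type} [Fintype X] {E : Type} [NormedAddCommGroup E]

/-- The norm of a vector of amplitudes. -/
noncomputable def nrm (ψ : X → E) : ℝ := √(nsq ψ)

lemma nsq_nonneg (ψ : X → E) : 0 ≤ nsq ψ := Finset.sum_nonneg fun _ _ => sq_nonneg _

lemma nrm_nonneg (ψ : X → E) : 0 ≤ nrm ψ := Real.sqrt_nonneg _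

lemma nrm_sq (ψ : X → E) : nrm ψ ^ 2 = nsq ψ := Real.sq_sqrt (nsq_nonneg ψ)

lemma nrm_eq (ψ : X → E) : nrm ψ = ‖(WithLp.toLp 2 ψ : PiLp 2 fun _ : X => E)‖ := by
  rw [PiLp.norm_eq_of_L2, nrm, nsq]

lemma nrm_add_le (φ ψ : X → E) : nrm (φ + ψ) ≤ nrm φ + nrm ψ := by
  simp only [nrm_eq, WithLp.toLp_add]
  exact norm_add_le _ _

lemma nsq_sub_comm (φ ψ : X → E) : nsq (φ - ψ) = nsq (ψ - φ) := by
  simp only [nsq, Pi.sub_apply, norm_sub_rev]

lemma nrm_sub_comm (φ ψ : X → E) : nrm (φ - ψ) = nrm (ψ - φ) := by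
  rw [nrm, nsq_sub_comm, nrm]

lemma nrm_triangle (φ χ ψ : X → E) : nrm (φ - ψ) ≤ nrm (φ - χ) + nrm (χ - ψ) := by
  simpa using nrm_add_le (φ - χ) (χ - ψ)

lemma nrm_le_add (φ ψ : X → E) : nrm φ ≤ nrm ψ + nrm (φ - ψ) := by
  simpa using nrm_add_le ψ (φ - ψ)

lemma nrm_le_of_nsq_le {ψ : X → E} {a : ℝ} (ha : 0 ≤ a) (h : nsq ψ ≤ a ^ 2) : nrm ψ ≤ a :=
  Real.sqrt_le_iff.mpr ⟨ha, h⟩

lemma nsq_le_of_nrm_le {ψ : X → E} {a : ℝ} (h : nrm ψ ≤ a) : nsq ψ ≤ a ^ 2 :=
  nrm_sq ψ ▸ pow_le_pow_left₀ (nrm_nonneg ψ) h 2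

lemma nrm_mono {Y : Type} [Fintype Y] {E' : Type} [NormedAddCommGroup E'] {φ : X → E}
    {ψ : Y → E'} (h : nsq φ ≤ nsq ψ) : nrm φ ≤ nrm ψ := Real.sqrt_le_sqrt h

end norm

lemma sum_update {ι O : Type} [Fintype ι] [DecidableEq ι] [Fintype O] (f : (ι → O) → ℝ) (j : ι) :
    ∑ x, ∑ o, f (update x j o) = Fintype.card O * ∑ x, f x := by
  have : Involutive fun p : (ι → O) × O => (update p.1 j p.2, p.1 j) := fun p => by simp
  rw [← Fintype.sum_prod_type', ← Fintype.sum_bijective _ this.bijective _ (fun p => f p.1)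
    (fun _ => rfl) |>.symm, Fintype.sum_prod_type]
  simp [Finset.mul_sum]

variable {ι ι' : Type} [DecidableEq ι] [DecidableEq ι']

section lin

variable {E E' : Type} [AddCommGroup E] [Module ℂ E] [AddCommGroup E'] [Module ℂ E']

/-- The amplitudes of the basis states with the listed values. -/
def cut (π : List (ι × Bool)) (ψ : (ι → Bool) → E) (x : ι → Bool) : E :=
  if ∀ c ∈ π, x c.1 = c.2 then ψ x else 0

@[simp] lemma run_nil (ψ : (ι → Bool) → E) : run [] ψ = ψ := rfl

@[simp] lemma run_cons (g : Gate ι) (C : List (Gate ι)) (ψ : (ι → Bool) → E) :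
    run (g :: C) ψ = run C (app g ψ) := rfl

lemma run_append (C C' : List (Gate ι)) (ψ : (ι → Bool) → E) :
    run (C ++ C') ψ = run C' (run C ψ) := List.foldl_append

lemma app_sub (g : Gate ι) (φ ψ : (ι → Bool) → E) : app g (φ - ψ) = app g φ - app g ψ := by
  funext x
  simp only [app, Pi.sub_apply, smul_sub, Finset.sum_sub_distrib]
  split_ifs <;> rfl

lemma run_sub (C : List (Gate ι)) (φ ψ : (ι → Bool) → E) :
    run C (φ - ψ) = run C φ - run C ψ := by
  induction C generalizing φ ψ with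
  | nil => rfl
  | cons g C ih => simp only [run_cons, app_sub, ih]

lemma cut_sub (π : List (ι × Bool)) (φ ψ : (ι → Bool) → E) :
    cut π (φ - ψ) = cut π φ - cut π ψ := by
  funext x
  simp only [cut, Pi.sub_apply]
  split_ifs <;> simp

@[simp] lemma mapCirc_nil (f : ι → ι') : mapCirc f [] = [] := rfl

@[simp] lemma mapCirc_cons (f : ι → ι') (g : Gate ι) (C : List (Gate ι)) :
    mapCirc f (g :: C) = (mapPat f g.1, g.2.1, f g.2.2) :: mapCirc f C := rfl

lemma mapCirc_append (f : ι → ι') (C C' : List (Gate ι)) :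
    mapCirc f (C ++ C') = mapCirc f C ++ mapCirc f C' := List.map_append

lemma mapPat_append (f : ι → ι') (π π' : List (ι × Bool)) :
    mapPat f (π ++ π') = mapPat f π ++ mapPat f π' := List.map_append

lemma mapPat_mapPat {ι'' : Type} (f : ι → ι') (g : ι' → ι'') (π : List (ι × Bool)) :
    mapPat g (mapPat f π) = mapPat (g ∘ f) π := by
  simp [mapPat]

lemma mapCirc_mapCirc {ι'' : Type} (f : ι → ι') (g : ι' → ι'') (C : List (Gate ι)) :
    mapCirc g (mapCirc f C) = mapCirc (g ∘ f) C := by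
  simp [mapCirc, mapPat]

lemma mapPat_id (π : List (ι × Bool)) : mapPat id π = π := by simp [mapPat]

lemma mapCirc_id (C : List (Gate ι)) : mapCirc id C = C := by simp [mapCirc, mapPat]

lemma forall_mapPat (f : ι → ι') (π : List (ι × Bool)) (P : ι' × Bool → Prop) :
    (∀ c ∈ mapPat f π, P c) ↔ ∀ c ∈ π, P (f c.1, c.2) :=
  List.forall_mem_map

/-- A function of the qubits in the range of `Q`, followed by linear maps that do not depend on the
targets of the circuit. -/
lemma run_pull {Q : ι → ι'} (hQ : Injective Q) (C : List (Gate ι))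
    (L : (ι' → Bool) → E' →ₗ[ℂ] E) (hL : ∀ g ∈ C, ∀ x b, L (update x (Q g.2.2) b) = L x)
    (χ : (ι → Bool) → E') :
    run (mapCirc Q C) (fun x => L x (χ (x ∘ Q))) = fun x => L x (run C χ (x ∘ Q)) := by
  induction C generalizing χ with
  | nil => rfl
  | cons g C ih =>
    rw [mapCirc_cons, run_cons, run_cons, ← ih fun g hg => hL g (List.mem_cons_of_mem _ hg)]
    congr 1
    funext x
    simp only [app, forall_mapPat, hQ.eq_iff, hL g List.mem_cons_self, comp_apply,
      update_comp_eq_of_injective _ hQ]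
    split_ifs <;> simp

lemma run_linear (C : List (Gate ι)) (L : (ι → Bool) → E' →ₗ[ℂ] E)
    (hL : ∀ g ∈ C, ∀ x b, L (update x g.2.2 b) = L x) (χ : (ι → Bool) → E') :
    run C (fun x => L x (χ x)) = fun x => L x (run C χ x) := by
  simpa [mapCirc_id] using run_pull injective_id C L hL χ

/-- Fixing the qubits outside the range of `Q`. -/
lemma run_emb {Q : ι → ι'} (hQ : Injective Q) (C : List (Gate ι))
    (e : (ι → Bool) → ι' → Bool) (h1 : ∀ α i, e α (Q i) = α i)
    (h2 : ∀ α i b, e (update α i b) = update (e α) (Q i) b) (F : (ι' → Bool) → E) :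
    (fun α => run (mapCirc Q C) F (e α)) = run C fun α => F (e α) := by
  induction C generalizing F with
  | nil => rfl
  | cons g C ih =>
    rw [mapCirc_cons, run_cons, run_cons, ih]
    congr 1
    funext x
    simp only [app, forall_mapPat, hQ.eq_iff, h1, h2]

end lin

variable [Fintype ι] {E : Type} [NormedAddCommGroup E] [InnerProductSpace ℂ E]

lemma op_unitary (k : ℕ) (f : Bool → E) :
    ∑ a, ‖∑ b, op k a b • f b‖ ^ 2 = ∑ b, ‖f b‖ ^ 2 := by
  match k with
  | 0 => simp [op, add_comm]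
  | 1 =>
    have h := parallelogram_law_with_norm ℂ (f false) (f true)
    have e1 : op 1 true true • f true + op 1 true false • f false =
        ((√2 : ℝ) : ℂ)⁻¹ • (f false - f true) := by
      simp [op, div_eq_mul_inv, smul_sub, sub_eq_neg_add]
    have e2 : op 1 false true • f true + op 1 false false • f false =
        ((√2 : ℝ) : ℂ)⁻¹ • (f false + f true) := by
      simp [op, add_comm]
    simp only [Fintype.sum_bool, e1, e2, norm_smul, mul_pow, norm_inv, inv_pow, Complex.norm_real,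
      Real.norm_eq_abs, sq_abs, Real.sq_sqrt zero_le_two]
    nlinarith
  | 2 =>
    simp only [Fintype.sum_bool, op]
    simp [norm_smul, -Complex.ofReal_div, Complex.norm_exp_ofReal_mul_I]
  | k + 3 => simp [op]

lemma nsq_app (g : Gate ι) (ψ : (ι → Bool) → E) : nsq (app g ψ) = nsq ψ := by
  have h1 := sum_update (fun x => ‖app g ψ x‖ ^ 2) g.2.2
  have h2 := sum_update (fun x => ‖ψ x‖ ^ 2) g.2.2
  have : ∀ x, ∑ o, ‖app g ψ (update x g.2.2 o)‖ ^ 2 = ∑ o, ‖ψ (update x g.2.2 o)‖ ^ 2 := by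
    intro x
    have hc : ∀ o, (∀ c ∈ g.1, c.1 = g.2.2 ∨ update x g.2.2 o c.1 = c.2) ↔
        ∀ c ∈ g.1, c.1 = g.2.2 ∨ x c.1 = c.2 := fun o =>
      forall₂_congr fun c _ => by
        by_cases h : c.1 = g.2.2 <;> simp [h]
    simp only [app, hc, update_self, update_idem]
    split_ifs
    · exact op_unitary _ _
    · rfl
  simp only [this, h2, Fintype.card_bool, Nat.cast_ofNat] at h1
  simp only [nsq]
  linarith

lemma nsq_run (C : List (Gate ι)) (ψ : (ι → Bool) → E) : nsq (run C ψ) = nsq ψ := by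
  induction C generalizing ψ with
  | nil => rfl
  | cons g C ih => rw [run_cons, ih, nsq_app]

/-- The weight of the rejected outcomes. -/
noncomputable def rej (C : List (Gate ι)) (π : List (ι × Bool)) (ψ : (ι → Bool) → E) : ℝ :=
  nsq (cut π (run C ψ))

lemma rej_eq (C : List (Gate ι)) (π : List (ι × Bool)) (ψ : (ι → Bool) → E) :
    rej C π ψ = ∑ x, if ∀ c ∈ π, x c.1 = c.2 then ‖run C ψ x‖ ^ 2 else 0 := by
  refine Finset.sum_congr rfl fun x _ => ?_
  simp only [cut]
  split_ifs <;> simp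

lemma rej_nonneg (C : List (Gate ι)) (π : List (ι × Bool)) (ψ : (ι → Bool) → E) :
    0 ≤ rej C π ψ := nsq_nonneg _

lemma rej_le (C : List (Gate ι)) (π : List (ι × Bool)) (ψ : (ι → Bool) → E) :
    rej C π ψ ≤ nsq ψ := by
  rw [rej_eq, ← nsq_run C ψ]
  exact Finset.sum_le_sum fun x _ => by split_ifs <;> simp

lemma sqrt_rej_le (C : List (Gate ι)) (π : List (ι × Bool)) (φ ψ : (ι → Bool) → E) :
    √(rej C π φ) ≤ √(rej C π ψ) + nrm (φ - ψ) := by
  refine (nrm_le_add _ (cut π (run C ψ))).trans (add_le_add le_rfl (nrm_mono ?_))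
  rw [← cut_sub, ← run_sub]
  exact rej_le C π _

lemma sq_le_add_three {a r d : ℝ} (ha : 0 ≤ a) (hr : 0 ≤ r) (hr1 : r ≤ 1) (hd : 0 ≤ d)
    (hd1 : d ≤ 1) (h : √a ≤ √r + d) : a ≤ r + 3 * d := by
  have h1 : √r ≤ 1 := Real.sqrt_le_one.mpr hr1
  have h2 := Real.sq_sqrt ha
  have h3 := Real.sq_sqrt hr
  have h4 := Real.sqrt_nonneg a
  have h5 := Real.sqrt_nonneg r
  nlinarith

end Pool.Agent.MP_d439b8_lc.H96
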