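import Pool.Agent.MP_d439b8_lc.H96.Quest

/-!
The honest strategy: a maximally entangled state, an orthonormal basis and labels.
-/

namespace Pool.Agent.MP_d439b8_lc.H96

open Function Matrix

/-- Permuting the rows of a unitary. -/
noncomputable def hPerm {I : Type} [Fintype I] [DecidableEq I] (W : Matrix.unitaryGroup I ℂ)
    (σ : I → I) (hσ : Involutive σ) : Matrix.unitaryGroup I ℂ :=
  ⟨W.1.submatrix σ id, by
    rw [Matrix.mem_unitaryGroup_iff, star_eq_conjTranspose, conjTranspose_submatrix]
    have := Matrix.submatrix_mul_equiv W.1 W.1ᴴ σ (Equiv.refl I) σ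
    simp only [Equiv.coe_refl] at this
    rw [this, ← star_eq_conjTranspose, W.2.2]
    exact Matrix.submatrix_one_equiv hσ.toPerm⟩

/-- The entrywise conjugate of a unitary. -/
noncomputable def hConj {I : Type} [Fintype I] [DecidableEq I] (W : Matrix.unitaryGroup I ℂ) :
    Matrix.unitaryGroup I ℂ :=
  ⟨(star W.1)ᵀ, by
    have e : star (star W.1)ᵀ = W.1ᵀ := by
      ext i j; simp
    rw [Matrix.mem_unitaryGroup_iff, e, ← transpose_mul, W.2.2, transpose_one]⟩

lemma extend_update {ι ι' : Type} [DecidableEq ι] [DecidableEq ι'] {q : ι → ι'}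
    (hq : Injective q) (α : ι → Bool) (u : ι' → Bool) (i : ι) (b : Bool) :
    extend q (update α i b) u = update (extend q α u) (q i) b := by
  funext j
  by_cases h : ∃ k, q k = j
  · obtain ⟨k, rfl⟩ := h
    by_cases hk : k = i
    · subst hk; simp [hq.extend_apply]
    · rw [hq.extend_apply, update_of_ne hk, update_of_ne (hq.ne hk), hq.extend_apply]
  · rw [extend_apply' _ _ _ h, update_of_ne (fun e => h ⟨i, e.symm⟩), extend_apply' _ _ _ h]

lemma extend_extend {ι ι' : Type} {q : ι → ι'} (hq : Injective q) (α β : ι → Bool)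
    (u : ι' → Bool) : extend q α (extend q β u) = extend q α u := by
  funext j
  by_cases h : ∃ k, q k = j
  · obtain ⟨k, rfl⟩ := h
    rw [hq.extend_apply, hq.extend_apply]
  · rw [extend_apply' _ _ _ h, extend_apply' _ _ _ h, extend_apply' _ _ _ h]

lemma extend_self {ι ι' : Type} {q : ι → ι'} (hq : Injective q) (u : ι' → Bool) :
    extend q (u ∘ q) u = u := by
  funext j
  by_cases h : ∃ k, q k = j
  · obtain ⟨k, rfl⟩ := h
    rw [hq.extend_apply, Function.comp_apply]
  · rw [extend_apply' _ _ _ h]

lemma swap_involutive {ι ι' : Type} {q : ι → ι'} (hq : Injective q) :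
    Involutive fun p : (ι → Bool) × (ι' → Bool) => (p.2 ∘ q, extend q p.1 p.2) := by
  intro p
  simp only [extend_comp hq, extend_extend hq, extend_self hq]

lemma sum_extend {ι ι' : Type} [Fintype ι] [DecidableEq ι] [Fintype ι'] [DecidableEq ι']
    {q : ι → ι'} (hq : Injective q) (g : (ι' → Bool) → ℝ) :
    ∑ x, g x = ∑ x0, if x0 ∘ q = (fun _ => false) then ∑ z, g (extend q z x0) else 0 := by
  have h := Fintype.sum_bijective _ (swap_involutive hq).bijective
    (fun p => if p.2 ∘ q = (fun _ => false) then g (extend q p.1 p.2) else 0)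
    (fun p => if p.1 = (fun _ => false) then g p.2 else 0) (fun _ => rfl)
  rw [Fintype.sum_prod_type, Fintype.sum_prod_type, Finset.sum_comm] at h
  have h2 : ∑ z : ι → Bool, ∑ x, (if z = (fun _ => false) then g x else 0) = ∑ x, g x := by
    rw [Finset.sum_eq_single (fun _ => false)] <;> simp +contextual
  rw [← h2, ← h]
  refine Finset.sum_congr rfl fun x0 _ => ?_
  split_ifs <;> simp

lemma xor_involutive {X : Type} (k : X → Ans) :
    Involutive fun p : Ans × X => ((fun i => xor (p.1 i) (k p.2 i), p.2) : Ans × X) := by
  intro p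
  ext i <;> simp

lemma rej_smul {ι : Type} [DecidableEq ι] [Fintype ι] (C : List (Gate ι)) (π : List (ι × Bool))
    (c : ℂ) (φ : (ι → Bool) → ℂ) : rej C π (fun x => c * φ x) = ‖c‖ ^ 2 * rej C π φ := by
  have h := run_linear C (fun _ => c • (LinearMap.id : ℂ →ₗ[ℂ] ℂ)) (fun _ _ _ _ => rfl) φ
  simp only [LinearMap.smul_apply, LinearMap.id_apply, smul_eq_mul] at h
  rw [rej_eq, rej_eq, h, Finset.mul_sum]
  refine Finset.sum_congr rfl fun x _ => ?_
  split_ifs <;> simp [mul_pow]

lemma rej_emb {ι ι' : Type} [Fintype ι] [DecidableEq ι] [Fintype ι'] [DecidableEq ι']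
    {q : ι → ι'} (hq : Injective q) (C : List (Gate ι)) (π : List (ι × Bool))
    (F : (ι' → Bool) → ℂ) :
    rej (mapCirc q C) (mapPat q π) F = ∑ x0, if x0 ∘ q = (fun _ => false) then
      rej C π (fun z => F (extend q z x0)) else 0 := by
  rw [rej_eq, sum_extend hq]
  refine Finset.sum_congr rfl fun x0 _ => ?_
  split_ifs
  · rw [rej_eq, ← run_emb hq C (fun z => extend q z x0) (fun α i => hq.extend_apply _ _ _)
      (fun α i b => extend_update hq α x0 i b)]
    refine Finset.sum_congr rfl fun z _ => ?_
    simp only [forall_mapPat, hq.extend_apply]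
  · rfl

section strat

variable {N M : ℕ}

/-- The amplitude of the maximally entangled state. -/
noncomputable def hC (N : ℕ) : ℂ := ((√(2 ^ N))⁻¹ : ℝ)

lemma norm_hC (N : ℕ) : ‖hC N‖ ^ 2 = (2 ^ N)⁻¹ := by
  rw [hC, Complex.norm_real, Real.norm_eq_abs, sq_abs, inv_pow, Real.sq_sqrt (by positivity)]

/-- The shared state. -/
noncomputable def hPsi (N : ℕ) (z : (Ans × (Fin N → Bool)) × (Ans × (Fin N → Bool))) : ℂ :=
  if z.1.1 = (fun _ => false) ∧ z.2 = (fun _ => false, z.1.2) then hC N else 0

lemma sum_hPsi {R : Type} [AddCommMonoid R]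
    (f : (Ans × (Fin N → Bool)) × (Ans × (Fin N → Bool)) → R) :
    ∑ z, (if z.1.1 = (fun _ => false) ∧ z.2 = (fun _ => false, z.1.2) then f z else 0) =
      ∑ m, f ((fun _ => false, m), (fun _ => false, m)) := by
  rw [Fintype.sum_prod_type, Fintype.sum_prod_type, Finset.sum_eq_single (fun _ => false)]
  · simp
  · intro b _ hb
    simp [hb]
  · simp

lemma nsq_hPsi (N : ℕ) : nsq (hPsi N) = 1 := by
  have : nsq (hPsi N) = ∑ z : (Ans × (Fin N → Bool)) × (Ans × (Fin N → Bool)),
      (if z.1.1 = (fun _ => false) ∧ z.2 = (fun _ => false, z.1.2) then ((2 : ℝ) ^ N)⁻¹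
        else 0) := by
    refine Finset.sum_congr rfl fun z _ => ?_
    rw [hPsi]
    split_ifs
    · exact norm_hC N
    · simp
  rw [this, sum_hPsi (fun _ => ((2 : ℝ) ^ N)⁻¹)]
  simp

/-- The unitary of a player. -/
noncomputable def hU (W : Matrix.unitaryGroup (Fin N → Bool) ℂ)
    (κ : (Fin N → Bool) → Fin M → Bool) : Qn N M → Matrix.unitaryGroup (Ans × (Fin N → Bool)) ℂ
  | .inl q => hPerm ⟨_, Matrix.kronecker_mem_unitary (1 : Matrix.unitaryGroup Ans ℂ).2 W.2⟩ _
      (swap_involutive q.injective)
  | .inr q => hPerm 1 _ (xor_involutive fun m => κ m ∘ q)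

lemma hU_inl (W : Matrix.unitaryGroup (Fin N → Bool) ℂ) (κ : (Fin N → Bool) → Fin M → Bool)
    (q : Fin 11 ↪ Fin N) (α : Ans) (u m : Fin N → Bool) :
    (hU W κ (.inl q)).1 (α, u) (fun _ => false, m) =
      if u ∘ q = (fun _ => false) then W.1 (extend q α u) m else 0 := by
  simp [hU, hPerm, Matrix.one_apply]

lemma hU_inr (W : Matrix.unitaryGroup (Fin N → Bool) ℂ) (κ : (Fin N → Bool) → Fin M → Bool)
    (q : Fin 11 ↪ Fin M) (α : Ans) (u m : Fin N → Bool) :
    (hU W κ (.inr q)).1 (α, u) (fun _ => false, m) =
      if u = m then (if α = κ u ∘ q then 1 else 0) else 0 := by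
  have : ((fun i => xor (α i) (κ u (q i))) = fun _ => false) ↔ α = κ u ∘ q := by
    simp only [funext_iff, Function.comp_apply]
    refine forall_congr' fun i => ?_
    cases α i <;> cases κ u (q i) <;> simp
  simp only [hU, hPerm, OneMemClass.coe_one, submatrix_apply, id_eq, Matrix.one_apply,
    Prod.mk.injEq, Function.comp_apply, this]
  by_cases h1 : u = m <;> by_cases h2 : α = κ u ∘ q <;> simp [h1, h2]

/-- The honest strategy. -/
noncomputable def hS (B : Matrix.unitaryGroup (Fin N → Bool) ℂ)
    (κ : (Fin N → Bool) → Fin M → Bool) (dA dB : ℕ → Qn N M) : Strategy where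
  DA := Fin N → Bool
  DB := Fin N → Bool
  ψ := hPsi N
  unit := nsq_hPsi N
  U := fun a => hU B κ (dA a)
  V := fun b => hU (hConj B) κ (dB b)

lemma hS_out (B : Matrix.unitaryGroup (Fin N → Bool) ℂ)
    (κ : (Fin N → Bool) → Fin M → Bool) (dA dB : ℕ → Qn N M) (a b : ℕ) (u v : Fin N → Bool)
    (x : Fin (11 + 11) → Bool) :
    (hS B κ dA dB).out a b u v x = hC N * ∑ m,
      (hU B κ (dA a)).1 (fun i => x (Fin.castAdd 11 i), u) (fun _ => false, m) *
      (hU (hConj B) κ (dB b)).1 (fun i => x (Fin.natAdd 11 i), v) (fun _ => false, m) := by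
  rw [Finset.mul_sum, ← sum_hPsi (fun z => hC N *
    ((hU B κ (dA a)).1 (fun i => x (Fin.castAdd 11 i), u) z.1 *
      (hU (hConj B) κ (dB b)).1 (fun i => x (Fin.natAdd 11 i), v) z.2))]
  refine Finset.sum_congr rfl
    fun (z : (Ans × (Fin N → Bool)) × (Ans × (Fin N → Bool))) _ => ?_
  change _ * (if z.1.1 = (fun _ => false) ∧ z.2 = (fun _ => false, z.1.2) then hC N else 0) = _
  split_ifs
  · rw [mul_comm]; rfl
  · simp

lemma extend_joint_inl (q : Fin 11 ↪ Fin N) (q' : Fin 11 ↪ Fin M) (z : Fin (11 + 11) → Bool)
    (x0 : Fin N ⊕ Fin M → Bool) :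
    (fun i => extend (joint q q') z x0 (.inl i)) =
      extend q (fun i => z (Fin.castAdd 11 i)) fun i => x0 (.inl i) := by
  funext j
  by_cases h : ∃ k, q k = j
  · obtain ⟨k, rfl⟩ := h
    have : (Sum.inl (q k) : Fin N ⊕ Fin M) = joint q q' (Fin.castAdd 11 k) := by
      simp only [joint, Fin.append_left]
    rw [q.injective.extend_apply, this, (joint_injective q q').extend_apply]
  · rw [extend_apply' _ _ _ h, extend_apply']
    rintro ⟨k, hk⟩
    induction k using Fin.addCases with
    | left k =>
      simp only [joint, Fin.append_left] at hk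
      exact h ⟨k, Sum.inl_injective hk⟩
    | right k =>
      simp only [joint, Fin.append_right] at hk
      exact Sum.inr_ne_inl hk

lemma extend_joint_inr (q : Fin 11 ↪ Fin N) (q' : Fin 11 ↪ Fin M) (z : Fin (11 + 11) → Bool)
    (x0 : Fin N ⊕ Fin M → Bool) :
    (fun i => extend (joint q q') z x0 (.inr i)) =
      extend q' (fun i => z (Fin.natAdd 11 i)) fun i => x0 (.inr i) := by
  funext j
  by_cases h : ∃ k, q' k = j
  · obtain ⟨k, rfl⟩ := h
    have : (Sum.inr (q' k) : Fin N ⊕ Fin M) = joint q q' (Fin.natAdd 11 k) := by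
      simp only [joint, Fin.append_right]
    rw [q'.injective.extend_apply, this, (joint_injective q q').extend_apply]
  · rw [extend_apply' _ _ _ h, extend_apply']
    rintro ⟨k, hk⟩
    induction k using Fin.addCases with
    | left k =>
      simp only [joint, Fin.append_left] at hk
      exact Sum.inl_ne_inr hk
    | right k =>
      simp only [joint, Fin.append_right] at hk
      exact h ⟨k, Sum.inr_injective hk⟩

lemma comp_joint (q : Fin 11 ↪ Fin N) (q' : Fin 11 ↪ Fin M) (u : Fin N → Bool)
    (w : Fin M → Bool) :
    (Sum.elim u w ∘ joint q q' = fun _ => false) ↔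
      (u ∘ q = fun _ => false) ∧ (w ∘ q' = fun _ => false) := by
  simp only [funext_iff, Function.comp_apply]
  rw [Fin.forall_fin_add]
  simp only [joint, Fin.append_left, Fin.append_right, Sum.elim_inl, Sum.elim_inr]

lemma rej_label (q : Fin 11 ↪ Fin N) (q' : Fin 11 ↪ Fin M) (C : List (Gate (Fin (11 + 11))))
    (π : List (Fin (11 + 11) × Bool)) (φ : (Fin N → Bool) → ℂ) (k : Fin M → Bool) :
    rej (mapCirc (joint q q') C) (mapPat (joint q q') π) (label φ k) =
      ∑ u : Fin N → Bool, rej C π fun z => (if u ∘ q = (fun _ => false) then 1 else 0) *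
        ((if (fun i => z (Fin.natAdd 11 i)) = k ∘ q' then 1 else 0) *
          φ (extend q (fun i => z (Fin.castAdd 11 i)) u)) := by
  rw [rej_emb (joint_injective q q'),
    ← (Equiv.sumArrowEquivProdArrow (Fin N) (Fin M) Bool).symm.sum_comp, Fintype.sum_prod_type]
  refine Finset.sum_congr rfl fun u _ => ?_
  have e : ∀ w, (Equiv.sumArrowEquivProdArrow (Fin N) (Fin M) Bool).symm (u, w) =
      Sum.elim u w := fun w => rfl
  simp only [e, comp_joint, label, extend_joint_inl, extend_joint_inr, Sum.elim_inl,
    Sum.elim_inr]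
  rw [rej_smul]
  by_cases hu : u ∘ q = fun _ => false
  · rw [Finset.sum_eq_single (extend q' (fun _ => false) k)]
    · rw [if_pos ⟨hu, extend_comp q'.injective _ _⟩, if_pos hu, norm_one, one_pow, one_mul]
      congr 1
      funext z
      have : extend q' (fun i => z (Fin.natAdd 11 i)) (extend q' (fun _ => false) k) = k ↔
          (fun i => z (Fin.natAdd 11 i)) = k ∘ q' := by
        rw [extend_extend q'.injective]
        constructor
        · intro h
          rw [← h, extend_comp q'.injective]
        · intro h
          rw [h, extend_self q'.injective]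
      simp only [this]
      split_ifs <;> simp
    · intro w _ hw
      split_ifs with h
      · have : (fun z : Fin (11 + 11) → Bool =>
            if extend q' (fun i => z (Fin.natAdd 11 i)) w = k then
              φ (extend q (fun i => z (Fin.castAdd 11 i)) u) else 0) = fun _ => 0 * 0 := by
          funext z
          rw [if_neg, mul_zero]
          intro h'
          apply hw
          rw [← h', extend_extend q'.injective, ← h.2, extend_self q'.injective]
        rw [this, rej_smul]
        simp
      · rfl
    · simp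
  · simp [hu]

end strat

theorem honest {N M : ℕ} (B : Matrix.unitaryGroup (Fin N → Bool) ℂ)
    (κ : (Fin N → Bool) → Fin M → Bool) (dA dB : ℕ → Qn N M) : ∃ S : Strategy,
    (∀ (t : Test) q q', dA t.2.1 = .inl q → dB t.2.2.1 = .inr q' → 1 - S.acc t =
      (∑ m, rej (mapCirc (joint q q' ∘ Fin.ofNat (11 + 11)) t.2.2.2.1)
        (mapPat (joint q q' ∘ Fin.ofNat (11 + 11)) t.2.2.2.2)
        (label (fun x => B.1 x m) (κ m))) / 2 ^ N) ∧
    (∀ w a b q q' (l l' : Fin 11) v, dA a = .inl q → dB b = .inl q' → q l = q' l' →
      S.acc (zt w a b l l' v) = 1 ∧ S.acc (xt w a b l l' v) = 1) ∧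
    ∀ w a b q q' (l l' : Fin 11) v, dA a = .inr q → dB b = .inr q' → q l = q' l' →
      S.acc (zt w a b l l' v) = 1 := by
  have hzt : ∀ w a b (l l' : Fin 11) v, (∀ (u u' : Fin N → Bool) x,
      x (Fin.castAdd 11 l) ≠ x (Fin.natAdd 11 l') → (hS B κ dA dB).out a b u u' x = 0) →
      (hS B κ dA dB).acc (zt w a b l l' v) = 1 := by
    intro w a b l l' v h
    have := (hS B κ dA dB).one_sub_acc (zt w a b l l' v)
    rw [Finset.sum_eq_zero] at this
    · linarith
    refine fun u _ => Finset.sum_eq_zero fun u' _ => ?_
    rw [rej_eq]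
    refine Finset.sum_eq_zero fun x _ => ?_
    split_ifs with hx
    · simp only [zt, mapPat, List.map_cons, List.map_nil, ofNat_left, ofNat_right,
        List.forall_mem_cons] at hx
      have : (hS B κ dA dB).out a b u u' x = 0 := h u u' x (by
        rw [hx.1, hx.2.1]; cases v <;> simp)
      simp [zt, this]
    · rfl
  refine ⟨hS B κ dA dB, fun t q q' hq hq' => ?_, fun w a b q q' l l' v hq hq' hl => ?_,
    fun w a b q q' l l' v hq hq' hl => ?_⟩
  · rw [Strategy.one_sub_acc, ← mapCirc_mapCirc, ← mapPat_mapPat]
    simp only [rej_label]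
    rw [Finset.sum_comm, Finset.sum_div]
    refine Finset.sum_congr rfl fun (m : Fin N → Bool) _ => ?_
    rw [Finset.sum_div]
    refine Finset.sum_congr rfl fun (u : Fin N → Bool) _ => ?_
    rw [div_eq_inv_mul, ← norm_hC, ← rej_smul]
    congr 1
    funext z
    refine (hS_out B κ dA dB _ _ u m z).trans ?_
    rw [hq, hq']
    simp only [hU_inl, hU_inr]
    congr 1
    rw [Finset.sum_eq_single m]
    · split_ifs <;> simp_all
    · intro m' _ hm
      rw [if_neg (Ne.symm hm), mul_zero]
    · simp
  · have hout : ∀ (u u' : Fin N → Bool) x, (hS B κ dA dB).out a b u u' x =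
        if (u ∘ q = fun _ => false) ∧ (u' ∘ q' = fun _ => false) ∧
          extend q (fun i => x (Fin.castAdd 11 i)) u =
            extend q' (fun i => x (Fin.natAdd 11 i)) u' then hC N else 0 := by
      intro u u' x
      rw [hS_out, hq, hq']
      simp only [hU_inl]
      by_cases h1 : u ∘ q = fun _ => false
      · by_cases h2 : u' ∘ q' = fun _ => false
        · have := congrFun (congrFun B.2.2 (extend q (fun i => x (Fin.castAdd 11 i)) u))
            (extend q' (fun i => x (Fin.natAdd 11 i)) u')
          rw [Matrix.mul_apply, Matrix.one_apply] at this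
          simp only [h1, h2, if_true, true_and]
          have e : ∀ y m, (hConj B).1 y m = star B.1 m y := fun _ _ => rfl
          simp only [e, this]
          split_ifs <;> simp
        · simp [h2]
      · simp [h1]
    refine ⟨hzt w a b l l' v fun u u' x hx => ?_, ?_⟩
    · rw [hout, if_neg]
      rintro ⟨-, -, h⟩
      have := congrFun h (q l)
      rw [q.injective.extend_apply, hl, q'.injective.extend_apply] at this
      exact hx this
    · have := (hS B κ dA dB).one_sub_acc (xt w a b l l' v)
      rw [Finset.sum_eq_zero] at this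
      · linarith
      refine fun (u : Fin N → Bool) _ => Finset.sum_eq_zero fun (u' : Fin N → Bool) _ => ?_
      rw [rej_eq]
      refine Finset.sum_eq_zero fun x _ => ?_
      split_ifs with hx
      · simp only [xt, mapPat, List.map_cons, List.map_nil, ofNat_left, ofNat_right,
          List.forall_mem_cons] at hx
        have hne : Fin.castAdd 11 l ≠ Fin.natAdd 11 l' := fun e => by
          have := congrArg Fin.val e
          simp only [Fin.val_castAdd, Fin.val_natAdd] at this
          omega
        have hup : ∀ c c', (hS B κ dA dB).out a b u u'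
            (update (update x (Fin.natAdd 11 l') c') (Fin.castAdd 11 l) c) =
            if c = c' then (if (u ∘ q = fun _ => false) ∧ (u' ∘ q' = fun _ => false) ∧
              update (extend q (fun i => x (Fin.castAdd 11 i)) u) (q l) false =
              update (extend q' (fun i => x (Fin.natAdd 11 i)) u') (q l) false then hC N
              else 0) else 0 := by
          intro c c'
          rw [hout]
          have e1 : (fun i => update (update x (Fin.natAdd 11 l') c') (Fin.castAdd 11 l) c
              (Fin.castAdd 11 i)) = update (fun i => x (Fin.castAdd 11 i)) l c := by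
            funext i
            have hi : Fin.castAdd 11 i ≠ Fin.natAdd 11 l' := fun e => by
              have := congrArg Fin.val e
              simp only [Fin.val_castAdd, Fin.val_natAdd] at this
              omega
            by_cases h : i = l
            · subst h; simp
            · rw [update_of_ne ((Fin.castAdd_injective _ _).ne h), update_of_ne hi,
                update_of_ne h]
          have e2 : (fun i => update (update x (Fin.natAdd 11 l') c') (Fin.castAdd 11 l) c
              (Fin.natAdd 11 i)) = update (fun i => x (Fin.natAdd 11 i)) l' c' := by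
            funext i
            have hi : Fin.natAdd 11 i ≠ Fin.castAdd 11 l := fun e => by
              have := congrArg Fin.val e
              simp only [Fin.val_castAdd, Fin.val_natAdd] at this
              omega
            rw [update_of_ne hi]
            by_cases h : i = l'
            · subst h; simp
            · rw [update_of_ne ((Fin.natAdd_injective _ _).ne h), update_of_ne h]
          rw [e1, e2, extend_update q.injective, extend_update q'.injective, ← hl]
          have e3 : ∀ f g : Fin N → Bool, update f (q l) c = update g (q l) c' ↔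
              c = c' ∧ update f (q l) false = update g (q l) false := by
            intro f g
            constructor
            · intro h
              refine ⟨by simpa using congrFun h (q l), ?_⟩
              simpa using congrArg (fun f => update f (q l) false) h
            · rintro ⟨rfl, h⟩
              simpa using congrArg (fun f => update f (q l) c) h
          simp only [e3]
          by_cases hb : c = c' <;> simp [hb]
        have : run (mapCirc (Fin.ofNat (11 + 11)) (xt w a b l l' v).2.2.2.1)
            ((hS B κ dA dB).out (xt w a b l l' v).2.1 (xt w a b l l' v).2.2.1 u u') x = 0 := by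
          simp only [xt, mapCirc_cons, mapCirc_nil, mapPat, List.map_nil, ofNat_left, ofNat_right,
            run_cons, run_nil, app, List.not_mem_nil, false_imp_iff, implies_true, if_true, hup,
            update_of_ne hne, hx.1, hx.2.1]
          cases v <;> simp [op] <;> intros <;> ring
        rw [this]; simp
      · rfl
  · refine hzt w a b l l' v fun u u' x hx => ?_
    rw [hS_out, hq, hq']
    simp only [hU_inr]
    rw [Finset.sum_eq_zero, mul_zero]
    intro m _
    split_ifs with h1 h2 h3 h4 <;> try simp
    apply hx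
    rw [congrFun h2 l, congrFun h4 l', h1, h3, Function.comp_apply, Function.comp_apply, hl]

end Pool.Agent.MP_d439b8_lc.H96
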