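import Pool.Agent.MP_d439b8_lc.H96.Gates

/-!
The abstract estimate behind the soundness of the circuit to Hamiltonian construction.
-/

namespace Pool.Agent.MP_d439b8_lc.H96

open Function Finset

set_option linter.unusedSectionVars false

lemma sum_map_range (f : ℕ → ℝ) (n : ℕ) :
    ((List.range n).map f).sum = ∑ i ∈ range n, f i := by
  induction n with
  | zero => simp
  | succ n ih => simp [List.range_succ, Finset.sum_range_succ, ih]

lemma sum_inj_le {A X : Type} [Fintype A] [Fintype X] (e : A → X) (he : Injective e)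
    (f : X → ℝ) (hf : ∀ x, 0 ≤ f x) : ∑ a, f (e a) ≤ ∑ x, f x := by
  classical
  rw [← Finset.sum_image (s := univ) (g := e) (f := f) fun a _ b _ h => he h]
  exact Finset.sum_le_sum_of_subset_of_nonneg (subset_univ _) fun x _ _ => hf x

lemma sum_le_of_cover {A X : Type} [Fintype A] [Fintype X] (e : A → X) (f : X → ℝ)
    (hf : ∀ x, 0 ≤ f x) (p : X → Prop) [DecidablePred p] (hp : ∀ x, p x → ∃ a, e a = x) :
    ∑ x, (if p x then f x else 0) ≤ ∑ a, f (e a) := by
  classical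
  calc ∑ x, (if p x then f x else 0) ≤ ∑ x, ∑ a, (if e a = x then f x else 0) := by
        refine Finset.sum_le_sum fun x _ => ?_
        have h0 : ∀ a ∈ (univ : Finset A), 0 ≤ (if e a = x then f x else 0) := fun a _ => by
          split_ifs
          · exact hf x
          · exact le_rfl
        split_ifs with h
        · obtain ⟨a, ha⟩ := hp x h
          simpa [ha] using Finset.single_le_sum h0 (mem_univ a)
        · exact Finset.sum_nonneg h0
    _ = ∑ a, f (e a) := by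
        rw [Finset.sum_comm]
        simp

variable {ι : Type} [DecidableEq ι] [Fintype ι]

lemma nrm_app (g : Gate ι) (ψ : (ι → Bool) → ℂ) : nrm (app g ψ) = nrm ψ := by
  rw [nrm, nsq_app, nrm]

lemma nrm_run (C : List (Gate ι)) (ψ : (ι → Bool) → ℂ) : nrm (run C ψ) = nrm ψ := by
  rw [nrm, nsq_run, nrm]

lemma run_chain (G : ℕ → Gate ι) (ψ : ℕ → (ι → Bool) → ℂ) (d : ℝ) (t : ℕ)
    (h : ∀ s < t, nrm (app (G s) (ψ s) - ψ (s + 1)) ≤ d) :
    nrm (ψ t - run ((List.range t).map G) (ψ 0)) ≤ t * d := by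
  induction t with
  | zero => simp [nrm, nsq]
  | succ t ih =>
    have h1 := ih fun s hs => h s (by omega)
    have h2 := h t (by omega)
    rw [List.range_succ, List.map_append, run_append]
    have h3 := nrm_triangle (ψ (t + 1)) (app (G t) (ψ t))
      (run (List.map G [t]) (run ((List.range t).map G) (ψ 0)))
    have h4 : nrm (app (G t) (ψ t) - run (List.map G [t]) (run ((List.range t).map G) (ψ 0))) =
        nrm (ψ t - run ((List.range t).map G) (ψ 0)) := by
      rw [← nrm_app (G t) (ψ t - _), app_sub]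
      rfl
    rw [nrm_sub_comm] at h2
    push_cast
    linarith

lemma real_aux {a ρ δ β : ℝ} (h : a ≤ (5 / 4 * ρ + 9 / 4 * (δ + β)) ^ 2) :
    a ≤ 2 * ρ ^ 2 + 112 * (δ ^ 2 + β ^ 2) := by
  nlinarith [sq_nonneg (ρ - 18 * (δ + β)), sq_nonneg (δ - β), sq_nonneg ρ]

lemma history (G : ℕ → Gate ι) (ψ : ℕ → (ι → Bool) → ℂ) (T : ℕ) (π : List (ι × Bool))
    (χ : (ι → Bool) → ℂ) (hχ : 2 / 3 * nsq χ ≤ rej ((List.range T).map G) π χ) :
    ∑ t ∈ range (T + 1), nsq (ψ t) ≤ 2 * (T + 1) * rej [] π (ψ T) + 112 * (T + 1) *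
      (T ^ 2 * ∑ s ∈ range T, nsq (app (G s) (ψ s) - ψ (s + 1)) + nsq (ψ 0 - χ)) := by
  obtain ⟨P, hP⟩ : ∃ P, P = ∑ s ∈ range T, nsq (app (G s) (ψ s) - ψ (s + 1)) := ⟨_, rfl⟩
  have hP0 : 0 ≤ P := hP ▸ Finset.sum_nonneg fun _ _ => nsq_nonneg _
  have hd : ∀ s < T, nrm (app (G s) (ψ s) - ψ (s + 1)) ≤ √P := fun s hs =>
    Real.sqrt_le_sqrt (hP ▸ Finset.single_le_sum
      (f := fun s => nsq (app (G s) (ψ s) - ψ (s + 1)))
      (fun _ _ => nsq_nonneg _) (mem_range.mpr hs))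
  rw [← hP]
  have hs := Real.sqrt_nonneg P
  have hch : ∀ t ≤ T, nrm (ψ t - run ((List.range t).map G) (ψ 0)) ≤ T * √P := fun t ht =>
    (run_chain G ψ _ t fun s h => hd s (by omega)).trans
      (mul_le_mul_of_nonneg_right (by exact_mod_cast ht) hs)
  have h5 := hch T le_rfl
  generalize (List.range T).map G = C at hχ h5
  have h1 : √(rej C π χ) ≤ √(rej C π (ψ 0)) + nrm (χ - ψ 0) := sqrt_rej_le _ _ _ _
  have h2 : √(rej C π (ψ 0)) ≤ √(rej [] π (ψ T)) + nrm (run C (ψ 0) - ψ T) :=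
    sqrt_rej_le [] π (run C (ψ 0)) (ψ T)
  have h3 : 4 / 5 * nrm χ ≤ √(rej C π χ) := by
    refine Real.le_sqrt_of_sq_le ?_
    have := nsq_nonneg χ
    rw [mul_pow, nrm_sq]
    linarith
  have h4 := nrm_le_add (ψ 0) χ
  rw [nrm_sub_comm] at h1 h2
  have hρ := Real.sq_sqrt (rej_nonneg [] π (ψ T))
  have hβ := nrm_sq (ψ 0 - χ)
  have hδ : (T * √P) ^ 2 = T ^ 2 * P := by rw [mul_pow, Real.sq_sqrt hP0]
  have key : ∀ t ∈ range (T + 1), nsq (ψ t) ≤ 2 * rej [] π (ψ T) +
      112 * (T ^ 2 * P + nsq (ψ 0 - χ)) := by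
    intro t ht
    have h6 := hch t (by simpa [Nat.lt_succ_iff] using ht)
    have h7 := nrm_le_add (ψ t) (run ((List.range t).map G) (ψ 0))
    rw [nrm_run] at h7
    have h8 : nrm (ψ t) ≤ 5 / 4 * √(rej [] π (ψ T)) + 9 / 4 * (T * √P + nrm (ψ 0 - χ)) := by
      linarith
    have h9 := nsq_le_of_nrm_le h8
    have := real_aux h9
    rwa [hρ, hβ, hδ] at this
  have := Finset.sum_le_sum key
  simp only [Finset.sum_const, card_range, nsmul_eq_mul] at this
  push_cast at this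
  linarith

end Pool.Agent.MP_d439b8_lc.H96
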