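import Pool.Agent.MP_d439b8_lc.H96.Sem
import Pool.Agent.MP_d439b8_lc.H96.KitaevNoAux

/-!
Soundness of the circuit to Hamiltonian construction.
-/

namespace Pool.Agent.MP_d439b8_lc.H96

open Function Finset

namespace Verifier

variable (V : Verifier)

/-- The configuration with work register `y`, idle bits `u` and the clock at time `t`. -/
def emb (u : Fin 10 → Bool) (t : ℕ) (y : Fin V.n → Bool) (i : Fin V.N) : Bool :=
  if h : (i : ℕ) < V.n then y ⟨i, h⟩ else
    if h' : (i : ℕ) < V.n + 10 then u ⟨i - V.n, by omega⟩ else decide ((i : ℕ) ≤ V.n + 10 + t)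

/-- The qubit with a given number. -/
abbrev q (a : ℕ) : Fin V.N := Fin.ofNat V.N a

lemma q_val {a : ℕ} (h : a < V.N) : (V.q a : ℕ) = a := Nat.mod_eq_of_lt h

lemma ck_lt {s : ℕ} (h : s ≤ V.T + 1) : V.ck s < V.N := by
  simp only [ck, N]
  omega

lemma lt_N {j : ℕ} (h : j < V.n + 10) : j < V.N := by
  simp only [N]
  omega

lemma emb_ck (u : Fin 10 → Bool) (t : ℕ) (y : Fin V.n → Bool) {s : ℕ} (h : s ≤ V.T + 1) :
    V.emb u t y (V.q (V.ck s)) = decide (s ≤ t) := by
  have h1 := V.q_val (V.ck_lt h)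
  simp only [ck] at h1
  rw [emb, dif_neg (by simp only [ck]; omega), dif_neg (by simp only [ck]; omega)]
  simp only [ck, h1, Nat.add_le_add_iff_left]

lemma emb_work (u : Fin 10 → Bool) (t : ℕ) (y : Fin V.n → Bool) (j : Fin V.n) :
    V.emb u t y (V.q j) = y j := by
  have h1 := V.q_val (V.lt_N (j := j) (by omega))
  rw [emb, dif_pos (by omega)]
  congr 1
  exact Fin.ext h1

lemma emb_idle (u : Fin 10 → Bool) (t : ℕ) (y : Fin V.n → Bool) (k : Fin 10) :
    V.emb u t y (V.q (V.n + k)) = u k := by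
  have h1 := V.q_val (V.lt_N (j := V.n + k) (by omega))
  rw [emb, dif_neg (by omega), dif_pos (by omega)]
  congr 1
  exact Fin.ext (by simp only [h1]; omega)

lemma update_work (u : Fin 10 → Bool) (t : ℕ) (y : Fin V.n → Bool) (j : Fin V.n) (b : Bool) :
    update (V.emb u t y) (V.q j) b = V.emb u t (update y j b) := by
  have h1 := V.q_val (V.lt_N (j := j) (by omega))
  funext i
  by_cases hi : i = V.q j
  · rw [hi, update_self, emb_work, update_self]
  · rw [update_of_ne hi]
    simp only [emb]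
    split_ifs with h
    · rw [update_of_ne]
      intro e
      exact hi (Fin.ext (by rw [h1, ← e]))
    · rfl
    · rfl

lemma update_ck (u : Fin 10 → Bool) {t : ℕ} (ht : t < V.T) (y : Fin V.n → Bool) :
    update (V.emb u (t + 1) y) (V.q (V.ck (t + 1))) false = V.emb u t y := by
  have h1 := V.q_val (V.ck_lt (s := t + 1) (by omega))
  funext i
  by_cases hi : i = V.q (V.ck (t + 1))
  · rw [hi, update_self, emb_ck _ _ _ _ (by omega)]
    simp
  · rw [update_of_ne hi]
    simp only [emb]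
    have : (i : ℕ) ≠ V.n + 10 + (t + 1) := fun e => hi (Fin.ext (by rw [h1, e, ck]))
    split_ifs
    · rfl
    · rfl
    · exact decide_eq_decide.mpr (by omega)

lemma sum_emb_le (t : ℕ) (f : (Fin V.N → Bool) → ℝ) (hf : ∀ x, 0 ≤ f x) :
    ∑ u, ∑ y, f (V.emb u t y) ≤ ∑ x, f x := by
  rw [← Fintype.sum_prod_type']
  refine sum_inj_le (fun p : (Fin 10 → Bool) × (Fin V.n → Bool) => V.emb p.1 t p.2) ?_ f hf
  intro p p' h
  refine Prod.ext (funext fun k => ?_) (funext fun j => ?_)
  · rw [← V.emb_idle p.1 t p.2 k, ← V.emb_idle p'.1 t p'.2 k]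
    exact congrFun h _
  · rw [← V.emb_work p.1 t p.2 j, ← V.emb_work p'.1 t p'.2 j]
    exact congrFun h _

/-- The clock register holds a time in unary. -/
def Legal (x : Fin V.N → Bool) : Prop :=
  x (V.q (V.ck 0)) = true ∧ x (V.q (V.ck (V.T + 1))) = false ∧
    ∀ s < V.T + 1, ¬(x (V.q (V.ck s)) = false ∧ x (V.q (V.ck (s + 1))) = true)

lemma Legal.exists_emb {x : Fin V.N → Bool} (h : V.Legal x) :
    ∃ t < V.T + 1, ∃ u y, V.emb u t y = x := by
  obtain ⟨h0, h1, h2⟩ := h
  have hex : ∃ s, x (V.q (V.ck (s + 1))) = false := ⟨_, h1⟩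
  have ht : Nat.find hex ≤ V.T := Nat.find_min' hex h1
  have hs := Nat.find_spec hex
  have hm : ∀ s < Nat.find hex, x (V.q (V.ck (s + 1))) = true := fun s hs => by
    simpa using Nat.find_min hex hs
  generalize Nat.find hex = t at ht hs hm
  have up : ∀ k, t + 1 + k ≤ V.T + 1 → x (V.q (V.ck (t + 1 + k))) = false := by
    intro k
    induction k with
    | zero => exact fun _ => hs
    | succ k ih =>
      intro hk
      exact Bool.eq_false_iff.mpr fun c => h2 (t + 1 + k) (by omega) ⟨ih (by omega), c⟩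
  refine ⟨t, by omega, fun k => x (V.q (V.n + k)), fun j => x (V.q j), funext fun i => ?_⟩
  have hi : V.q i = i := Fin.ext (V.q_val i.2)
  simp only [emb]
  split_ifs with a b
  · rw [hi]
  · rw [show V.n + (i - V.n) = i by omega, hi]
  · have hN : (i : ℕ) < V.n + 10 + (V.T + 1) + 1 := i.2
    obtain ⟨s, e⟩ : ∃ s, (i : ℕ) = V.ck s := ⟨i - (V.n + 10), by simp only [ck]; omega⟩
    rw [← hi, e]
    have hs' : s ≤ V.T + 1 := by simp only [ck] at e; omega
    rw [V.q_val (V.ck_lt hs')]
    by_cases c : s ≤ t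
    · rw [decide_eq_true (by simp only [ck]; omega)]
      cases s with
      | zero => exact h0.symm
      | succ s => exact (hm s (by omega)).symm
    · rw [decide_eq_false (by simp only [ck]; omega)]
      have := up (s - (t + 1)) (by omega)
      rw [show t + 1 + (s - (t + 1)) = s by omega] at this
      exact this.symm

/-- The rejected weight of one local test. -/
noncomputable def term (φ : (Fin V.N → Bool) → ℂ) (σ : Sem) : ℝ :=
  rej (mapCirc (V.site σ) σ.2.2.1) (mapPat (V.site σ) σ.2.2.2) φ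

lemma term_nonneg (φ : (Fin V.N → Bool) → ℂ) (σ : Sem) : 0 ≤ V.term φ σ := rej_nonneg _ _ _

lemma term_chk (φ : (Fin V.N → Bool) → ℂ) (w s j : ℕ) (π : List (ℕ × Bool)) :
    V.term φ (V.chk w s j π) = ∑ x, if ∀ c ∈ π,
      x (V.q ([V.ck s, V.ck (s + 1), j, V.n, V.n + 1].getD c.1 0)) = c.2 then ‖φ x‖ ^ 2 else 0 := by
  simp only [term, rej_eq, forall_mapPat]
  rfl

/-- The step for a gate. -/
def step (g : ℕ × ℕ × ℕ) : ℕ × ℕ × ℕ :=
  if g.1 = 0 then (1, g.2.1 % V.n, g.2.1 % V.n) else if g.1 = 1 then (2, g.2.1 % V.n, g.2.1 % V.n)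
  else (0, g.2.2 % V.n, g.2.1 % V.n)

/-- The gate at time `t`. -/
def gate (t : ℕ) : Gate (Fin V.n) :=
  (mapPat (Fin.ofNat V.n) (std (V.2.2.getD t 0)).1, (std (V.2.2.getD t 0)).2.1,
    Fin.ofNat V.n (std (V.2.2.getD t 0)).2.2)

lemma circ_eq : V.circ = (List.range V.T).map V.gate := by
  refine List.ext_getElem (by simp [circ, mapCirc]) fun i h1 h2 => ?_
  have : i < V.2.2.length := by simpa using h2
  simp [circ, mapCirc, gate, this]

lemma steps_eq :
    V.steps.zipIdx = (List.range V.T).map fun t => (V.step (V.2.2.getD t 0), t) := by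
  refine List.ext_getElem (by simp [steps]) fun i h1 h2 => ?_
  have : i < V.2.2.length := by simpa using h2
  simp [steps, step, this]

lemma energy_eq (φ : (Fin V.N → Bool) → ℂ) : V.energy φ =
    2 * (V.T + 1) * V.term φ (V.chk (2 * (V.T + 1)) V.T 0 [(0, true), (2, false)]) + V.J *
      (V.term φ (V.chk V.J 0 0 [(0, false)]) + V.term φ (V.chk V.J V.T 0 [(1, true)]) +
        ∑ s ∈ range (V.T + 1), V.term φ (V.chk V.J s 0 [(0, false), (1, true)])) + V.J *
      (∑ t ∈ range V.T, V.term φ (V.prop (V.step (V.2.2.getD t 0), t)) +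
        ∑ j ∈ (range V.n).filter (V.1.length ≤ ·),
          V.term φ (V.chk V.J 0 j [(1, false), (2, true)])) := by
  have e : V.energy φ = (V.sem.map fun σ => (σ.1 : ℝ) * V.term φ σ).sum := rfl
  have e3 : ∀ f : ℕ → ℝ, (((List.range V.n).filter fun j => decide (V.1.length ≤ j)).map f).sum =
      ∑ j ∈ (range V.n).filter (V.1.length ≤ ·), f j := fun f => by
    rw [← List.sum_toFinset _ (List.nodup_range.filter _)]
    congr 1
    ext
    simp
  rw [e, sem, steps_eq]
  simp only [List.map_cons, List.sum_cons, List.map_append, List.sum_append, List.map_map,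
    comp_def, sum_map_range, e3, mul_add, Finset.mul_sum]
  simp only [chk, prop]
  push_cast
  ring

lemma legal_le (φ : (Fin V.N → Bool) → ℂ) :
    nsq φ ≤ ∑ u, ∑ t ∈ range (V.T + 1), nsq (fun y => φ (V.emb u t y)) +
      (V.term φ (V.chk V.J 0 0 [(0, false)]) + V.term φ (V.chk V.J V.T 0 [(1, true)]) +
        ∑ s ∈ range (V.T + 1), V.term φ (V.chk V.J s 0 [(0, false), (1, true)])) := by
  classical
  have h1 := sum_le_of_cover
    (fun p : (Fin 10 → Bool) × Fin (V.T + 1) × (Fin V.n → Bool) => V.emb p.1 p.2.1 p.2.2)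
    (fun x => ‖φ x‖ ^ 2) (fun _ => sq_nonneg _) V.Legal fun x hx => by
      obtain ⟨t, ht, u, y, e⟩ := hx.exists_emb
      exact ⟨(u, ⟨t, ht⟩, y), e⟩
  simp only [Fintype.sum_prod_type] at h1
  simp only [nsq, Finset.sum_range (n := V.T + 1) fun t => ∑ y, ‖φ (V.emb _ t y)‖ ^ 2]
  refine le_trans ?_ (add_le_add h1 le_rfl)
  simp only [term_chk]
  rw [Finset.sum_comm, ← Finset.sum_add_distrib, ← Finset.sum_add_distrib,
    ← Finset.sum_add_distrib]
  refine Finset.sum_le_sum fun x _ => ?_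
  have n0 : ∀ (p : Prop) [Decidable p], (0 : ℝ) ≤ if p then ‖φ x‖ ^ 2 else 0 := fun p _ => by
    split_ifs
    · exact sq_nonneg _
    · exact le_rfl
  simp only [List.mem_cons, List.not_mem_nil, or_false, forall_eq, forall_eq_or_imp,
    List.getD_cons_zero, List.getD_cons_succ]
  have n1 := Finset.sum_nonneg (s := range (V.T + 1)) fun s _ =>
    n0 (x (V.q (V.ck s)) = false ∧ x (V.q (V.ck (s + 1))) = true)
  by_cases hL : V.Legal x
  · rw [if_pos hL]
    linarith [n0 (x (V.q (V.ck 0)) = false), n0 (x (V.q (V.ck (V.T + 1))) = true)]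
  · rw [if_neg hL]
    by_cases a : x (V.q (V.ck 0)) = false
    · rw [if_pos a]
      linarith [n0 (x (V.q (V.ck (V.T + 1))) = true)]
    rw [if_neg a]
    by_cases b : x (V.q (V.ck (V.T + 1))) = true
    · rw [if_pos b]
      linarith
    rw [if_neg b]
    have : ∃ s < V.T + 1, x (V.q (V.ck s)) = false ∧ x (V.q (V.ck (s + 1))) = true := by
      by_contra c
      exact hL ⟨by simpa using a, by simpa using b, fun s hs hc => c ⟨s, hs, hc⟩⟩
    obtain ⟨s, hs, hc⟩ := this
    have := Finset.single_le_sum (s := range (V.T + 1)) (fun s _ =>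
      n0 (x (V.q (V.ck s)) = false ∧ x (V.q (V.ck (s + 1))) = true)) (mem_range.mpr hs)
    rw [if_pos hc] at this
    linarith

lemma out_le (φ : (Fin V.N → Bool) → ℂ) (w : ℕ) :
    ∑ u, rej [] [(0, false)] (fun y => φ (V.emb u V.T y)) ≤
      V.term φ (V.chk w V.T 0 [(0, true), (2, false)]) := by
  rw [term_chk]
  refine le_trans (le_of_eq ?_) (V.sum_emb_le V.T _ fun x => by split_ifs <;> positivity)
  refine Finset.sum_congr rfl fun u _ => ?_
  rw [rej_eq]
  refine Finset.sum_congr rfl fun y _ => ?_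
  have e : V.emb u V.T y (V.q 0) = y 0 := V.emb_work u V.T y 0
  simp only [List.mem_cons, List.not_mem_nil, or_false, forall_eq, forall_eq_or_imp,
    List.getD_cons_zero, List.getD_cons_succ, V.emb_ck u _ y (Nat.le_succ _), e, le_refl,
    decide_true, true_and, run_nil]

/-- The part of a vector in which all ancilla qubits are `0`. -/
noncomputable def good (ψ : (Fin V.n → Bool) → ℂ) (y : Fin V.n → Bool) : ℂ :=
  if ∀ i : Fin V.n, V.1.length ≤ i → y i = false then ψ y else 0

lemma anc_le (φ : (Fin V.N → Bool) → ℂ) :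
    ∑ u, nsq ((fun y => φ (V.emb u 0 y)) - V.good fun y => φ (V.emb u 0 y)) ≤
      ∑ j ∈ (range V.n).filter (V.1.length ≤ ·),
        V.term φ (V.chk V.J 0 j [(1, false), (2, true)]) := by
  simp only [term_chk]
  rw [Finset.sum_comm]
  refine le_trans ?_ (V.sum_emb_le 0 _ fun x => Finset.sum_nonneg fun j _ => by
    split_ifs <;> positivity)
  refine Finset.sum_le_sum fun u _ => Finset.sum_le_sum fun y _ => ?_
  have n0 : ∀ (p : Prop) [Decidable p], (0 : ℝ) ≤ if p then ‖φ (V.emb u 0 y)‖ ^ 2 else 0 :=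
    fun p _ => by split_ifs <;> positivity
  simp only [Pi.sub_apply, good]
  split_ifs with c
  · simpa using Finset.sum_nonneg fun j _ => n0 _
  · push Not at c
    obtain ⟨i, hi, hy⟩ := c
    refine le_trans ?_ (Finset.single_le_sum (fun j _ => n0 _)
      (mem_filter.mpr ⟨mem_range.mpr i.2, hi⟩))
    rw [if_pos, sub_zero]
    simp only [List.mem_cons, List.not_mem_nil, or_false, forall_eq, forall_eq_or_imp,
      List.getD_cons_zero, List.getD_cons_succ, V.emb_work]
    rw [V.emb_ck u 0 y (by omega)]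
    simpa using hy

lemma good_rej (h : ∀ ψ, V.Input ψ → V.acc ψ ≤ 1 / 3) (ψ : (Fin V.n → Bool) → ℂ) :
    2 / 3 * nsq (V.good ψ) ≤ rej V.circ [(0, false)] (V.good ψ) := by
  have hg : ∀ x : Fin V.n → Bool, ∀ i : Fin V.n, V.1.length ≤ i → x i = true →
      V.good ψ x = 0 := fun x i hi hx => if_neg fun c => by simp [c i hi] at hx
  generalize V.good ψ = χ at hg
  rcases (nsq_nonneg χ).eq_or_lt with h0 | h0
  · rw [← h0, mul_zero]
    exact rej_nonneg _ _ _
  obtain ⟨c, hc⟩ : ∃ c : ℂ, ‖c‖ ^ 2 = (nsq χ)⁻¹ :=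
    ⟨(√((nsq χ)⁻¹) : ℝ), by
      rw [Complex.norm_real, Real.norm_eq_abs, sq_abs, Real.sq_sqrt (inv_nonneg.mpr h0.le)]⟩
  have hr : run V.circ (fun x => c • χ x) = fun x => c • run V.circ χ x :=
    run_linear V.circ (fun _ => c • LinearMap.id) (fun _ _ _ _ => rfl) χ
  have h1 := h (fun x => c • χ x) ⟨by
    simp only [nsq, norm_smul, mul_pow, hc, ← Finset.mul_sum]
    exact inv_mul_cancel₀ h0.ne', fun x i hi hx => by simp [hg x i hi hx]⟩
  have h2 : V.acc (fun x => c • χ x) = (nsq χ)⁻¹ * V.acc χ := by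
    simp only [acc, hr, norm_smul, mul_pow, hc, Finset.mul_sum, mul_ite, mul_zero]
  have h3 : V.acc χ + rej V.circ [(0, false)] χ = nsq χ := by
    rw [rej_eq, acc, ← Finset.sum_add_distrib, ← nsq_run V.circ χ]
    refine Finset.sum_congr rfl fun x _ => ?_
    cases hx : x 0 <;> simp [hx]
  rw [h2, inv_mul_le_iff₀ h0] at h1
  linarith

lemma app_gate (t : ℕ) : ∃ a b : Fin V.n, ∃ k, V.step (V.2.2.getD t 0) = (k, a.1, b.1) ∧
    ∀ (ψ : (Fin V.n → Bool) → ℂ) y, app (V.gate t) ψ y =
      if b = a ∨ y b = true then ∑ c, op k (y a) c • ψ (update y a c) else ψ y := by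
  simp only [step, gate, std]
  generalize V.2.2.getD t 0 = g
  split_ifs
  · exact ⟨Fin.ofNat _ g.2.1, Fin.ofNat _ g.2.1, 1, rfl, fun ψ y => by simp [app, mapPat]⟩
  · exact ⟨Fin.ofNat _ g.2.1, Fin.ofNat _ g.2.1, 2, rfl, fun ψ y => by simp [app, mapPat]⟩
  · exact ⟨Fin.ofNat _ g.2.2, Fin.ofNat _ g.2.1, 0, rfl, fun ψ y => by
      simp only [app, mapPat, List.map_cons, List.map_nil, List.mem_cons, List.not_mem_nil,
        or_false, forall_eq]⟩

lemma prop_le (φ : (Fin V.N → Bool) → ℂ) {t : ℕ} (ht : t < V.T) :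
    ∑ u, nsq (app (V.gate t) (fun y => φ (V.emb u t y)) - fun y => φ (V.emb u (t + 1) y)) ≤
      2 * V.term φ (V.prop (V.step (V.2.2.getD t 0), t)) := by
  obtain ⟨a, b, k, e, hg⟩ := V.app_gate t
  rw [e, term, rej_eq, Finset.mul_sum]
  refine le_trans (le_of_eq ?_) (V.sum_emb_le (t + 1) _ fun x => by split_ifs <;> positivity)
  refine Finset.sum_congr rfl fun u _ => Finset.sum_congr rfl fun y _ => ?_
  have s0 : V.site (V.prop ((k, a.1, b.1), t)) 0 = V.q (V.ck t) := rfl
  have s1 : V.site (V.prop ((k, a.1, b.1), t)) 1 = V.q (V.ck (t + 1)) := rfl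
  have s2 : V.site (V.prop ((k, a.1, b.1), t)) 2 = V.q (V.ck (t + 2)) := rfl
  have s3 : V.site (V.prop ((k, a.1, b.1), t)) 3 = V.q a := rfl
  have s4 : (b : ℕ) ≠ a → V.site (V.prop ((k, a.1, b.1), t)) 4 = V.q b := fun c => by
    simp only [site, prop, if_neg c]
    rfl
  have ne : V.q (V.ck (t + 1)) ≠ V.q a := fun c => by
    have := congrArg Fin.val c
    rw [V.q_val (V.ck_lt (by omega)), V.q_val (V.lt_N (by omega)), ck] at this
    omega
  generalize V.site (V.prop ((k, a.1, b.1), t)) = σ at s0 s1 s2 s3 s4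
  have c1 := V.emb_ck u (t + 1) y (s := t + 1) (by omega)
  have c1' := V.emb_ck u t y (s := t + 1) (by omega)
  rw [decide_eq_true le_rfl] at c1
  rw [decide_eq_false (by omega)] at c1'
  rw [if_pos]
  · simp only [prop, mapCirc_cons, mapCirc_nil, run_cons, run_nil, s1, s3]
    generalize hχ : app (mapPat σ _, k, V.q a) φ = χ
    have x1 : χ (V.emb u (t + 1) y) = φ (V.emb u (t + 1) y) := by
      rw [← hχ, app, if_neg]
      simp only [forall_mapPat, List.forall_mem_cons, s1, c1, ne, false_or]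
      exact fun c => Bool.noConfusion c.1
    have x0 : χ (V.emb u t y) = app (V.gate t) (fun y => φ (V.emb u t y)) y := by
      rw [← hχ, hg, app]
      simp only [V.update_work, V.emb_work, forall_mapPat, List.forall_mem_cons, s1, c1',
        or_true, true_and]
      refine if_congr ?_ rfl rfl
      by_cases c : (b : ℕ) = a
      · simp [Fin.ext c]
      · have c' : V.q b ≠ V.q a := fun d => c (by
          have := congrArg Fin.val d
          rwa [V.q_val (V.lt_N (by omega)), V.q_val (V.lt_N (by omega))] at this)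
        have c'' : b ≠ a := fun d => c (by rw [d])
        simp only [if_neg c, List.mem_cons, List.not_mem_nil, or_false, forall_eq, s4 c, c', c'',
          V.emb_work, false_or]
    have u1 : update (V.emb u (t + 1) y) (V.q (V.ck (t + 1))) true = V.emb u (t + 1) y := by
      rw [← c1, update_eq_self]
    rw [app, if_pos (by simp [mapPat])]
    simp only [Fintype.sum_bool, c1, u1, V.update_ck u ht, x0, x1, Pi.sub_apply]
    generalize app (V.gate t) (fun y => φ (V.emb u t y)) y = z
    generalize φ (V.emb u (t + 1) y) = z'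
    have : op 1 true true • z' + op 1 true false • z = ((√2 : ℝ) : ℂ)⁻¹ * (z - z') := by
      simp [op]
      ring
    rw [this, norm_mul, mul_pow, norm_inv, Complex.norm_real, Real.norm_eq_abs, inv_pow, sq_abs,
      Real.sq_sqrt zero_le_two]
    ring
  · simp only [prop, forall_mapPat, List.forall_mem_cons, s0, s1, s2, c1]
    rw [V.emb_ck u _ y (by omega), V.emb_ck u _ y (by omega)]
    simp

end Verifier

theorem Verifier.energy_no (V : Verifier) (h : ∀ ψ, V.Input ψ → V.acc ψ ≤ 1 / 3)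
    (φ : (Fin V.N → Bool) → ℂ) : nsq φ ≤ V.energy φ := by
  have h1 := V.legal_le φ
  have h2 := Finset.sum_le_sum (s := univ) fun u _ =>
    history V.gate (fun t y => φ (V.emb u t y)) V.T [(0, false)] _
      (V.circ_eq ▸ V.good_rej h fun y => φ (V.emb u 0 y))
  simp only [Finset.sum_add_distrib, ← Finset.mul_sum] at h2
  rw [Finset.sum_comm (t := range V.T)] at h2
  have h3 := V.out_le φ (2 * (V.T + 1))
  have h4 := V.anc_le φ
  have h5 := Finset.sum_le_sum (s := range V.T) fun t ht => V.prop_le φ (mem_range.mp ht)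
  rw [← Finset.mul_sum] at h5
  have p1 := V.term_nonneg φ (V.chk V.J 0 0 [(0, false)])
  have p2 := V.term_nonneg φ (V.chk V.J V.T 0 [(1, true)])
  have p3 := Finset.sum_nonneg (s := range (V.T + 1)) fun s _ =>
    V.term_nonneg φ (V.chk V.J s 0 [(0, false), (1, true)])
  have p4 := Finset.sum_nonneg (s := range V.T) fun t _ =>
    V.term_nonneg φ (V.prop (V.step (V.2.2.getD t 0), t))
  have p5 := Finset.sum_nonneg (s := (range V.n).filter (V.1.length ≤ ·)) fun j _ =>
    V.term_nonneg φ (V.chk V.J 0 j [(1, false), (2, true)])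
  have hT : (0 : ℝ) ≤ V.T := Nat.cast_nonneg _
  have hJ : 4000 * ((V.T : ℝ) + 1) ^ 3 ≤ V.J := by
    have : V.T + 1 ≤ V.N := by simp only [Verifier.N]; omega
    have h' : 4000 * (V.T + 1) ^ 3 ≤ V.J := by
      rw [Verifier.J, ← pow_three']
      gcongr
    exact_mod_cast h'
  rw [V.energy_eq]
  generalize (V.J : ℝ) = J at hJ
  generalize (V.T : ℝ) = T at *
  have k1 : 224 * (T + 1) * T ^ 2 ≤ J := by nlinarith [mul_nonneg hT hT, pow_nonneg hT 3]
  have k2 : 112 * (T + 1) ≤ J := by nlinarith [mul_nonneg hT hT, pow_nonneg hT 3]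
  have k3 : 1 ≤ J := by linarith
  have a1 := mul_le_mul_of_nonneg_left h3 (show 0 ≤ 2 * (T + 1) by positivity)
  have a2 := mul_le_mul_of_nonneg_left h4 (show 0 ≤ 112 * (T + 1) by positivity)
  have a3 := mul_le_mul_of_nonneg_left h5 (show 0 ≤ 112 * (T + 1) * T ^ 2 by positivity)
  have a4 := mul_le_mul_of_nonneg_right k1 p4
  have a5 := mul_le_mul_of_nonneg_right k2 p5
  have a6 := mul_le_mul_of_nonneg_right k3 (add_nonneg (add_nonneg p1 p2) p3)
  linarith

end Pool.Agent.MP_d439b8_lc.H96
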