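import Pool.Agent.MP_d439b8_lc.H96.Sem

/-!
The history state has small energy.
-/

namespace Pool.Agent.MP_d439b8_lc.H96

open Function

namespace Yes

variable (V : Verifier)

/-- The qubit with a given number. -/
def q (j : ℕ) : Fin V.N := Fin.ofNat V.N j

lemma q_val {j : ℕ} (h : j < V.N) : (q V j : ℕ) = j := Nat.mod_eq_of_lt h

lemma n_lt (i : Fin V.n) : (i : ℕ) < V.N := by
  have := i.2
  simp only [Verifier.N]
  omega

lemma ck_lt {s : ℕ} (h : s ≤ V.T + 1) : V.ck s < V.N := by
  simp only [Verifier.N, Verifier.ck]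
  omega

/-- The work register of a configuration. -/
def w (x : Fin V.N → Bool) (i : Fin V.n) : Bool := x (q V i)

/-- The idle qubits are `0` and the clock shows the time `t`. -/
def cfg (t : ℕ) (x : Fin V.N → Bool) : Prop :=
  ∀ i : Fin V.N, V.n ≤ i → x i = decide (V.n + 10 ≤ i ∧ (i : ℕ) ≤ V.n + 10 + t)

instance (t : ℕ) (x : Fin V.N → Bool) : Decidable (cfg V t x) := by
  unfold cfg
  infer_instance

/-- The configuration at time `t` with a given work register. -/
def emb (t : ℕ) (y : Fin V.n → Bool) (i : Fin V.N) : Bool :=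
  if h : (i : ℕ) < V.n then y ⟨i, h⟩ else decide (V.n + 10 ≤ i ∧ (i : ℕ) ≤ V.n + 10 + t)

lemma w_emb (t : ℕ) (y : Fin V.n → Bool) : w V (emb V t y) = y := by
  funext i
  have h := q_val V (n_lt V i)
  have h' : (q V i : ℕ) < V.n := by
    rw [h]
    exact i.2
  simp only [w, emb, dif_pos h']
  congr 1
  exact Fin.ext h

lemma cfg_emb (t : ℕ) (y : Fin V.n → Bool) : cfg V t (emb V t y) := fun i hi => by
  simp only [emb, dif_neg (not_lt.mpr hi)]

lemma emb_w {t : ℕ} {x : Fin V.N → Bool} (h : cfg V t x) : emb V t (w V x) = x := by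
  funext i
  unfold emb
  split_ifs with hi
  · simp only [w]
    congr 1
    exact Fin.ext (q_val V i.2)
  · exact (h i (not_lt.mp hi)).symm

lemma sum_cfg (t : ℕ) (f : (Fin V.N → Bool) → ℝ) :
    ∑ x, (if cfg V t x then f x else 0) = ∑ y, f (emb V t y) := by
  rw [← Finset.sum_filter]
  refine Finset.sum_nbij' (w V) (emb V t) (by simp) (fun y _ => by simp [cfg_emb])
    (fun x hx => emb_w V (by simpa using hx)) (fun y _ => w_emb V t y) fun x hx => ?_
  rw [emb_w V (by simpa using hx)]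

variable {V}

lemma cfg.ck {t : ℕ} {x : Fin V.N → Bool} (h : cfg V t x) {s : ℕ} (hs : s ≤ V.T + 1) :
    x (q V (V.ck s)) = decide (s ≤ t) := by
  have e := q_val V (ck_lt V hs)
  rw [h _ (by rw [e, Verifier.ck]; omega), e, Verifier.ck]
  simp

lemma cfg.unique {t t' : ℕ} {x : Fin V.N → Bool} (h : cfg V t x) (h' : cfg V t' x)
    (ht : t ≤ V.T) (ht' : t' ≤ V.T) : t = t' := by
  have h1 := (h.ck (s := t + 1) (by omega)).symm.trans (h'.ck (by omega))
  have h2 := (h.ck (s := t' + 1) (by omega)).symm.trans (h'.ck (by omega))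
  simp only [decide_eq_decide] at h1 h2
  omega

lemma cfg_update_work (t : ℕ) (x : Fin V.N → Bool) (i : Fin V.n) (b : Bool) :
    cfg V t (update x (q V i) b) ↔ cfg V t x := by
  refine forall₂_congr fun j hj => ?_
  rw [update_of_ne]
  rintro rfl
  rw [q_val V (n_lt V i)] at hj
  exact absurd i.2 (not_lt.mpr hj)

lemma q_inj {i j : ℕ} (hi : i < V.N) (hj : j < V.N) : q V i = q V j ↔ i = j := by
  rw [Fin.ext_iff, q_val V hi, q_val V hj]

lemma w_update_work (x : Fin V.N → Bool) (i : Fin V.n) (b : Bool) :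
    w V (update x (q V i) b) = update (w V x) i b := by
  funext j
  by_cases h : j = i
  · subst h
    simp [w]
  · rw [update_of_ne h, w, w, update_of_ne]
    rw [Ne, q_inj (n_lt V j) (n_lt V i)]
    exact fun e => h (Fin.ext e)

lemma work_ne_ck (i : Fin V.n) {s : ℕ} (hs : s ≤ V.T + 1) : q V i ≠ q V (V.ck s) := by
  rw [Ne, q_inj (n_lt V i) (ck_lt V hs), Verifier.ck]
  have := i.2
  omega

lemma ck_ne_ck {r s : ℕ} (hr : r ≤ V.T + 1) (hs : s ≤ V.T + 1) (h : r ≠ s) :
    q V (V.ck r) ≠ q V (V.ck s) := by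
  rw [Ne, q_inj (ck_lt V hr) (ck_lt V hs), Verifier.ck, Verifier.ck]
  omega

lemma w_update_ck (x : Fin V.N → Bool) {s : ℕ} (hs : s ≤ V.T + 1) (b : Bool) :
    w V (update x (q V (V.ck s)) b) = w V x := by
  funext j
  rw [w, w, update_of_ne (work_ne_ck j hs)]

lemma cfg_update_ck {t : ℕ} (ht : t ≤ V.T) {x : Fin V.N → Bool}
    (hx : x (q V (V.ck (t + 1))) = true) :
    cfg V t (update x (q V (V.ck (t + 1))) false) ↔ cfg V (t + 1) x := by
  refine forall₂_congr fun j hj => ?_
  have e := q_val V (ck_lt V (s := t + 1) (by omega))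
  by_cases h : j = q V (V.ck (t + 1))
  · subst h
    rw [update_self, hx, e, Verifier.ck]
    simp
  · rw [update_of_ne h]
    have : (j : ℕ) ≠ V.n + 10 + (t + 1) := fun h' => h (Fin.ext (by rw [e, h', Verifier.ck]))
    have : (V.n + 10 ≤ j ∧ (j : ℕ) ≤ V.n + 10 + t) ↔
        (V.n + 10 ≤ j ∧ (j : ℕ) ≤ V.n + 10 + (t + 1)) := by omega
    simp only [this]

/-- The state after `t` gates. -/
noncomputable def phi (ψ : (Fin V.n → Bool) → ℂ) (t : ℕ) : (Fin V.n → Bool) → ℂ :=
  run (V.circ.take t) ψ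

variable (V) in
/-- The normalising factor. -/
noncomputable def cc : ℂ := ((√((V.T : ℝ) + 1))⁻¹ : ℝ)

lemma cc_sq : ‖cc V‖ ^ 2 = ((V.T : ℝ) + 1)⁻¹ := by
  rw [cc, Complex.norm_real, Real.norm_eq_abs, sq_abs, inv_pow, Real.sq_sqrt (by positivity)]

/-- The history state. -/
noncomputable def eta (ψ : (Fin V.n → Bool) → ℂ) (x : Fin V.N → Bool) : ℂ :=
  ∑ t ∈ Finset.range (V.T + 1), if cfg V t x then cc V * phi ψ t (w V x) else 0

variable (ψ : (Fin V.n → Bool) → ℂ)

lemma eta_of_cfg {t : ℕ} (ht : t ≤ V.T) {x : Fin V.N → Bool} (h : cfg V t x) :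
    eta ψ x = cc V * phi ψ t (w V x) := by
  rw [eta, Finset.sum_eq_single t, if_pos h]
  · intro s hs hst
    rw [if_neg fun h' => hst (h'.unique h (by simpa [Nat.lt_succ_iff] using hs) ht)]
  · intro h'
    exact absurd (Finset.mem_range.mpr (by omega)) h'

lemma eta_of_not {x : Fin V.N → Bool} (h : ∀ t ≤ V.T, ¬cfg V t x) : eta ψ x = 0 :=
  Finset.sum_eq_zero fun t ht => if_neg (h t (by simpa [Nat.lt_succ_iff] using ht))

lemma eta_at {t : ℕ} (ht : t ≤ V.T) {x : Fin V.N → Bool} (h1 : x (q V (V.ck t)) = true)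
    (h2 : x (q V (V.ck (t + 1))) = false) :
    eta ψ x = if cfg V t x then cc V * phi ψ t (w V x) else 0 := by
  split_ifs with h
  · exact eta_of_cfg ψ ht h
  · refine eta_of_not ψ fun s _ hs => h ?_
    rw [hs.ck (by omega)] at h1 h2
    simp only [decide_eq_true_eq, decide_eq_false_iff_not] at h1 h2
    rwa [show t = s by omega]

lemma norm_eta (x : Fin V.N → Bool) : ‖eta ψ x‖ ^ 2 = ∑ t ∈ Finset.range (V.T + 1),
    if cfg V t x then ((V.T : ℝ) + 1)⁻¹ * ‖phi ψ t (w V x)‖ ^ 2 else 0 := by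
  by_cases h : ∃ t ≤ V.T, cfg V t x
  · obtain ⟨t, ht, h⟩ := h
    rw [eta_of_cfg ψ ht h, Finset.sum_eq_single t, if_pos h, norm_mul, mul_pow, cc_sq]
    · intro s hs hst
      rw [if_neg fun h' => hst (h'.unique h (by simpa [Nat.lt_succ_iff] using hs) ht)]
    · intro h'
      exact absurd (Finset.mem_range.mpr (by omega)) h'
  · push Not at h
    rw [eta_of_not ψ h, Finset.sum_eq_zero fun t ht =>
      if_neg (h t (by simpa [Nat.lt_succ_iff] using ht))]
    simp

lemma sum_eta (P : (Fin V.N → Bool) → Prop) [DecidablePred P] :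
    ∑ x, (if P x then ‖eta ψ x‖ ^ 2 else 0) = ∑ t ∈ Finset.range (V.T + 1),
      ((V.T : ℝ) + 1)⁻¹ * ∑ y, if P (emb V t y) then ‖phi ψ t y‖ ^ 2 else 0 := by
  have : ∀ x, (if P x then ‖eta ψ x‖ ^ 2 else 0) = ∑ t ∈ Finset.range (V.T + 1),
      if cfg V t x then (((V.T : ℝ) + 1)⁻¹ * if P x then ‖phi ψ t (w V x)‖ ^ 2 else 0) else 0 := by
    intro x
    split_ifs
    · exact norm_eta ψ x
    · simp
  simp only [this]
  rw [Finset.sum_comm]
  refine Finset.sum_congr rfl fun t _ => ?_
  rw [sum_cfg, Finset.mul_sum]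
  simp only [w_emb]

lemma nsq_eta (h : nsq ψ = 1) : nsq (eta ψ) = 1 := by
  have := sum_eta ψ fun _ => True
  simp only [if_true] at this
  have e : ∀ t, ∑ y, ‖phi ψ t y‖ ^ 2 = 1 := fun t => (nsq_run _ ψ).trans h
  rw [nsq, this]
  simp only [e, mul_one, Finset.sum_const, Finset.card_range, nsmul_eq_mul]
  push_cast
  field_simp

lemma rej_zero {ι : Type} [Fintype ι] [DecidableEq ι] {C : List (Gate ι)} {π : List (ι × Bool)}
    {φ : (ι → Bool) → ℂ} (h : ∀ x, (∀ c ∈ π, x c.1 = c.2) → run C φ x = 0) : rej C π φ = 0 := by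
  rw [rej_eq]
  refine Finset.sum_eq_zero fun x _ => ?_
  split_ifs with hx
  · simp [h x hx]
  · rfl

lemma length_circ : V.circ.length = V.T := by simp [Verifier.circ, mapCirc]

/-- A step of the circuit. -/
lemma phi_succ {t : ℕ} {p : ℕ × ℕ × ℕ} (hp : V.steps[t]? = some p) :
    t < V.T ∧ ∃ i j : Fin V.n, p.2.1 = i ∧ p.2.2 = j ∧ ∀ y, phi ψ (t + 1) y =
      if j = i ∨ y j = true then ∑ b, op p.1 (y i) b • phi ψ t (update y i b) else phi ψ t y := by
  rw [Verifier.steps, List.getElem?_map, Option.map_eq_some_iff] at hp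
  obtain ⟨g, hg, rfl⟩ := hp
  obtain ⟨ht, hg'⟩ := List.getElem?_eq_some_iff.mp hg
  refine ⟨ht, ?_⟩
  have e : phi ψ (t + 1) = app (mapPat (Fin.ofNat V.n) (std g).1, (std g).2.1,
      Fin.ofNat V.n (std g).2.2) (phi ψ t) := by
    rw [phi, List.take_add_one, run_append, phi]
    have : V.circ[t]? = some (mapPat (Fin.ofNat V.n) (std g).1, (std g).2.1,
      Fin.ofNat V.n (std g).2.2) := by
      simp [Verifier.circ, mapCirc, hg]
    rw [this]
    rfl
  rw [e]
  unfold std
  split_ifs
  · exact ⟨Fin.ofNat V.n g.2.1, Fin.ofNat V.n g.2.1, rfl, rfl, fun y => by simp [app, mapPat]⟩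
  · exact ⟨Fin.ofNat V.n g.2.1, Fin.ofNat V.n g.2.1, rfl, rfl, fun y => by simp [app, mapPat]⟩
  · exact ⟨Fin.ofNat V.n g.2.2, Fin.ofNat V.n g.2.1, rfl, rfl, fun y => by simp [app, mapPat]⟩

lemma rej_prop {t : ℕ} {p : ℕ × ℕ × ℕ} (hp : V.steps[t]? = some p) :
    rej (mapCirc (V.site (V.prop (p, t))) (V.prop (p, t)).2.2.1)
      (mapPat (V.site (V.prop (p, t))) (V.prop (p, t)).2.2.2) (eta ψ) = 0 := by
  obtain ⟨ht, i, j, hi, hj, hs⟩ := phi_succ ψ hp
  obtain ⟨k, a, b⟩ := p
  simp only at hi hj hs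
  subst hi hj
  refine rej_zero fun x hx => ?_
  rw [forall_mapPat] at hx
  have h0 : x (q V (V.ck t)) = true := hx (0, true) (by simp [Verifier.prop])
  have h1 : x (q V (V.ck (t + 1))) = true := hx (1, true) (by simp [Verifier.prop])
  have h2 : x (q V (V.ck (t + 2))) = false := hx (2, false) (by simp [Verifier.prop])
  have hC : mapCirc (V.site (V.prop ((k, i, j), t))) (V.prop ((k, i, j), t)).2.2.1 =
      [((q V (V.ck (t + 1)), false) :: (if j = i then [] else [(q V j, true)]), k, q V i),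
        ([], 1, q V (V.ck (t + 1)))] := by
    by_cases h : j = i
    · simp [mapCirc, mapPat, Verifier.prop, Verifier.site, q, h]
    · simp [mapCirc, mapPat, Verifier.prop, Verifier.site, q, h, Fin.val_inj]
  rw [hC]
  set s := q V (V.ck (t + 1)) with hs'
  have hsi : s ≠ q V i := (work_ne_ck i (by omega)).symm
  have e1 : ∀ G : List (Fin V.N × Bool), app ((s, false) :: G, k, q V i) (eta ψ) x = eta ψ x := by
    intro G
    rw [app, if_neg]
    intro h
    have := h _ List.mem_cons_self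
    simp [hsi, h1] at this
  have e2 : app ((s, false) :: (if j = i then [] else [(q V j, true)]), k, q V i) (eta ψ)
      (update x s false) = eta ψ x := by
    have hc : (∀ c ∈ (s, false) :: (if j = i then [] else [(q V j, true)]),
        c.1 = q V i ∨ update x s false c.1 = c.2) ↔ (j = i ∨ w V x j = true) := by
      by_cases h : j = i
      · simp [h]
      · have h3 : q V j ≠ q V i := by
          rw [Ne, q_inj (n_lt V j) (n_lt V i)]
          exact fun e => h (Fin.ext e)
        have h4 : q V j ≠ s := work_ne_ck j (by omega)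
        simp [h, h3, w, update_of_ne h4]
    have hu : ∀ b, eta ψ (update (update x s false) (q V i) b) =
        if cfg V (t + 1) x then cc V * phi ψ t (update (w V x) i b) else 0 := by
      intro b
      rw [eta_at ψ ht.le, w_update_work, w_update_ck x (by omega)]
      · simp only [cfg_update_work, hs', cfg_update_ck ht.le h1]
      · rw [update_of_ne (work_ne_ck i (by omega)).symm,
          update_of_ne (ck_ne_ck (by omega) (by omega) (by omega)), h0]
      · rw [update_of_ne hsi, update_self]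
    have hv : eta ψ (update x s false) =
        if cfg V (t + 1) x then cc V * phi ψ t (w V x) else 0 := by
      rw [eta_at ψ ht.le, w_update_ck x (by omega)]
      · simp only [hs', cfg_update_ck ht.le h1]
      · rw [update_of_ne (ck_ne_ck (by omega) (by omega) (by omega)), h0]
      · rw [update_self]
    rw [eta_at ψ (t := t + 1) ht h1 h2, hs, app]
    simp only [hc, hu, hv, update_of_ne hsi.symm]
    split_ifs
    · simp only [Finset.mul_sum, smul_eq_mul, w]
      exact Finset.sum_congr rfl fun b _ => by ring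
    · simp
    · rfl
    · rfl
  have e3 : update x s true = x := by rw [← h1, update_eq_self]
  simp only [run_cons, run_nil]
  rw [app, if_pos (by simp)]
  simp only [Fintype.sum_bool, e3, e1, e2, h1, op]
  simp [neg_div]

lemma rej_chk (c s j : ℕ) (π : List (ℕ × Bool))
    (h : ∀ x, (∀ c' ∈ π, x (V.site (V.chk c s j π) c'.1) = c'.2) →
      ∀ t ≤ V.T, cfg V t x → phi ψ t (w V x) = 0) :
    rej (mapCirc (V.site (V.chk c s j π)) (V.chk c s j π).2.2.1)
      (mapPat (V.site (V.chk c s j π)) (V.chk c s j π).2.2.2) (eta ψ) = 0 := by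
  refine rej_zero fun x hx => ?_
  rw [forall_mapPat] at hx
  change eta ψ x = 0
  refine Finset.sum_eq_zero fun t ht => ?_
  split_ifs with hc
  · rw [h x hx t (by simpa [Nat.lt_succ_iff] using ht) hc, mul_zero]
  · rfl

lemma rej_out (h : nsq ψ = 1) (c : ℕ) :
    rej (mapCirc (V.site (V.chk c V.T 0 [(0, true), (2, false)]))
      (V.chk c V.T 0 [(0, true), (2, false)]).2.2.1)
      (mapPat (V.site (V.chk c V.T 0 [(0, true), (2, false)]))
      (V.chk c V.T 0 [(0, true), (2, false)]).2.2.2) (eta ψ) =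
      ((V.T : ℝ) + 1)⁻¹ * (1 - V.acc ψ) := by
  have hP : ∀ x : Fin V.N → Bool, (∀ c' ∈ mapPat (V.site (V.chk c V.T 0 [(0, true), (2, false)]))
      (V.chk c V.T 0 [(0, true), (2, false)]).2.2.2, x c'.1 = c'.2) ↔
      (x (q V (V.ck V.T)) = true ∧ w V x 0 = false) := fun x => by
    simp [mapPat, Verifier.chk, Verifier.site, q, w]
  rw [rej_eq]
  simp only [hP]
  refine (sum_eta ψ fun x => x (q V (V.ck V.T)) = true ∧ w V x 0 = false).trans ?_
  rw [Finset.sum_eq_single V.T]
  · congr 1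
    have e : phi ψ V.T = run V.circ ψ := by rw [phi, ← length_circ, List.take_length]
    rw [← h, ← nsq_run V.circ ψ, nsq, Verifier.acc, ← Finset.sum_sub_distrib, e]
    refine Finset.sum_congr rfl fun y _ => ?_
    rw [(cfg_emb V V.T y).ck (by omega), w_emb]
    cases y 0 <;> simp
  · intro t ht hne
    have ht' : ¬V.T ≤ t := by
      have := Finset.mem_range.mp ht
      omega
    rw [Finset.sum_eq_zero, mul_zero]
    intro y _
    rw [(cfg_emb V t y).ck (by omega)]
    simp [ht']
  · simp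

end Yes

open Yes in
theorem Verifier.energy_yes (V : Verifier) {ψ : (Fin V.n → Bool) → ℂ} (h : V.Input ψ)
    (h' : 2 / 3 ≤ V.acc ψ) : ∃ η : (Fin V.N → Bool) → ℂ, nsq η = 1 ∧ V.energy η ≤ 2 / 3 := by
  refine ⟨eta ψ, nsq_eta ψ h.1, ?_⟩
  rw [Verifier.energy, Verifier.sem, List.map_cons, List.sum_cons, rej_out ψ h.1,
    List.sum_eq_zero]
  · have : (0 : ℝ) < (V.T : ℝ) + 1 := by positivity
    simp only [Verifier.chk]
    push_cast
    field_simp
    linarith
  · intro r hr
    obtain ⟨σ, hσ, rfl⟩ := List.mem_map.mp hr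
    refine mul_eq_zero_of_right _ ?_
    simp only [List.mem_cons, List.mem_append, List.mem_map, List.mem_range, List.mem_filter,
      decide_eq_true_eq] at hσ
    rcases hσ with rfl | rfl | (⟨⟨p, t⟩, hp, rfl⟩ | ⟨s, hs, rfl⟩) | ⟨j, ⟨hj, hj'⟩, rfl⟩
    · refine rej_chk ψ _ _ _ _ fun x hx t ht hc => ?_
      have h1 : x (q V (V.ck 0)) = false := hx (0, false) (by simp)
      rw [hc.ck (by omega)] at h1
      simp at h1
    · refine rej_chk ψ _ _ _ _ fun x hx t ht hc => ?_
      have h1 : x (q V (V.ck (V.T + 1))) = true := hx (1, true) (by simp)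
      rw [hc.ck (by omega)] at h1
      simp only [decide_eq_true_eq] at h1
      omega
    · exact rej_prop ψ (List.mem_zipIdx_iff_getElem?.mp hp)
    · refine rej_chk ψ _ _ _ _ fun x hx t ht hc => ?_
      have h1 : x (q V (V.ck s)) = false := hx (0, false) (by simp)
      have h2 : x (q V (V.ck (s + 1))) = true := hx (1, true) (by simp)
      rw [hc.ck (by omega)] at h1 h2
      simp only [decide_eq_true_eq, decide_eq_false_iff_not] at h1 h2
      omega
    · refine rej_chk ψ _ _ _ _ fun x hx t ht hc => ?_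
      have h1 : x (q V (V.ck (0 + 1))) = false := hx (1, false) (by simp)
      have h2 : w V x ⟨j, hj⟩ = true := hx (2, true) (by simp)
      rw [hc.ck (by omega)] at h1
      simp only [decide_eq_false_iff_not] at h1
      obtain rfl : t = 0 := by omega
      exact h.2 _ ⟨j, hj⟩ hj' h2

end Pool.Agent.MP_d439b8_lc.H96
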