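import Pool.Agent.MP_d439b8_lc.H96.Frames
import Pool.Agent.MP_d439b8_lc.H96.Honest
import Pool.Agent.MP_d439b8_lc.H96.KitaevNo
import Pool.Agent.MP_d439b8_lc.H96.KitaevYes

/-!
The energy tests on a state that is encrypted with Pauli keys.
-/

namespace Pool.Agent.MP_d439b8_lc.H96

open Function

section slice

variable {ι K : Type} [Fintype ι] [DecidableEq ι] [Fintype K] [DecidableEq K]

/-- The state for a fixed value of the keys. -/
def slice (Φ : (ι ⊕ K → Bool) → ℂ) (κ : K → Bool) (x : ι → Bool) : ℂ := Φ (Sum.elim x κ)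

/-- Corrections controlled by keys. -/
def ccorr (s : ι) (a b : K) : List (Gate (ι ⊕ K)) :=
  [([(.inr b, true)], 3, .inl s), ([(.inr a, true)], 0, .inl s)]

omit [Fintype ι] [Fintype K] in
lemma slice_run (C : List (Gate ι)) (Φ : (ι ⊕ K → Bool) → ℂ) (κ : K → Bool) :
    slice (run (mapCirc .inl C) Φ) κ = run C (slice Φ κ) :=
  run_emb Sum.inl_injective C (fun x => Sum.elim x κ) (fun _ _ => rfl)
    (fun _ _ _ => (Sum.update_elim_inl ..).symm) Φ

omit [Fintype ι] [Fintype K] in
lemma slice_app (k : K) (n : ℕ) (s : ι) (Φ : (ι ⊕ K → Bool) → ℂ) (κ : K → Bool) :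
    slice (app ([(.inr k, true)], n, .inl s) Φ) κ =
      run (if κ k = true then [([], n, s)] else []) (slice Φ κ) := by
  funext x
  have : ∀ b, update (Sum.elim x κ) (.inl s) b = Sum.elim (update x s b) κ := fun _ =>
    Sum.update_elim_inl ..
  split_ifs with h <;>
    simp only [slice, app, run_cons, run_nil, List.forall_mem_cons, List.not_mem_nil, this,
      false_imp_iff, imp_true_iff, Sum.elim_inr, Sum.elim_inl, h, reduceCtorEq, or_true, and_self,
      if_true, false_or, false_and, if_false]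

omit [Fintype ι] [Fintype K] in
lemma slice_ccorr (l : List ι) (a b : ι → K) (Φ : (ι ⊕ K → Bool) → ℂ) (κ : K → Bool) :
    slice (run (l.flatMap fun s => ccorr s (a s) (b s)) Φ) κ =
      run (l.flatMap fun s => corr s (κ (a s)) (κ (b s))) (slice Φ κ) := by
  induction l generalizing Φ with
  | nil => rfl
  | cons s l ih =>
    rw [List.flatMap_cons, List.flatMap_cons, run_append, run_append, ih, ccorr, corr, run_append,
      run_cons, run_cons, run_nil, slice_app, slice_app]

lemma sum_slice (f : (ι ⊕ K → Bool) → ℝ) : ∑ z, f z = ∑ κ, ∑ x, f (Sum.elim x κ) := by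
  rw [← (Equiv.sumArrowEquivProdArrow ι K Bool).symm.sum_comp, Fintype.sum_prod_type,
    Finset.sum_comm]
  rfl

lemma rej_slice (l : List ι) (a b : ι → K) (k : K) (v : Bool) (C : List (Gate ι))
    (π : List (ι × Bool)) (Φ : (ι ⊕ K → Bool) → ℂ) :
    rej ((l.flatMap fun s => ccorr s (a s) (b s)) ++ mapCirc .inl C)
      ((.inr k, v) :: mapPat .inl π) Φ = ∑ κ : K → Bool, if κ k = v then
        rej ((l.flatMap fun s => corr s (κ (a s)) (κ (b s))) ++ C) π (slice Φ κ) else 0 := by
  rw [rej_eq, sum_slice]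
  refine Finset.sum_congr rfl fun κ _ => ?_
  rw [rej_eq, run_append, run_append, ← slice_ccorr, ← slice_run]
  split_ifs with h <;> simp [h, forall_mapPat, slice, -Prod.forall]

end slice

lemma rej_zero' {ι : Type} [Fintype ι] [DecidableEq ι] (C : List (Gate ι)) (π : List (ι × Bool)) :
    rej C π (0 : (ι → Bool) → ℂ) = 0 :=
  le_antisymm ((rej_le _ _ _).trans (by simp [nsq])) (rej_nonneg _ _ _)

lemma slice_label {N M : ℕ} (φ : (Fin N → Bool) → ℂ) (κ κ' : Fin M → Bool) :
    slice (label φ κ) κ' = if κ' = κ then φ else 0 := by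
  funext x
  simp only [slice, label, Sum.elim_inl, Sum.elim_inr]
  split_ifs <;> rfl

lemma mapPat_congr {ι ι' : Type} {f f' : ι → ι'} {π : List (ι × Bool)}
    (h : ∀ c ∈ π, f c.1 = f' c.1) : mapPat f π = mapPat f' π :=
  List.map_congr_left fun c hc => by rw [h c hc]

lemma mapCirc_congr {ι ι' : Type} {f f' : ι → ι'} {C : List (Gate ι)}
    (h : ∀ g ∈ C, f g.2.2 = f' g.2.2 ∧ ∀ c ∈ g.1, f c.1 = f' c.1) : mapCirc f C = mapCirc f' C :=
  List.map_congr_left fun g hg => by rw [(h g hg).1, mapPat_congr (h g hg).2]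

/-- A test whose questions are lists of qubits (`false`) or keys (`true`). -/
abbrev RT : Type := ℕ × (Bool × List ℕ) × (Bool × List ℕ) × List (Gate ℕ) × List (ℕ × Bool)

/-- The corrections on the first five positions. -/
def cc : List (Gate ℕ) :=
  (List.range 5).flatMap fun l => [([(17 + l, true)], 3, l), ([(12 + l, true)], 0, l)]

namespace Verifier

variable (V : Verifier)

/-- The number of keys. -/
abbrev M : ℕ := V.N + V.N + 1

/-- The energy test for a local test. -/
def etest (σ : Sem) : RT :=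
  (σ.1, (false, σ.2.1 ++ V.pads), (true, 0 :: (σ.2.1.map (1 + ·) ++ σ.2.1.map (1 + V.N + ·))),
    cc ++ σ.2.2.1, (11, true) :: σ.2.2.2)

/-- All energy tests; the first one rejects if key `0` is not set. -/
def etests : List RT :=
  (1, (false, List.range 11), (true, List.range 11), [], [(11, false)]) :: V.sem.map V.etest

/-- The qubit or key at an answer position. -/
def place (t : RT) (p : ℕ) : Fin V.N ⊕ Fin V.M :=
  if p % 22 < 11 then .inl (Fin.ofNat V.N (t.2.1.2.getD (p % 22) 0))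
  else .inr (Fin.ofNat V.M (t.2.2.1.2.getD (p % 22 - 11) 0))

/-- The weighted sum of the rejected weights in the energy tests. -/
noncomputable def eloss (Φ : (Fin V.N ⊕ Fin V.M → Bool) → ℂ) : ℝ :=
  (V.etests.map fun t => (t.1 : ℝ) *
    rej (mapCirc (V.place t) t.2.2.2.1) (mapPat (V.place t) t.2.2.2.2) Φ).sum

/-- The key for `X` on a qubit. -/
def ka (s : Fin V.N) : Fin V.M := Fin.ofNat V.M (1 + s)

/-- The key for `Z` on a qubit. -/
def kb (s : Fin V.N) : Fin V.M := Fin.ofNat V.M (1 + V.N + s)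

/-- The rejected weight of a local test after the corrections. -/
noncomputable def crej (σ : Sem) (a b : Fin V.N → Bool) (φ : (Fin V.N → Bool) → ℂ) : ℝ :=
  rej ((((List.range 5).map (V.site σ)).flatMap fun s => corr s (a s) (b s)) ++
    mapCirc (V.site σ) σ.2.2.1) (mapPat (V.site σ) σ.2.2.2) φ

variable {V}

lemma site_val {σ : Sem} (hσ : σ ∈ V.sem) {p : ℕ} (hp : p < 5) :
    (V.site σ p : ℕ) = σ.2.1.getD p 0 := by
  obtain ⟨h1, -, h3, -⟩ := V.sem_wf σ hσ
  refine Nat.mod_eq_of_lt (h3 _ (List.mem_append_left _ ?_))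
  rw [List.getD_eq_getElem _ _ (h1 ▸ hp)]
  exact List.getElem_mem _

lemma crej_pauli {σ : Sem} (hσ : σ ∈ V.sem) (a b : Fin V.N → Bool) (η : (Fin V.N → Bool) → ℂ) :
    V.crej σ a b (pauli a b η) = rej (mapCirc (V.site σ) σ.2.2.1) (mapPat (V.site σ) σ.2.2.2) η := by
  obtain ⟨h1, h2, -, h4, h5, -⟩ := V.sem_wf σ hσ
  have hm : ∀ p < 5, V.site σ p ∈ (List.range 5).map (V.site σ) := fun p hp =>
    List.mem_map_of_mem (List.mem_range.mpr hp)
  refine rej_corr _ (List.nodup_range.map_on fun p hp p' hp' h => ?_) _ _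
    (List.forall_mem_map.mpr fun g hg => ⟨hm _ (h4 g hg).1,
      (forall_mapPat _ _ _).mpr fun c hc => hm _ ((h4 g hg).2 c hc)⟩)
    ((forall_mapPat _ _ _).mpr fun c hc => hm _ (h5 c hc)) a b η
  rw [List.mem_range] at hp hp'
  have := congrArg Fin.val h
  rw [site_val hσ hp, site_val hσ hp', List.getD_eq_getElem _ _ (h1 ▸ hp),
    List.getD_eq_getElem _ _ (h1 ▸ hp')] at this
  exact (List.nodup_append.mp h2).1.getElem_inj_iff.mp this

lemma rej_etest {σ : Sem} (hσ : σ ∈ V.sem) (Φ : (Fin V.N ⊕ Fin V.M → Bool) → ℂ) :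
    rej (mapCirc (V.place (V.etest σ)) (V.etest σ).2.2.2.1)
      (mapPat (V.place (V.etest σ)) (V.etest σ).2.2.2.2) Φ = ∑ κ : Fin V.M → Bool,
      if κ 0 = true then V.crej σ (κ ∘ V.ka) (κ ∘ V.kb) (slice Φ κ) else 0 := by
  obtain ⟨h1, -, -, h4, h5, -⟩ := V.sem_wf σ hσ
  have e : ∀ p < 5, V.place (V.etest σ) p = .inl (V.site σ p) ∧
      V.place (V.etest σ) (12 + p) = .inr (V.ka (V.site σ p)) ∧
      V.place (V.etest σ) (17 + p) = .inr (V.kb (V.site σ p)) := fun p hp => by
    rw [ka, kb, site_val hσ hp, site]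
    obtain ⟨w, s, r⟩ := σ
    match s, h1 with
    | [_, _, _, _, _], _ => interval_cases p <;> exact ⟨rfl, rfl, rfl⟩
  refine Eq.trans ?_ (rej_slice _ V.ka V.kb 0 true _ _ Φ)
  congr 1
  · rw [show (V.etest σ).2.2.2.1 = cc ++ σ.2.2.1 from rfl, mapCirc_append, mapCirc_mapCirc]
    congr 1
    · rw [cc, mapCirc, List.map_flatMap, List.flatMap_map]
      refine List.flatMap_congr fun p hp => ?_
      obtain ⟨e1, e2, e3⟩ := e p (List.mem_range.mp hp)
      simp only [List.map_cons, List.map_nil, mapPat, ccorr, e1, e2, e3]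
    · exact mapCirc_congr fun g hg => ⟨(e _ (h4 g hg).1).1, fun c hc => (e _ ((h4 g hg).2 c hc)).1⟩
  · rw [mapPat_mapPat]
    exact congrArg₂ List.cons rfl (mapPat_congr fun c hc => (e _ (h5 c hc)).1)

lemma eloss_eq (Φ : (Fin V.N ⊕ Fin V.M → Bool) → ℂ) : V.eloss Φ = ∑ κ : Fin V.M → Bool,
    if κ 0 = true then
      (V.sem.map fun σ => (σ.1 : ℝ) * V.crej σ (κ ∘ V.ka) (κ ∘ V.kb) (slice Φ κ)).sum
    else nsq (slice Φ κ) := by
  have h := rej_slice [] V.ka V.kb 0 false [] [] Φ
  have h' : ∀ (l : List Sem) (f : Sem → (Fin V.M → Bool) → ℝ),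
      (l.map fun σ => ∑ κ, f σ κ).sum = ∑ κ, (l.map fun σ => f σ κ).sum := fun l f => by
    induction l with
    | nil => simp
    | cons σ l ih => simp only [List.map_cons, List.sum_cons, ih, Finset.sum_add_distrib]
  rw [eloss, etests, List.map_cons, List.sum_cons, List.map_map]
  refine (congrArg₂ (· + ·) ((congrArg₂ (· * ·) Nat.cast_one h).trans (one_mul _))
    (congrArg List.sum (List.map_congr_left fun σ hσ =>
      congrArg ((σ.1 : ℝ) * ·) (rej_etest hσ Φ)))).trans ?_
  simp only [Finset.mul_sum]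
  rw [h', ← Finset.sum_add_distrib]
  refine Finset.sum_congr rfl fun κ _ => ?_
  cases κ 0 <;> simp [rej_eq, nsq]

theorem eloss_no (h : ∀ ψ, V.Input ψ → V.acc ψ ≤ 1 / 3) (Φ : (Fin V.N ⊕ Fin V.M → Bool) → ℂ) :
    nsq Φ ≤ V.eloss Φ := by
  rw [eloss_eq, nsq, sum_slice]
  refine Finset.sum_le_sum fun κ _ => ?_
  change nsq (slice Φ κ) ≤ _
  split_ifs
  · obtain ⟨η, hη⟩ := pauli_surj (κ ∘ V.ka) (κ ∘ V.kb) (slice Φ κ)
    rw [← hη, nsq_pauli, List.map_congr_left fun σ hσ =>
      congrArg ((σ.1 : ℝ) * ·) (crej_pauli hσ _ _ η)]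
    exact V.energy_no h η
  · exact le_rfl

variable (V) in
/-- The keys with prescribed values. -/
def key (γ : Bool) (a b : Fin V.N → Bool) (u : Fin V.M) : Bool :=
  if u = 0 then γ else if (u : ℕ) ≤ V.N then a (Fin.ofNat V.N (u - 1))
  else b (Fin.ofNat V.N (u - 1 - V.N))

lemma key_ka (γ : Bool) (a b : Fin V.N → Bool) : V.key γ a b ∘ V.ka = a := by
  funext s
  have h : (V.ka s : ℕ) = 1 + s := Nat.mod_eq_of_lt (by have := s.2; unfold M; omega)
  rw [comp_apply, key, if_neg fun e => by rw [e, Fin.val_zero] at h; omega, h, if_pos (by omega),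
    Nat.add_sub_cancel_left, Fin.ofNat_val_eq_self]

lemma key_kb (γ : Bool) (a b : Fin V.N → Bool) : V.key γ a b ∘ V.kb = b := by
  funext s
  have h : (V.kb s : ℕ) = 1 + V.N + s := Nat.mod_eq_of_lt (by have := s.2; unfold M; omega)
  rw [comp_apply, key, if_neg fun e => by rw [e, Fin.val_zero] at h; omega, h, if_neg (by omega),
    show 1 + V.N + s - 1 - V.N = s by omega, Fin.ofNat_val_eq_self]

variable (V) in
/-- The total weight of the energy tests. -/
def WE : ℕ := (V.etests.map fun t => t.1).sum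

theorem eloss_yes {η φ : (Fin V.N → Bool) → ℂ} (hη : nsq η = 1) (γ : Bool) (a b : Fin V.N → Bool)
    {d : ℝ} (hd : 0 ≤ d) (hd1 : d ≤ 1) (h : γ = true → nsq (φ - pauli a b η) ≤ d ^ 2) :
    V.eloss (label φ (V.key γ a b)) ≤ if γ = true then V.energy η + 3 * d * V.WE else nsq φ := by
  rw [eloss_eq, Finset.sum_eq_single (V.key γ a b)]
  · rw [slice_label, if_pos rfl, key_ka, key_kb, show V.key γ a b 0 = γ from if_pos rfl]
    split_ifs with hγ
    · have : (V.WE : ℝ) = 1 + (V.sem.map fun σ => (σ.1 : ℝ)).sum := by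
        simp [WE, etests, etest, comp_def]
      rw [this, energy, mul_add, ← List.sum_map_mul_left, add_left_comm, ← List.sum_map_add]
      refine le_add_of_nonneg_of_le (by positivity) (List.sum_le_sum fun σ hσ => ?_)
      rw [← crej_pauli hσ a b η, mul_comm (3 * d), ← mul_add]
      refine mul_le_mul_of_nonneg_left (sq_le_add_three (rej_nonneg _ _ _) (rej_nonneg _ _ _)
        ((rej_le _ _ _).trans_eq ((nsq_pauli ..).trans hη)) hd hd1
        ((sqrt_rej_le _ _ _ _).trans (add_le_add le_rfl (nrm_le_of_nsq_le hd (h hγ)))))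
        (Nat.cast_nonneg _)
    · exact le_rfl
  · intro κ _ hκ
    simp [slice_label, hκ, crej, rej_zero', nsq]
  · simp

end Verifier

end Pool.Agent.MP_d439b8_lc.H96
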