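import Pool.Agent.MP_d439b8_lc.H96.Gates

/-!
Sequential extraction with four outcome instruments that can be mirrored by the other player.
-/

namespace Pool.Agent.MP_d439b8_lc.H96

open Function

/-- Outcomes: the extracted bit and a junk bit. -/
abbrev O : Type := Bool × Bool

variable {J : Type} [Fintype J] [DecidableEq J] {E : Type} [NormedAddCommGroup E]
  [NormedSpace ℂ E]

/-- A family of Kraus operators, scaled by `2`. -/
def Inst (k : O → Module.End ℂ E) : Prop := ∀ v, ∑ o, ‖k o v‖ ^ 2 = 4 * ‖v‖ ^ 2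

/-- Applying the operator selected by the outcome at `p.1`. -/
def M (p : J × (O → Module.End ℂ E)) (F : (J → O) → E) : (J → O) → E :=
  fun ω => p.2 (ω p.1) (F ω)

/-- Applying a list of instruments from left to right. -/
def W (l : List (J × (O → Module.End ℂ E))) (F : (J → O) → E) : (J → O) → E :=
  l.foldl (fun F p => M p F) F

/-- Independence of the outcome at `j`. -/
def Indep (j : J) (F : (J → O) → E) : Prop := ∀ ω o, F (update ω j o) = F ω

/-- An instrument of the first player that is mirrored by `k'` on `ψ`. -/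
structure Good (ψ : E) (δ : ℝ) (A : Set (Module.End ℂ E)) (k' κ : O → Module.End ℂ E) : Prop where
  inst : Inst κ
  mem : ∀ o, κ o ∈ A
  close : ∀ o, ‖κ o ψ - k' o ψ‖ ≤ δ

omit [Fintype J] [DecidableEq J] in
theorem W_append (l l' : List (J × (O → Module.End ℂ E))) (F : (J → O) → E) :
    W (l ++ l') F = W l' (W l F) := List.foldl_append

omit [Fintype J] [DecidableEq J] in
theorem W_cons (p : J × (O → Module.End ℂ E)) (l : List (J × (O → Module.End ℂ E)))
    (F : (J → O) → E) : W (p :: l) F = W l (M p F) := rfl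

omit [Fintype J] [DecidableEq J] in
theorem M_sub (p : J × (O → Module.End ℂ E)) (F G : (J → O) → E) :
    M p (F - G) = M p F - M p G := by
  funext ω
  simp [M]

omit [Fintype J] [DecidableEq J] in
theorem W_sub (l : List (J × (O → Module.End ℂ E))) (F G : (J → O) → E) :
    W l (F - G) = W l F - W l G := by
  induction l generalizing F G with
  | nil => rfl
  | cons p l ih => rw [W_cons, W_cons, W_cons, M_sub, ih]

omit [Fintype J] in
theorem Indep.M {j : J} {p : J × (O → Module.End ℂ E)} {F : (J → O) → E}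
    (hj : j ≠ p.1) (hF : Indep j F) : Indep j (M p F) := by
  intro ω o
  simp only [H96.M]
  rw [hF ω o, update_of_ne hj.symm]

omit [Fintype J] [NormedSpace ℂ E] in
theorem Indep.sub {j : J} {F G : (J → O) → E} (hF : Indep j F) (hG : Indep j G) :
    Indep j (F - G) := by
  intro ω o
  simp only [Pi.sub_apply]
  rw [hF ω o, hG ω o]

omit [Fintype J] [NormedAddCommGroup E] [NormedSpace ℂ E] in
theorem indep_const (j : J) (ψ : E) : Indep j (fun _ : J → O => ψ) := fun _ _ => rfl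

omit [Fintype J] in
theorem Indep.W {j : J} {l : List (J × (O → Module.End ℂ E))} {F : (J → O) → E}
    (hj : j ∉ l.map Prod.fst) (hF : Indep j F) : Indep j (W l F) := by
  induction l generalizing F with
  | nil => exact hF
  | cons p l ih =>
    rw [List.map_cons, List.mem_cons, not_or] at hj
    rw [W_cons]
    exact ih hj.2 (hF.M hj.1)

theorem nsq_M {p : J × (O → Module.End ℂ E)} {F : (J → O) → E} (hi : Inst p.2)
    (hF : Indep p.1 F) : nsq (M p F) = nsq F := by
  have h1 := sum_update (fun ω : J → O => ‖M p F ω‖ ^ 2) p.1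
  have h2 : ∀ ω : J → O, ∑ o, ‖M p F (update ω p.1 o)‖ ^ 2 = 4 * ‖F ω‖ ^ 2 := by
    intro ω
    rw [← hi (F ω)]
    refine Finset.sum_congr rfl fun o _ => ?_
    simp only [M]
    rw [hF ω o, update_self]
  simp only [h2] at h1
  rw [← Finset.mul_sum] at h1
  have h3 : (Fintype.card O : ℝ) = 4 := by simp
  rw [h3] at h1
  unfold nsq
  linarith

theorem nsq_W {l : List (J × (O → Module.End ℂ E))} {F : (J → O) → E}
    (hl : (l.map Prod.fst).Nodup) (hi : ∀ p ∈ l, Inst p.2) (hF : ∀ p ∈ l, Indep p.1 F) :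
    nsq (W l F) = nsq F := by
  induction l generalizing F with
  | nil => rfl
  | cons p l ih =>
    rw [List.map_cons, List.nodup_cons] at hl
    rw [W_cons, ih hl.2 (fun q hq => hi q (List.mem_cons_of_mem _ hq)) fun q hq => ?_,
      nsq_M (hi p List.mem_cons_self) (hF p List.mem_cons_self)]
    refine (hF q (List.mem_cons_of_mem _ hq)).M fun h => hl.1 ?_
    rw [← h]
    exact List.mem_map_of_mem hq

omit [Fintype J] [DecidableEq J] in
theorem M_comm {p p' : J × (O → Module.End ℂ E)} (h : ∀ o o', Commute (p.2 o) (p'.2 o'))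
    (F : (J → O) → E) : M p (M p' F) = M p' (M p F) := by
  funext ω
  exact LinearMap.congr_fun (h (ω p.1) (ω p'.1)).eq (F ω)

omit [Fintype J] [DecidableEq J] in
theorem W_M_comm {l : List (J × (O → Module.End ℂ E))} {p' : J × (O → Module.End ℂ E)}
    (h : ∀ p ∈ l, ∀ o o', Commute (p.2 o) (p'.2 o')) (F : (J → O) → E) :
    W l (M p' F) = M p' (W l F) := by
  induction l generalizing F with
  | nil => rfl
  | cons p l ih =>
    rw [W_cons, W_cons, M_comm (h p List.mem_cons_self),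
      ih fun q hq => h q (List.mem_cons_of_mem _ hq)]

omit [Fintype J] [DecidableEq J] in
theorem W_comm {l l' : List (J × (O → Module.End ℂ E))}
    (h : ∀ p ∈ l, ∀ p' ∈ l', ∀ o o', Commute (p.2 o) (p'.2 o')) (F : (J → O) → E) :
    W l (W l' F) = W l' (W l F) := by
  induction l' generalizing F with
  | nil => rfl
  | cons p' l' ih =>
    rw [W_cons, W_cons, ih fun p hp q hq => h p hp q (List.mem_cons_of_mem _ hq),
      W_M_comm fun p hp => h p hp p' List.mem_cons_self]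

theorem nrm_M_sub {p : J × (O → Module.End ℂ E)} {F G : (J → O) → E} (hi : Inst p.2)
    (hF : Indep p.1 F) (hG : Indep p.1 G) : nrm (M p F - M p G) = nrm (F - G) := by
  rw [← M_sub, nrm, nsq_M hi (hF.sub hG), nrm]

theorem nrm_W_sub {l : List (J × (O → Module.End ℂ E))} {F G : (J → O) → E}
    (hl : (l.map Prod.fst).Nodup) (hi : ∀ p ∈ l, Inst p.2) (hF : ∀ p ∈ l, Indep p.1 F)
    (hG : ∀ p ∈ l, Indep p.1 G) : nrm (W l F - W l G) = nrm (F - G) := by
  rw [← W_sub, nrm, nsq_W hl hi (fun p hp => (hF p hp).sub (hG p hp)), nrm]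

/-- The mirrored instruments in reverse order. -/
def mir (k' : J → O → Module.End ℂ E) (s : List J) : List (J × (O → Module.End ℂ E)) :=
  (s.map fun j => (j, k' j)).reverse

omit [Fintype J] [DecidableEq J] in
theorem W_mir_cons (k' : J → O → Module.End ℂ E) (j : J) (s : List J) (F : (J → O) → E) :
    W (mir k' (j :: s)) F = M (j, k' j) (W (mir k' s) F) := by
  rw [mir, List.map_cons, List.reverse_cons, W_append]
  rfl

omit [Fintype J] [DecidableEq J] in
theorem mem_mir_fst {k' : J → O → Module.End ℂ E} {s : List J} {j : J} :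
    j ∈ (mir k' s).map Prod.fst ↔ j ∈ s := by
  simp [mir]

omit [Fintype J] [DecidableEq J] in
theorem mem_mir {k' : J → O → Module.End ℂ E} {s : List J} {p : J × (O → Module.End ℂ E)}
    (h : p ∈ mir k' s) : p.1 ∈ s ∧ p.2 = k' p.1 := by
  simp only [mir, List.mem_reverse, List.mem_map] at h
  obtain ⟨j, hj, rfl⟩ := h
  exact ⟨hj, rfl⟩

theorem close_one {ψ : E} {δ : ℝ} (hδ : 0 ≤ δ) {A : Set (Module.End ℂ E)}
    {k' κ : O → Module.End ℂ E} (h : Good ψ δ A k' κ) (j : J) :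
    nrm (M (j, κ) (fun _ => ψ) - M (j, k') fun _ => ψ) ≤ δ * √(Fintype.card (J → O)) := by
  refine nrm_le_of_nsq_le (by positivity) ?_
  rw [mul_pow, Real.sq_sqrt (Nat.cast_nonneg _), nsq, mul_comm, ← nsmul_eq_mul,
    ← Finset.card_univ, ← Finset.sum_const]
  exact Finset.sum_le_sum fun ω _ => pow_le_pow_left₀ (norm_nonneg _) (h.close (ω j)) 2

section main

variable {ψ : E} {δ : ℝ} {A : Set (Module.End ℂ E)} {k' : J → O → Module.End ℂ E} {L : List J}

theorem chain (hcomm : ∀ a ∈ A, ∀ j ∈ L, ∀ o, Commute a (k' j o)) (hk' : ∀ j ∈ L, Inst (k' j))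
    {v : (J → O) → E} {η : ℝ} (l : List (J × (O → Module.End ℂ E)))
    (hl : (l.map Prod.fst).Nodup) (hl' : ∀ p ∈ l, p.1 ∈ L ∧ Good ψ δ A (k' p.1) p.2)
    (hv : ∀ p ∈ l, Indep p.1 v) (hη : ∀ p ∈ l, nrm (M p v - M (p.1, k' p.1) v) ≤ η) :
    nrm (W l v - W (mir k' (l.map Prod.fst)) v) ≤ l.length * η := by
  induction l with
  | nil => simp [mir, nrm, nsq]
  | cons p l ih =>
    rw [List.map_cons, List.nodup_cons] at hl
    have hp := hl' p List.mem_cons_self
    have hvp := hv p List.mem_cons_self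
    have ih' := ih hl.2 (fun q hq => hl' q (List.mem_cons_of_mem _ hq))
      (fun q hq => hv q (List.mem_cons_of_mem _ hq)) fun q hq => hη q (List.mem_cons_of_mem _ hq)
    have hne : ∀ q ∈ l, q.1 ≠ p.1 := fun q hq h => hl.1 (h ▸ List.mem_map_of_mem hq)
    have e1 : nrm (W l (M p v) - W l (M (p.1, k' p.1) v)) ≤ η := by
      rw [nrm_W_sub (F := M p v) (G := M (p.1, k' p.1) v) hl.2
        (fun q hq => (hl' q (List.mem_cons_of_mem _ hq)).2.inst)
        (fun q hq => (hv q (List.mem_cons_of_mem _ hq)).M (hne q hq))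
        fun q hq => (hv q (List.mem_cons_of_mem _ hq)).M (hne q hq)]
      exact hη p List.mem_cons_self
    have e2 : W l (M (p.1, k' p.1) v) = M (p.1, k' p.1) (W l v) :=
      W_M_comm (fun q hq o o' =>
        hcomm _ ((hl' q (List.mem_cons_of_mem _ hq)).2.mem o) _ hp.1 o') v
    have e3 : nrm (M (p.1, k' p.1) (W l v) - M (p.1, k' p.1) (W (mir k' (l.map Prod.fst)) v))
        ≤ l.length * η := by
      rw [nrm_M_sub (p := (p.1, k' p.1)) (F := W l v) (G := W (mir k' (l.map Prod.fst)) v)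
        (hk' _ hp.1) (hvp.W hl.1) (hvp.W fun h => hl.1 (mem_mir_fst.1 h))]
      exact ih'
    rw [W_cons, List.map_cons, W_mir_cons, List.length_cons]
    have := nrm_triangle (W l (M p v)) (W l (M (p.1, k' p.1) v))
      (M (p.1, k' p.1) (W (mir k' (l.map Prod.fst)) v))
    rw [e2] at this e1
    push_cast
    linarith

theorem chain_const (hδ : 0 ≤ δ) (hcomm : ∀ a ∈ A, ∀ j ∈ L, ∀ o, Commute a (k' j o))
    (hk' : ∀ j ∈ L, Inst (k' j)) (l : List (J × (O → Module.End ℂ E)))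
    (hl : (l.map Prod.fst).Nodup) (hl' : ∀ p ∈ l, p.1 ∈ L ∧ Good ψ δ A (k' p.1) p.2) :
    nrm (W l (fun _ => ψ) - W (mir k' (l.map Prod.fst)) fun _ => ψ) ≤
      l.length * (δ * √(Fintype.card (J → O))) :=
  chain hcomm hk' l hl hl' (fun p _ => indep_const p.1 ψ)
    fun p hp => close_one hδ (hl' p hp).2 p.1

theorem chain_two (hδ : 0 ≤ δ) (hcomm : ∀ a ∈ A, ∀ j ∈ L, ∀ o, Commute a (k' j o))
    (hk' : ∀ j ∈ L, Inst (k' j)) {a b : J} (ha : a ∈ L) (hb : b ∈ L) (hab : a ≠ b)
    {κa κb : O → Module.End ℂ E} (hκa : Good ψ δ A (k' a) κa) (hκb : Good ψ δ A (k' b) κb) :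
    nrm (M (b, κb) (M (a, κa) fun _ => ψ) - M (a, k' a) (M (b, k' b) fun _ => ψ)) ≤
      2 * (δ * √(Fintype.card (J → O))) := by
  have := chain_const (ψ := ψ) hδ hcomm hk' [(a, κa), (b, κb)] (by simpa using hab) (by
    intro p hp
    simp only [List.mem_cons, List.not_mem_nil, or_false] at hp
    rcases hp with rfl | rfl
    · exact ⟨ha, hκa⟩
    · exact ⟨hb, hκb⟩)
  simpa [W, mir] using this

theorem pair_step (hδ : 0 ≤ δ) (hcomm : ∀ a ∈ A, ∀ j ∈ L, ∀ o, Commute a (k' j o))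
    (hk' : ∀ j ∈ L, Inst (k' j))
    (hpair : ∀ i ∈ L, ∀ j ∈ L, i ≠ j → ∃ κ₁ κ₂, Good ψ δ A (k' i) κ₁ ∧ Good ψ δ A (k' j) κ₂ ∧
      ∀ o o', Commute (κ₁ o) (κ₂ o'))
    {s j : J} (hs : s ∈ L) (hj : j ∈ L) (hsj : s ≠ j)
    {κs κj : O → Module.End ℂ E} (hκs : Good ψ δ A (k' s) κs) (hκj : Good ψ δ A (k' j) κj) :
    nrm (M (j, κj) (M (s, κs) fun _ => ψ) - M (j, k' j) (M (s, κs) fun _ => ψ)) ≤
      7 * (δ * √(Fintype.card (J → O))) := by
  obtain ⟨κ₁, κ₂, h₁, h₂, hc⟩ := hpair s hs j hj hsj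
  have e1 := chain_two hδ hcomm hk' hs hj hsj hκs hκj
  have e2 := chain_two hδ hcomm hk' hs hj hsj h₁ h₂
  have e3 := chain_two hδ hcomm hk' hj hs hsj.symm h₂ h₁
  rw [M_comm (p := (s, κ₁)) (p' := (j, κ₂)) hc] at e3
  have e4 : nrm (M (j, k' j) (M (s, k' s) fun _ => ψ) - M (j, k' j) (M (s, κs) fun _ => ψ)) ≤
      δ * √(Fintype.card (J → O)) := by
    rw [nrm_M_sub (hk' j hj) ((indep_const j ψ).M hsj.symm) ((indep_const j ψ).M hsj.symm),
      nrm_sub_comm]
    exact close_one hδ hκs s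
  rw [nrm_sub_comm] at e2
  have t1 := nrm_triangle (M (j, κj) (M (s, κs) fun _ => ψ))
    (M (s, k' s) (M (j, k' j) fun _ => ψ)) (M (j, k' j) (M (s, κs) fun _ => ψ))
  have t2 := nrm_triangle (M (s, k' s) (M (j, k' j) fun _ => ψ))
    (M (j, κ₂) (M (s, κ₁) fun _ => ψ)) (M (j, k' j) (M (s, κs) fun _ => ψ))
  have t3 := nrm_triangle (M (j, κ₂) (M (s, κ₁) fun _ => ψ))
    (M (j, k' j) (M (s, k' s) fun _ => ψ)) (M (j, k' j) (M (s, κs) fun _ => ψ))
  linarith

theorem move_step (hδ : 0 ≤ δ) (hcomm : ∀ a ∈ A, ∀ j ∈ L, ∀ o, Commute a (k' j o))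
    (hk' : ∀ j ∈ L, Inst (k' j))
    (hpair : ∀ i ∈ L, ∀ j ∈ L, i ≠ j → ∃ κ₁ κ₂, Good ψ δ A (k' i) κ₁ ∧ Good ψ δ A (k' j) κ₂ ∧
      ∀ o o', Commute (κ₁ o) (κ₂ o'))
    {s : J} (hs : s ∈ L) {κs : O → Module.End ℂ E} (hκs : Good ψ δ A (k' s) κs)
    (l : List (J × (O → Module.End ℂ E))) (hl : (l.map Prod.fst).Nodup)
    (hl' : ∀ p ∈ l, p.1 ∈ L ∧ Good ψ δ A (k' p.1) p.2) (hsl : s ∉ l.map Prod.fst) :
    nrm (M (s, κs) (W l fun _ => ψ) - W l (M (s, κs) fun _ => ψ)) ≤
      8 * l.length * (δ * √(Fintype.card (J → O))) := by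
  have hne : ∀ p ∈ l, p.1 ≠ s := fun p hp h => hsl (h ▸ List.mem_map_of_mem hp)
  have e1 : nrm (M (s, κs) (W l fun _ => ψ) - M (s, κs) (W (mir k' (l.map Prod.fst)) fun _ => ψ))
      ≤ l.length * (δ * √(Fintype.card (J → O))) := by
    rw [nrm_M_sub hκs.inst ((indep_const s ψ).W hsl)
      ((indep_const s ψ).W fun h => hsl (mem_mir_fst.1 h))]
    exact chain_const hδ hcomm hk' l hl hl'
  have e2 : W (mir k' (l.map Prod.fst)) (M (s, κs) fun _ => ψ)
      = M (s, κs) (W (mir k' (l.map Prod.fst)) fun _ => ψ) := by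
    refine W_M_comm (fun p hp o o' => ?_) _
    obtain ⟨h1, h2⟩ := mem_mir hp
    obtain ⟨q, hq, hq1⟩ := List.mem_map.1 h1
    rw [h2, ← hq1]
    exact (hcomm _ (hκs.mem o') _ (hl' q hq).1 o).symm
  have e3 := chain hcomm hk' (v := M (s, κs) fun _ => ψ) l hl hl'
    (fun p hp => (indep_const p.1 ψ).M (hne p hp))
    fun p hp => pair_step hδ hcomm hk' hpair hs (hl' p hp).1 (hne p hp).symm hκs (hl' p hp).2
  rw [e2, nrm_sub_comm] at e3
  have t := nrm_triangle (M (s, κs) (W l fun _ => ψ))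
    (M (s, κs) (W (mir k' (l.map Prod.fst)) fun _ => ψ)) (W l (M (s, κs) fun _ => ψ))
  linarith

omit [Fintype J] [DecidableEq J] in
theorem map_fst_map (k : J → O → Module.End ℂ E) (s : List J) :
    (s.map fun j => (j, k j)).map Prod.fst = s := by
  simp [Function.comp_def]

theorem move_front (hδ : 0 ≤ δ) (hcomm : ∀ a ∈ A, ∀ j ∈ L, ∀ o, Commute a (k' j o))
    (hk' : ∀ j ∈ L, Inst (k' j))
    (hpair : ∀ i ∈ L, ∀ j ∈ L, i ≠ j → ∃ κ₁ κ₂, Good ψ δ A (k' i) κ₁ ∧ Good ψ δ A (k' j) κ₂ ∧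
      ∀ o o', Commute (κ₁ o) (κ₂ o'))
    {k : J → O → Module.End ℂ E} (hk : ∀ j ∈ L, Good ψ δ A (k' j) (k j))
    (L' : List J) (hL' : L'.Nodup) (hsub : ∀ j ∈ L', j ∈ L) {s : J} (hs : s ∈ L') :
    nrm (W (L'.map fun j => (j, k j)) (fun _ => ψ) -
      W ((s :: L'.erase s).map fun j => (j, k j)) fun _ => ψ) ≤
      8 * L.length * (δ * √(Fintype.card (J → O))) := by
  have hlen : L'.length ≤ L.length := (List.subperm_of_subset hL' hsub).length_le
  obtain ⟨l1, l2, hs1, h12, her⟩ := List.exists_erase_eq hs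
  rw [her]
  subst h12
  have hnd := List.nodup_append.1 hL'
  have hnd2 := List.nodup_cons.1 hnd.2.1
  have hgood : ∀ (t : List J), (∀ j ∈ t, j ∈ L) →
      ∀ p ∈ t.map fun j => (j, k j), p.1 ∈ L ∧ Good ψ δ A (k' p.1) p.2 := by
    intro t ht p hp
    obtain ⟨j, hj, rfl⟩ := List.mem_map.1 hp
    exact ⟨ht j hj, hk j (ht j hj)⟩
  have hsL := hsub s hs
  have h1L : ∀ j ∈ l1, j ∈ L := fun j hj => hsub j (List.mem_append_left _ hj)
  have h2L : ∀ j ∈ l2, j ∈ L := fun j hj =>
    hsub j (List.mem_append_right _ (List.mem_cons_of_mem _ hj))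
  have e := move_step hδ hcomm hk' hpair hsL (hk s hsL) (l1.map fun j => (j, k j))
    (by rw [map_fst_map]; exact hnd.1) (hgood l1 h1L) (by rw [map_fst_map]; exact hs1)
  have hi : ∀ p ∈ l2.map fun j => (j, k j), p.1 ≠ s ∧
      p.1 ∉ (l1.map fun j => (j, k j)).map Prod.fst := by
    intro p hp
    obtain ⟨j, hj, rfl⟩ := List.mem_map.1 hp
    rw [map_fst_map]
    exact ⟨fun h => hnd2.1 (h ▸ hj), fun h => hnd.2.2 j h j (List.mem_cons_of_mem _ hj) rfl⟩
  rw [List.map_append, List.map_cons, List.map_cons, List.map_append, W_append, W_cons, W_cons,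
    W_append, nrm_W_sub (by rw [map_fst_map]; exact hnd2.2) (fun p hp => (hgood l2 h2L p hp).2.inst)
      (fun p hp => ((indep_const p.1 ψ).W (hi p hp).2).M (hi p hp).1)
      fun p hp => ((indep_const p.1 ψ).M (hi p hp).1).W (hi p hp).2]
  refine e.trans (mul_le_mul_of_nonneg_right ?_ (by positivity))
  rw [List.length_map]
  rw [List.length_append] at hlen
  have : (l1.length : ℝ) ≤ L.length := by exact_mod_cast (Nat.le_add_right _ _).trans hlen
  linarith

theorem move_list (hδ : 0 ≤ δ) (hL : L.Nodup) (hcomm : ∀ a ∈ A, ∀ j ∈ L, ∀ o, Commute a (k' j o))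
    (hk' : ∀ j ∈ L, Inst (k' j))
    (hpair : ∀ i ∈ L, ∀ j ∈ L, i ≠ j → ∃ κ₁ κ₂, Good ψ δ A (k' i) κ₁ ∧ Good ψ δ A (k' j) κ₂ ∧
      ∀ o o', Commute (κ₁ o) (κ₂ o'))
    {k : J → O → Module.End ℂ E} (hk : ∀ j ∈ L, Good ψ δ A (k' j) (k j))
    (S : List J) (hS : S.Nodup) (hsub : ∀ j ∈ S, j ∈ L) :
    nrm (W (L.map fun j => (j, k j)) (fun _ => ψ) -
      W ((S ++ L.filter fun j => j ∉ S).map fun j => (j, k j)) fun _ => ψ) ≤
      S.length * (8 * L.length * (δ * √(Fintype.card (J → O)))) := by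
  induction S with
  | nil => simp [nrm, nsq]
  | cons s S ih =>
    have hS' := List.nodup_cons.1 hS
    have ih' := ih hS'.2 fun j hj => hsub j (List.mem_cons_of_mem _ hj)
    have hnd : (S ++ L.filter fun j => j ∉ S).Nodup := by
      refine List.nodup_append.2 ⟨hS'.2, hL.filter _, fun a ha b hb hab => ?_⟩
      rw [List.mem_filter, decide_eq_true_eq] at hb
      exact hb.2 (hab ▸ ha)
    have hsub' : ∀ j ∈ (S ++ L.filter fun j => j ∉ S), j ∈ L := by
      intro j hj
      rcases List.mem_append.1 hj with h | h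
      · exact hsub j (List.mem_cons_of_mem _ h)
      · exact (List.mem_filter.1 h).1
    have hs : s ∈ (S ++ L.filter fun j => j ∉ S) :=
      List.mem_append_right _ (List.mem_filter.2 ⟨hsub s List.mem_cons_self, by simpa using hS'.1⟩)
    have e := move_front hδ hcomm hk' hpair hk _ hnd hsub' hs
    have her : (S ++ L.filter fun j => j ∉ S).erase s = S ++ L.filter fun j => j ∉ s :: S := by
      rw [List.erase_append_right _ hS'.1, (hL.filter _).erase_eq_filter, List.filter_filter]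
      congr 1
      refine List.filter_congr fun j _ => ?_
      by_cases h1 : j = s <;> by_cases h2 : j ∈ S <;> simp [h1, h2]
    rw [her, ← List.cons_append] at e
    have t := nrm_triangle (W (L.map fun j => (j, k j)) fun _ => ψ)
      (W ((S ++ L.filter fun j => j ∉ S).map fun j => (j, k j)) fun _ => ψ)
      (W ((s :: S ++ L.filter fun j => j ∉ s :: S).map fun j => (j, k j)) fun _ => ψ)
    rw [List.length_cons]
    push_cast
    linarith

end main

theorem rigid (ψ : E) (δ : ℝ) (hδ : 0 ≤ δ) (A : Set (Module.End ℂ E))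
    (k k' : J → O → Module.End ℂ E) (L : List J) (hL : L.Nodup)
    (hcomm : ∀ a ∈ A, ∀ j ∈ L, ∀ o, Commute a (k' j o)) (hk' : ∀ j ∈ L, Inst (k' j))
    (hk : ∀ j ∈ L, Good ψ δ A (k' j) (k j))
    (hpair : ∀ i ∈ L, ∀ j ∈ L, i ≠ j → ∃ κ₁ κ₂, Good ψ δ A (k' i) κ₁ ∧ Good ψ δ A (k' j) κ₂ ∧
      ∀ o o', Commute (κ₁ o) (κ₂ o'))
    (l : List (J × (O → Module.End ℂ E))) (hl : (l.map Prod.fst).Nodup)
    (hl' : ∀ p ∈ l, p.1 ∈ L ∧ Good ψ δ A (k' p.1) p.2) :
    nrm (W (L.map fun j => (j, k j)) (fun _ => ψ) -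
      W (l ++ (L.filter fun j => j ∉ l.map Prod.fst).map fun j => (j, k j)) fun _ => ψ) ≤
      (10 * l.length + 2) * L.length * δ * √(Fintype.card (J → O)) := by
  set S := l.map Prod.fst with hSdef
  set R := L.filter fun j => j ∉ S with hR
  have hSL : ∀ j ∈ S, j ∈ L := by
    intro j hj
    obtain ⟨p, hp, rfl⟩ := List.mem_map.1 hj
    exact (hl' p hp).1
  have e1 := move_list hδ hL hcomm hk' hpair hk S hl hSL
  have hnd : (S ++ R).Nodup := by
    refine List.nodup_append.2 ⟨hl, hL.filter _, fun a ha b hb hab => ?_⟩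
    rw [hR, List.mem_filter, decide_eq_true_eq] at hb
    exact hb.2 (hab ▸ ha)
  have hsub : ∀ j ∈ S ++ R, j ∈ L := by
    intro j hj
    rcases List.mem_append.1 hj with h | h
    · exact hSL j h
    · exact (List.mem_filter.1 h).1
  have hlen : ((S ++ R).length : ℝ) ≤ L.length := by
    exact_mod_cast (List.subperm_of_subset hnd hsub).length_le
  have e2 := chain_const (ψ := ψ) hδ hcomm hk' ((S ++ R).map fun j => (j, k j))
    (by rw [map_fst_map]; exact hnd) (by
      intro p hp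
      obtain ⟨j, hj, rfl⟩ := List.mem_map.1 hp
      exact ⟨hsub j hj, hk j (hsub j hj)⟩)
  have hfst : (l ++ R.map fun j => (j, k j)).map Prod.fst = S ++ R := by
    rw [List.map_append, map_fst_map]
  have e3 := chain_const (ψ := ψ) hδ hcomm hk' (l ++ R.map fun j => (j, k j))
    (by rw [hfst]; exact hnd) (by
      intro p hp
      rcases List.mem_append.1 hp with hp | hp
      · exact hl' p hp
      · obtain ⟨j, hj, rfl⟩ := List.mem_map.1 hp
        exact ⟨hsub j (List.mem_append_right _ hj), hk j (hsub j (List.mem_append_right _ hj))⟩)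
  have hlen3 : (l ++ R.map fun j => (j, k j)).length = (S ++ R).length := by
    rw [← hfst, List.length_map]
  rw [map_fst_map, List.length_map] at e2
  rw [hfst, hlen3, nrm_sub_comm] at e3
  have hSl : S.length = l.length := List.length_map _
  rw [hSl] at e1
  have t1 := nrm_triangle (W (L.map fun j => (j, k j)) fun _ => ψ)
    (W ((S ++ R).map fun j => (j, k j)) fun _ => ψ)
    (W (l ++ R.map fun j => (j, k j)) fun _ => ψ)
  have t2 := nrm_triangle (W ((S ++ R).map fun j => (j, k j)) fun _ => ψ)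
    (W (mir k' (S ++ R)) fun _ => ψ) (W (l ++ R.map fun j => (j, k j)) fun _ => ψ)
  have hr : 0 ≤ δ * √(Fintype.card (J → O)) := by positivity
  have h4 := mul_le_mul_of_nonneg_right hlen hr
  have h5 : 0 ≤ (l.length : ℝ) * (L.length * (δ * √(Fintype.card (J → O)))) := by positivity
  nlinarith

end Pool.Agent.MP_d439b8_lc.H96
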