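import Pool.Agent.MP_d439b8_lc.H96.Quest
import Pool.Agent.MP_d439b8_lc.H96.Rigid

/-!
Matrix units on one qubit, the two consistency estimates, and tests on extracted states.
-/

namespace Pool.Agent.MP_d439b8_lc.H96

open Function

set_option linter.unusedSectionVars false

variable {ι ι' : Type} [Fintype ι] [DecidableEq ι] [Fintype ι'] [DecidableEq ι']

/-- The operator `√2 |o.2⟩⟨o.1|` on the qubit `j`. -/
noncomputable def loc (j : ι) (o : O) (F : (ι → Bool) → ℂ) (x : ι → Bool) : ℂ :=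
  if x j = o.2 then (√2 : ℝ) * F (update x j o.1) else 0

lemma sum_update₂ (f : (ι → Bool) → ℝ) (i j : ι) :
    ∑ x, ∑ a, ∑ b, f (update (update x i a) j b) = 4 * ∑ x, f x := by
  have := sum_update (fun x => ∑ b, f (update x j b)) i
  rw [this, sum_update]
  simp only [Fintype.card_bool, Nat.cast_ofNat]
  ring

lemma nsq_loc (j : ι) (o : O) (F : (ι → Bool) → ℂ) :
    nsq (loc j o F) = ∑ x, ‖F (update x j o.1)‖ ^ 2 := by
  have h := sum_update (fun x => ‖loc j o F x‖ ^ 2) j
  have : ∀ x, ∑ b, ‖loc j o F (update x j b)‖ ^ 2 = 2 * ‖F (update x j o.1)‖ ^ 2 := fun x => by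
    obtain ⟨a, b⟩ := o
    cases b <;> simp [loc, mul_pow]
  simp only [this, ← Finset.mul_sum, Fintype.card_bool, Nat.cast_ofNat] at h
  rw [nsq]
  linarith

lemma sum_nsq_loc (j : ι) (s : O → O) (hs : (∀ o, (s o).1 = o.1) ∨ ∀ o, (s o).1 = o.2)
    (F : (ι → Bool) → ℂ) : ∑ o, nsq (loc j (s o) F) = 4 * nsq F := by
  have h := sum_update (fun x => ‖F x‖ ^ 2) j
  rw [Finset.sum_comm] at h
  simp only [Fintype.card_bool, Nat.cast_ofNat, Fintype.sum_bool] at h
  rcases hs with hs | hs <;>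
    simp only [nsq_loc, hs, Fintype.sum_prod_type, Fintype.sum_bool] <;> rw [nsq] <;> linarith

lemma rej_pair {i j : ι} (hij : i ≠ j) (C : List (Gate ι)) (v w : Bool) (F : (ι → Bool) → ℂ) :
    4 * rej C [(i, v), (j, w)] F = ∑ x, ‖run C F (update (update x i v) j w)‖ ^ 2 := by
  rw [rej_eq, ← sum_update₂ _ i j]
  refine Finset.sum_congr rfl fun x _ => ?_
  cases v <;> cases w <;> simp [hij]

lemma run_HH {i j : ι} (hij : i ≠ j) (F : (ι → Bool) → ℂ) (x : ι → Bool) (v w : Bool) :
    run [([], 1, i), ([], 1, j)] F (update (update x i v) j w) =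
      ∑ b, ∑ a, op 1 w b * op 1 v a * F (update (update x i a) j b) := by
  simp only [run_cons, run_nil, app, List.not_mem_nil, false_imp_iff, imp_true_iff, if_true,
    update_self, update_idem, smul_eq_mul, Finset.mul_sum, update_of_ne hij,
    update_comm hij.symm, mul_assoc]

lemma bell {i j : ι} (hij : i ≠ j) (o : O) (F : (ι → Bool) → ℂ) :
    nsq (loc i o F - loc j o.swap F) ≤ 4 * ∑ v, (rej [] [(i, v), (j, !v)] F +
      rej [([], 1, i), ([], 1, j)] [(i, v), (j, !v)] F) := by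
  have h := sum_update₂ (fun x => ‖(loc i o F - loc j o.swap F) x‖ ^ 2) i j
  simp only [Finset.mul_sum, mul_add, rej_pair hij, run_nil, run_HH hij]
  rw [nsq, ← mul_le_mul_iff_right₀ (by norm_num : (0 : ℝ) < 4), ← h]
  simp only [← Finset.sum_add_distrib]
  rw [Finset.sum_comm (γ := Bool), Finset.mul_sum]
  refine Finset.sum_le_sum fun x _ => ?_
  have h2 : ((√2 : ℝ) : ℂ) * ((√2 : ℝ) : ℂ) = 2 := by
    rw [← Complex.ofReal_mul, Real.mul_self_sqrt zero_le_two]
    simp
  have h3 : ((√2 : ℝ) : ℂ) ≠ 0 := by simp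
  obtain ⟨p, hp⟩ : ∃ p, F (update (update x i false) j false) = p := ⟨_, rfl⟩
  obtain ⟨q, hq⟩ : ∃ p, F (update (update x i false) j true) = p := ⟨_, rfl⟩
  obtain ⟨r, hr⟩ : ∃ p, F (update (update x i true) j false) = p := ⟨_, rfl⟩
  obtain ⟨s, hs⟩ : ∃ p, F (update (update x i true) j true) = p := ⟨_, rfl⟩
  have e1 : ∑ b, ∑ a, op 1 true b * op 1 false a * F (update (update x i a) j b) =
      (p - q + r - s) / 2 := by
    simp only [Fintype.sum_bool, op, hp, hq, hr, hs]
    field_simp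
    simp [sq, h2]
    ring
  have e2 : ∑ b, ∑ a, op 1 false b * op 1 true a * F (update (update x i a) j b) =
      (p + q - r - s) / 2 := by
    simp only [Fintype.sum_bool, op, hp, hq, hr, hs]
    field_simp
    simp [sq, h2]
    ring
  have e3 : ‖p - s‖ ^ 2 ≤ 2 * ‖(p - q + r - s) / 2‖ ^ 2 + 2 * ‖(p + q - r - s) / 2‖ ^ 2 := by
    have := norm_add_le ((p - q + r - s) / 2) ((p + q - r - s) / 2)
    rw [show (p - q + r - s) / 2 + (p + q - r - s) / 2 = p - s by ring] at this
    nlinarith [norm_nonneg (p - s), sq_nonneg (‖(p - q + r - s) / 2‖ - ‖(p + q - r - s) / 2‖)]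
  have e4 : ‖s - p‖ = ‖p - s‖ := norm_sub_rev _ _
  conv_rhs => rw [Fintype.sum_bool]
  simp only [Bool.not_true, Bool.not_false, e1, e2, hq, hr]
  generalize ‖(p - q + r - s) / 2‖ = A at *
  generalize ‖(p + q - r - s) / 2‖ = B at *
  obtain ⟨a, b⟩ := o
  cases a <;> cases b <;>
    simp [loc, hij, hij.symm, update_comm hij.symm, ← mul_sub, mul_pow, hp, hq, hr, hs, e4] <;>
    nlinarith [sq_nonneg ‖q‖, sq_nonneg ‖r‖, sq_nonneg A, sq_nonneg B]

lemma bell_key {i j : ι} (hij : i ≠ j) (a : Bool) (F : (ι → Bool) → ℂ) :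
    nsq (loc i (a, a) F - loc j (a, a) F) ≤ 2 * ∑ v, rej [] [(i, v), (j, !v)] F := by
  have h := sum_update₂ (fun x => ‖(loc i (a, a) F - loc j (a, a) F) x‖ ^ 2) i j
  rw [nsq, ← mul_le_mul_iff_right₀ (by norm_num : (0 : ℝ) < 4), ← h, mul_left_comm,
    Finset.mul_sum]
  simp only [rej_pair hij, run_nil]
  rw [Finset.sum_comm (γ := Bool), Finset.mul_sum]
  refine Finset.sum_le_sum fun x _ => ?_
  cases a <;>
    simp [loc, hij, hij.symm, update_comm hij.symm, mul_pow] <;> linarith

lemma foldl_loc (l : List ι) (hl : l.Nodup) (o : ι → O) (F : (ι → Bool) → ℂ) (x : ι → Bool) :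
    l.foldl (fun F j => loc j (o j) F) F x = if ∀ j ∈ l, x j = (o j).2 then
      ((√2 : ℝ) : ℂ) ^ l.length * F (fun j => if j ∈ l then (o j).1 else x j) else 0 := by
  induction l generalizing F with
  | nil => simp
  | cons j l ih =>
    rw [List.nodup_cons] at hl
    have : update (fun i => if i ∈ l then (o i).1 else x i) j (o j).1 =
        fun i => if i ∈ j :: l then (o i).1 else x i := by
      funext i
      by_cases h : i = j <;> simp [h]
    rw [List.foldl_cons, ih hl.2, loc, this]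
    simp only [hl.1, if_false, List.forall_mem_cons, List.length_cons, pow_succ]
    by_cases h1 : x j = (o j).2 <;> simp [h1, mul_assoc]

lemma sum_comp_inj {Q : ι → ι'} (hQ : Injective Q) (f : (ι → Bool) → ℝ) :
    2 ^ Fintype.card ι * ∑ x : ι' → Bool, f (x ∘ Q) = 2 ^ Fintype.card ι' * ∑ z, f z := by
  have : Involutive fun p : (ι' → Bool) × (ι → Bool) => (extend Q p.2 p.1, p.1 ∘ Q) := fun p => by
    refine Prod.ext (funext fun j => ?_) (extend_comp hQ _ _)
    by_cases h : ∃ i, Q i = j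
    · obtain ⟨i, rfl⟩ := h
      simp [hQ.extend_apply]
    · simp [extend_apply' _ _ _ h]
  have h := Fintype.sum_bijective _ this.bijective (fun p => f (p.1 ∘ Q)) (fun p => f p.2)
    fun _ => rfl
  simpa [Fintype.sum_prod_type, Finset.mul_sum] using h

variable {E : Type} [NormedAddCommGroup E] [InnerProductSpace ℂ E]

/-- A test acting on the extracted bits. -/
noncomputable def tst (C : List (Gate ι)) (π : List (ι × Bool)) (G : (ι → O) → E) (ω : ι → O) : E :=
  cut π (run C fun x => G fun j => (x j, (ω j).2)) fun j => (ω j).1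

lemma tst_sub (C : List (Gate ι)) (π : List (ι × Bool)) (G G' : (ι → O) → E) :
    tst C π (G - G') = tst C π G - tst C π G' := by
  funext ω
  rw [Pi.sub_apply, tst, tst, tst, ← Pi.sub_apply, ← cut_sub, ← run_sub]
  rfl

lemma sum_zip (f : (ι → O) → ℝ) :
    ∑ ω, f ω = ∑ x' : ι → Bool, ∑ x : ι → Bool, f fun j => (x j, x' j) := by
  rw [Finset.sum_comm, ← Fintype.sum_prod_type',
    ← (Equiv.arrowProdEquivProdArrow ι (fun _ => Bool) fun _ => Bool).symm.sum_comp]
  rfl

lemma nsq_tst (C : List (Gate ι)) (π : List (ι × Bool)) (G : (ι → O) → E) :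
    nsq (tst C π G) = ∑ x' : ι → Bool, rej C π fun x => G fun j => (x j, x' j) :=
  sum_zip _

lemma nsq_tst_le (C : List (Gate ι)) (π : List (ι × Bool)) (G : (ι → O) → E) :
    nsq (tst C π G) ≤ nsq G := by
  rw [nsq_tst, nsq, sum_zip]
  exact Finset.sum_le_sum fun x' _ => rej_le _ _ _

lemma tst_W (C : List (Gate ι)) (π : List (ι × Bool)) (l : List (ι × (O → Module.End ℂ E)))
    (h : ∀ p ∈ l, ∀ g ∈ C, g.2.2 ≠ p.1) (G : (ι → O) → E) :
    tst C π (W l G) = W l (tst C π G) := by
  induction l generalizing G with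
  | nil => rfl
  | cons p l ih =>
    refine (ih (fun p hp => h p (List.mem_cons_of_mem _ hp)) (M p G)).trans (congrArg (W l) ?_)
    funext ω
    simp only [tst, M]
    rw [run_linear C (fun x => p.2 (x p.1, (ω p.1).2)) fun g hg x b => by
      rw [update_of_ne (h p List.mem_cons_self g hg).symm]]
    simp only [cut]
    split_ifs <;> simp

end Pool.Agent.MP_d439b8_lc.H96
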