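import Pool.Agent.MP_d439b8_lc.H96.Gates

/-!
Questions, the consistency tests, and the rejection probability of a strategy.
-/

namespace Pool.Agent.MP_d439b8_lc.H96

open Function Matrix

/-- A question: eleven distinct qubits or eleven distinct keys. -/
abbrev Qn (N M : ℕ) : Type := (Fin 11 ↪ Fin N) ⊕ (Fin 11 ↪ Fin M)

/-- The qubits and keys behind the answer positions. -/
def joint {N M : ℕ} (q : Fin 11 ↪ Fin N) (q' : Fin 11 ↪ Fin M) : Fin (11 + 11) → Fin N ⊕ Fin M :=
  Fin.append (fun i => .inl (q i)) fun i => .inr (q' i)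

lemma joint_injective {N M : ℕ} (q : Fin 11 ↪ Fin N) (q' : Fin 11 ↪ Fin M) :
    Injective (joint q q') := by
  intro i j
  induction i using Fin.addCases <;> induction j using Fin.addCases <;>
    simp only [joint, Fin.append_left, Fin.append_right] <;> intro h
  · rw [q.injective (Sum.inl_injective h)]
  · exact absurd h Sum.inl_ne_inr
  · exact absurd h Sum.inr_ne_inl
  · rw [q'.injective (Sum.inr_injective h)]

/-- A state on the qubits together with a classical value of the keys. -/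
def label {N M : ℕ} (φ : (Fin N → Bool) → ℂ) (κ : Fin M → Bool) (x : Fin N ⊕ Fin M → Bool) : ℂ :=
  if (fun u => x (.inr u)) = κ then φ fun i => x (.inl i) else 0

/-- Consistency test in the computational basis. -/
def zt (w a b l l' : ℕ) (v : Bool) : Test := (w, a, b, [], [(l, v), (11 + l', !v)])

/-- Consistency test in the Hadamard basis. -/
def xt (w a b l l' : ℕ) (v : Bool) : Test :=
  (w, a, b, [([], 1, l), ([], 1, 11 + l')], [(l, v), (11 + l', !v)])

lemma ofNat_left (l : Fin 11) : Fin.ofNat (11 + 11) l = Fin.castAdd 11 l :=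
  Fin.ext (Nat.mod_eq_of_lt (by omega))

lemma ofNat_right (l : Fin 11) : Fin.ofNat (11 + 11) (11 + l) = Fin.natAdd 11 l :=
  Fin.ext (Nat.mod_eq_of_lt (by omega))

lemma nsq_mulVec {I : Type} [Fintype I] [DecidableEq I] (U : Matrix.unitaryGroup I ℂ)
    (ψ : I → ℂ) : nsq (U.1 *ᵥ ψ) = nsq ψ := by
  have h : ∀ φ : I → ℂ, (nsq φ : ℂ) = star φ ⬝ᵥ φ := fun φ => by
    simp [nsq, dotProduct, Complex.conj_mul']
  apply Complex.ofReal_injective
  rw [h, h, star_mulVec, dotProduct_mulVec, vecMul_vecMul, ← star_eq_conjTranspose, U.2.1,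
    vecMul_one]

lemma sum_split {DA DB : Type} [Fintype DA] [Fintype DB] (f : (Ans × DA) × (Ans × DB) → ℝ) :
    ∑ u, ∑ v, ∑ x : Fin (11 + 11) → Bool,
      f ((fun i => x (Fin.castAdd 11 i), u), (fun i => x (Fin.natAdd 11 i), v)) = ∑ z, f z := by
  have : ∀ u v, ∑ x : Fin (11 + 11) → Bool,
      f ((fun i => x (Fin.castAdd 11 i), u), (fun i => x (Fin.natAdd 11 i), v)) =
        ∑ α, ∑ β, f ((α, u), (β, v)) := fun u v => by
    rw [← Fintype.sum_prod_type', ← (Fin.appendEquiv 11 11).sum_comp]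
    simp only [Fin.appendEquiv, Equiv.coe_fn_mk, Fin.append_left, Fin.append_right]
  simp only [this, Fintype.sum_prod_type]
  rw [Finset.sum_comm (γ := Ans)]
  refine Finset.sum_congr rfl fun u _ => ?_
  rw [Finset.sum_comm]
  exact Finset.sum_congr rfl fun α _ => Finset.sum_comm

lemma Strategy.nsq_out (S : Strategy) (q r : ℕ) : ∑ u, ∑ v, nsq (S.out q r u v) = 1 := by
  rw [← S.unit, ← nsq_mulVec ⟨_, Matrix.kronecker_mem_unitary (S.U q).2 (S.V r).2⟩ S.ψ]
  exact sum_split fun z => ‖(Matrix.kronecker (S.U q).1 (S.V r).1 *ᵥ S.ψ) z‖ ^ 2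

lemma Strategy.one_sub_acc (S : Strategy) (t : Test) :
    1 - S.acc t = ∑ u, ∑ v, rej (mapCirc (Fin.ofNat (11 + 11)) t.2.2.2.1)
      (mapPat (Fin.ofNat (11 + 11)) t.2.2.2.2) (S.out t.2.1 t.2.2.1 u v) := by
  rw [← S.nsq_out t.2.1 t.2.2.1, Strategy.acc, ← Finset.sum_sub_distrib]
  refine Finset.sum_congr rfl fun u _ => ?_
  rw [← Finset.sum_sub_distrib]
  refine Finset.sum_congr rfl fun v _ => ?_
  rw [rej_eq, ← nsq_run (mapCirc (Fin.ofNat (11 + 11)) t.2.2.2.1), nsq, ← Finset.sum_sub_distrib]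
  refine Finset.sum_congr rfl fun x _ => ?_
  split_ifs <;> simp

lemma Strategy.acc_le_one (S : Strategy) (t : Test) : S.acc t ≤ 1 := by
  rw [← sub_nonneg, S.one_sub_acc]
  exact Finset.sum_nonneg fun _ _ => Finset.sum_nonneg fun _ _ => rej_nonneg _ _ _

lemma Strategy.acc_nonneg (S : Strategy) (t : Test) : 0 ≤ S.acc t :=
  Finset.sum_nonneg fun _ _ => Finset.sum_nonneg fun _ _ => Finset.sum_nonneg fun _ _ => by
    split_ifs <;> positivity

end Pool.Agent.MP_d439b8_lc.H96
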