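import Pool.Agent.MP_d439b8_lc.H96.Gates
import Pool.Agent.Shared.H56.More

/-!
The local tests of the circuit to Hamiltonian construction with a unary clock.
Qubits: `0, …, n - 1` work register, `n, …, n + 9` idle, `n + 10 + s` clock bit `s ≤ T + 1`.
-/

namespace Pool.Agent.MP_d439b8_lc.H96

/-- A local test: weight, five qubits, a circuit and a rejection pattern on positions `0..4`. -/
abbrev Sem : Type := ℕ × List ℕ × List (Gate ℕ) × List (ℕ × Bool)

namespace Verifier

variable (V : Verifier)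

/-- The number of gates. -/
abbrev T : ℕ := V.2.2.length

/-- The number of qubits of the history state. -/
abbrev N : ℕ := V.n + 10 + (V.T + 1) + 1

/-- The gates as (one qubit gate, target, control); control equal to target means no control. -/
def steps : List (ℕ × ℕ × ℕ) := V.2.2.map fun g =>
  if g.1 = 0 then (1, g.2.1 % V.n, g.2.1 % V.n) else if g.1 = 1 then (2, g.2.1 % V.n, g.2.1 % V.n)
  else (0, g.2.2 % V.n, g.2.1 % V.n)

/-- The weight of the penalty terms. -/
def J : ℕ := 4000 * (V.N * V.N * V.N)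

/-- The clock qubits. -/
def ck (s : ℕ) : ℕ := V.n + 10 + s

/-- A test without gates on the clock bits `s`, `s + 1` and the work qubit `j`. -/
def chk (w s j : ℕ) (π : List (ℕ × Bool)) : Sem :=
  (w, [V.ck s, V.ck (s + 1), j, V.n, V.n + 1], [], π)

/-- The propagation test for the step `p.1` from time `p.2` to time `p.2 + 1`. -/
def prop (p : (ℕ × ℕ × ℕ) × ℕ) : Sem :=
  (V.J, [V.ck p.2, V.ck (p.2 + 1), V.ck (p.2 + 2), p.1.2.1,
      if p.1.2.2 = p.1.2.1 then V.n else p.1.2.2],
    [((1, false) :: if p.1.2.2 = p.1.2.1 then [] else [(4, true)], p.1.1, 3), ([], 1, 1)],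
    [(0, true), (2, false), (1, true)])

/-- All local tests. -/
def sem : List Sem :=
  V.chk (2 * (V.T + 1)) V.T 0 [(0, true), (2, false)] :: V.chk V.J 0 0 [(0, false)] ::
    V.chk V.J V.T 0 [(1, true)] ::
    (V.steps.zipIdx.map V.prop ++
      ((List.range (V.T + 1)).map fun s => V.chk V.J s 0 [(0, false), (1, true)]) ++
      ((List.range V.n).filter fun j => decide (V.1.length ≤ j)).map fun j =>
        V.chk V.J 0 j [(1, false), (2, true)])

/-- Six further idle qubits. -/
def pads : List ℕ := [V.n + 2, V.n + 3, V.n + 4, V.n + 5, V.n + 6, V.n + 7]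

/-- The qubit at a position of a local test. -/
def site (σ : Sem) (l : ℕ) : Fin V.N := Fin.ofNat V.N (σ.2.1.getD l 0)

/-- The weighted sum of the rejected weights. -/
noncomputable def energy (φ : (Fin V.N → Bool) → ℂ) : ℝ :=
  (V.sem.map fun σ => (σ.1 : ℝ) *
    rej (mapCirc (V.site σ) σ.2.2.1) (mapPat (V.site σ) σ.2.2.2) φ).sum

theorem chk_wf {w s j : ℕ} {π : List (ℕ × Bool)} (hw : w ≤ V.J) (hs : s ≤ V.T) (hj : j < V.n)
    (hπ : ∀ c ∈ π, c.1 < 5) (σ : Sem) (hσ : σ = V.chk w s j π) :
    σ.2.1.length = 5 ∧ (σ.2.1 ++ V.pads).Nodup ∧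
    (∀ j ∈ σ.2.1 ++ V.pads, j < V.N) ∧ (∀ g ∈ σ.2.2.1, g.2.2 < 5 ∧ ∀ c ∈ g.1, c.1 < 5) ∧
    (∀ c ∈ σ.2.2.2, c.1 < 5) ∧ σ.1 ≤ V.J := by
  subst hσ
  refine ⟨rfl, ?_, ?_, ?_, hπ, hw⟩
  · simp only [chk, pads, ck, List.cons_append, List.nil_append, List.nodup_cons, List.mem_cons,
      List.not_mem_nil, List.nodup_nil, not_or, or_false, not_false_eq_true, and_true]
    omega
  · simp only [chk, pads, ck, N, List.cons_append, List.nil_append, List.forall_mem_cons,
      List.not_mem_nil, false_imp_iff, implies_true, and_true]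
    omega
  · simp [chk]

theorem steps_lt {g : ℕ × ℕ × ℕ} (hg : g ∈ V.steps) : g.2.1 < V.n ∧ g.2.2 < V.n := by
  obtain ⟨a, -, rfl⟩ := List.mem_map.1 hg
  have hn : 0 < V.n := Nat.succ_pos _
  split_ifs <;> exact ⟨Nat.mod_lt _ hn, Nat.mod_lt _ hn⟩

theorem sem_wf : ∀ σ ∈ V.sem, σ.2.1.length = 5 ∧ (σ.2.1 ++ V.pads).Nodup ∧
    (∀ j ∈ σ.2.1 ++ V.pads, j < V.N) ∧ (∀ g ∈ σ.2.2.1, g.2.2 < 5 ∧ ∀ c ∈ g.1, c.1 < 5) ∧
    (∀ c ∈ σ.2.2.2, c.1 < 5) ∧ σ.1 ≤ V.J := by
  intro σ hσ
  have hn : 0 < V.n := Nat.succ_pos _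
  simp only [sem, List.mem_cons, List.mem_append, List.mem_map, List.mem_filter, List.mem_range]
    at hσ
  rcases hσ with h | h | h | (⟨p, hp, h⟩ | ⟨s, hs, h⟩) | ⟨j, hj, h⟩
  · refine V.chk_wf ?_ le_rfl hn (by simp) σ h
    have h1 : V.T + 1 ≤ V.N := by simp only [N]; omega
    have h2 : 1 ≤ V.N * V.N := Nat.mul_pos (by omega) (by omega)
    have h3 : 1 * V.N ≤ V.N * V.N * V.N := Nat.mul_le_mul_right _ h2
    simp only [J]
    omega
  · exact V.chk_wf le_rfl (Nat.zero_le _) hn (by simp) σ h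
  · exact V.chk_wf le_rfl le_rfl hn (by simp) σ h
  · subst h
    obtain ⟨g, t⟩ := p
    have ht : t < V.T := by
      have := (List.mem_zipIdx hp).2.1
      simpa [steps] using this
    obtain ⟨h1, h2⟩ := V.steps_lt (List.fst_mem_of_mem_zipIdx hp)
    simp only at h1 h2
    refine ⟨rfl, ?_, ?_, ?_, by simp [prop], le_rfl⟩
    · simp only [prop, pads, ck, List.cons_append, List.nil_append, List.nodup_cons, List.mem_cons,
        List.not_mem_nil, List.nodup_nil, not_or, or_false, not_false_eq_true, and_true]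
      split_ifs <;> omega
    · simp only [prop, pads, ck, N, List.cons_append, List.nil_append, List.forall_mem_cons,
        List.not_mem_nil, false_imp_iff, implies_true, and_true]
      split_ifs <;> omega
    · simp only [prop]
      split_ifs <;> simp only [List.forall_mem_cons, List.not_mem_nil, false_imp_iff, implies_true,
        and_true] <;> omega
  · exact V.chk_wf le_rfl (by omega) hn (by simp) σ h.symm
  · exact V.chk_wf le_rfl (Nat.zero_le _) hj.1 (by simp) σ h.symm

end Verifier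

open Pool.Agent.Shared.H56 in
theorem pt_sem : PT fun V : Verifier => V.sem := by
  have h1 : PT fun V : Verifier => un (V.T + 1) :=
    PT.un_add (PT.un_length (by fun_prop)) (PT.const (un 1))
  have h2 : PT fun V : Verifier => un V.n :=
    PT.un_add (PT.un_add (PT.un_length (by fun_prop)) (PT.un_length (by fun_prop)))
      (PT.const (un 1))
  have h3 : PT fun V : Verifier => List.range (V.T + 1) := PT.range h1
  have h4 : PT fun V : Verifier => List.range V.n := PT.range h2
  have h5 : PT fun V : Verifier => V.steps := by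
    unfold Verifier.steps Verifier.n
    fun_prop
  have h6 : PT fun V : Verifier => V.J := by
    unfold Verifier.J Verifier.N Verifier.n Verifier.T
    fun_prop
  have h7 : PT fun p : Verifier × (ℕ × ℕ × ℕ) × ℕ => p.1.prop p.2 := by
    unfold Verifier.prop Verifier.ck Verifier.n
    fun_prop
  have h8 : PT fun p : Verifier × ℕ × ℕ × ℕ × List (ℕ × Bool) =>
      p.1.chk p.2.1 p.2.2.1 p.2.2.2.1 p.2.2.2.2 := by
    unfold Verifier.chk Verifier.ck Verifier.n
    fun_prop
  have h9 : PT fun V : Verifier => V.T := by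
    unfold Verifier.T
    fun_prop
  unfold Verifier.sem
  refine PT.cons (h8.comp (g := fun V : Verifier => (V, 2 * (V.T + 1), V.T, 0, [(0, true), (2, false)]))
    (by fun_prop)) (PT.cons (h8.comp (g := fun V : Verifier => (V, V.J, 0, 0, [(0, false)]))
    (by fun_prop)) (PT.cons (h8.comp (g := fun V : Verifier => (V, V.J, V.T, 0, [(1, true)]))
    (by fun_prop)) (PT.append (PT.append (PT.map h7 (by fun_prop)) (PT.map ?_ h3))
      (PT.map ?_ (PT.filter (by fun_prop) h4)))))
  · exact h8.comp (g := fun p : Verifier × ℕ => (p.1, p.1.J, p.2, 0, [(0, false), (1, true)]))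
      (by fun_prop)
  · exact h8.comp (g := fun p : Verifier × ℕ => (p.1, p.1.J, 0, p.2, [(1, false), (2, true)]))
      (by fun_prop)

end Pool.Agent.MP_d439b8_lc.H96
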