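import Pool.Agent.MP_d439b8_lc.H96.Local

/-!
The instruments of the two players and the consistency estimates.
-/

namespace Pool.Agent.MP_d439b8_lc.H96

open Function Matrix Kronecker

/-- The matrix of `loc` on an answer register with a private register. -/
noncomputable def locM (D : Type) [DecidableEq D] (l : Fin 11) (o : O) :
    Matrix (Ans × D) (Ans × D) ℂ :=
  fun y z => if y.1 l = o.2 ∧ z = (update y.1 l o.1, y.2) then (√2 : ℝ) else 0

namespace Strategy

variable (S : Strategy)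

/-- The joint space of the two players. -/
abbrev E : Type := EuclideanSpace ℂ ((Ans × S.DA) × (Ans × S.DB))

/-- A product of operators of the two players. -/
noncomputable def L (A : Matrix (Ans × S.DA) (Ans × S.DA) ℂ)
    (B : Matrix (Ans × S.DB) (Ans × S.DB) ℂ) : Module.End ℂ S.E := toLpLin 2 2 (A ⊗ₖ B)

lemma L_mul (A A' B B') : S.L A B * S.L A' B' = S.L (A * A') (B * B') := by
  rw [L, L, L, mul_kronecker_mul, toLpLin_mul_same]
  rfl

lemma L_L (A A' B B') (v : S.E) : S.L A B (S.L A' B' v) = S.L (A * A') (B * B') v := by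
  rw [← L_mul]
  rfl

lemma L_one (v : S.E) : S.L 1 1 v = v := by simp [L]

lemma L_commute (A B) : Commute (S.L A 1) (S.L 1 B) := by
  simp [Commute, SemiconjBy, L_mul]

lemma norm_sq_eq (v : S.E) : ‖v‖ ^ 2 = nsq v.ofLp := EuclideanSpace.norm_sq_eq v

lemma norm_L (U : unitaryGroup (Ans × S.DA) ℂ) (V : unitaryGroup (Ans × S.DB) ℂ) (v : S.E) :
    ‖S.L U.1 V.1 v‖ = ‖v‖ := by
  rw [← sq_eq_sq₀ (norm_nonneg _) (norm_nonneg _), norm_sq_eq, norm_sq_eq]
  exact nsq_mulVec ⟨_, kronecker_mem_unitary U.2 V.2⟩ _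

/-- Coordinates along the answer qubits. -/
def co (v : S.E) (u : S.DA) (w : S.DB) (x : Fin (11 + 11) → Bool) : ℂ :=
  v ((fun i => x (Fin.castAdd 11 i), u), (fun i => x (Fin.natAdd 11 i), w))

lemma norm_sq_co (v : S.E) : ‖v‖ ^ 2 = ∑ u, ∑ w, nsq (S.co v u w) := by
  rw [norm_sq_eq]
  exact (sum_split fun z => ‖v z‖ ^ 2).symm

lemma co_left (l : Fin 11) (o : O) (v : S.E) (u w) :
    S.co (S.L (locM _ l o) 1 v) u w = loc (Fin.castAdd 11 l) o (S.co v u w) := by
  funext x
  have h1 : (fun i => update x (Fin.castAdd 11 l) o.1 (Fin.castAdd 11 i)) =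
      update (fun i => x (Fin.castAdd 11 i)) l o.1 :=
    update_comp_eq_of_injective x (Fin.castAdd_injective 11 11) l o.1
  have h2 : (fun i => update x (Fin.castAdd 11 l) o.1 (Fin.natAdd 11 i)) =
      fun i => x (Fin.natAdd 11 i) := funext fun i => update_of_ne (by
    rw [Ne, Fin.ext_iff]
    simp only [Fin.val_natAdd, Fin.val_castAdd]
    omega) _ _
  simp only [co, loc, h1, h2, L, toLpLin_apply, mulVec, dotProduct, kroneckerMap_apply, locM,
    Fintype.sum_prod_type (α₁ := Ans × S.DA), one_apply]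
  split_ifs with h <;> simp [h]

lemma co_right (l : Fin 11) (o : O) (v : S.E) (u w) :
    S.co (S.L 1 (locM _ l o) v) u w = loc (Fin.natAdd 11 l) o (S.co v u w) := by
  funext x
  have h1 : (fun i => update x (Fin.natAdd 11 l) o.1 (Fin.natAdd 11 i)) =
      update (fun i => x (Fin.natAdd 11 i)) l o.1 :=
    update_comp_eq_of_injective x (Fin.natAdd_injective 11 11) l o.1
  have h2 : (fun i => update x (Fin.natAdd 11 l) o.1 (Fin.castAdd 11 i)) =
      fun i => x (Fin.castAdd 11 i) := funext fun i => update_of_ne (by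
    rw [Ne, Fin.ext_iff]
    simp only [Fin.val_natAdd, Fin.val_castAdd]
    omega) _ _
  simp only [co, loc, h1, h2, L, toLpLin_apply, mulVec, dotProduct, kroneckerMap_apply, locM,
    Fintype.sum_prod_type (α₁ := Ans × S.DA), one_apply]
  split_ifs with h <;> simp [h, -Fin.natAdd_eq_addNat]

/-- The shared state. -/
noncomputable def Ψ : S.E := WithLp.toLp 2 S.ψ

/-- The unitary applied for a pair of questions. -/
noncomputable def T (a b : ℕ) : Module.End ℂ S.E := S.L (S.U a).1 (S.V b).1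

lemma co_T (a b : ℕ) : S.co (S.T a b S.Ψ) = S.out a b := rfl

lemma norm_Ψ : ‖S.Ψ‖ = 1 := by
  rw [← sq_eq_sq₀ (norm_nonneg _) zero_le_one, norm_sq_eq, one_pow]
  exact S.unit

/-- An instrument of the first player. -/
noncomputable def kA (a : ℕ) (l : Fin 11) (s : O → O) (o : O) : Module.End ℂ S.E :=
  S.L (star (S.U a).1 * locM _ l (s o) * (S.U a).1) 1

/-- An instrument of the second player. -/
noncomputable def kB (b : ℕ) (l : Fin 11) (s : O → O) (o : O) : Module.End ℂ S.E :=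
  S.L 1 (star (S.V b).1 * locM _ l (s o) * (S.V b).1)

lemma T_kA (a b l s o) (v : S.E) :
    S.T a b (S.kA a l s o v) = S.L (locM _ l (s o)) 1 (S.T a b v) := by
  simp only [T, kA, L_L, ← mul_assoc, (S.U a).2.2, one_mul, mul_one]

lemma T_kB (a b l s o) (v : S.E) :
    S.T a b (S.kB b l s o v) = S.L 1 (locM _ l (s o)) (S.T a b v) := by
  simp only [T, kB, L_L, ← mul_assoc, (S.V b).2.2, one_mul, mul_one]

lemma norm_T (a b) (v : S.E) : ‖S.T a b v‖ = ‖v‖ := S.norm_L _ _ v

lemma T_injective (a b) : Injective (S.T a b) :=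
  (injective_iff_map_eq_zero _).mpr fun v h => by rw [← norm_eq_zero, ← S.norm_T a b, h, norm_zero]

lemma co_injective {v v' : S.E} (h : S.co v = S.co v') : v = v' := by
  rw [← sub_eq_zero, ← norm_eq_zero, ← pow_eq_zero_iff two_ne_zero, norm_sq_co]
  refine Finset.sum_eq_zero fun u _ => Finset.sum_eq_zero fun w _ =>
    Finset.sum_eq_zero fun x _ => ?_
  simpa [co, sub_eq_zero] using congrFun (congrFun (congrFun h u) w) x

lemma inst_kA (a l) {s : O → O} (hs : (∀ o, (s o).1 = o.1) ∨ ∀ o, (s o).1 = o.2) :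
    Inst (S.kA a l s) := fun v => by
  have h : ∀ o, ‖S.kA a l s o v‖ ^ 2 = ∑ u, ∑ w,
      nsq (loc (Fin.castAdd 11 l) (s o) (S.co (S.T a 0 v) u w)) := fun o => by
    rw [← S.norm_T a 0, T_kA, norm_sq_co]
    simp only [co_left]
  rw [← S.norm_T a 0 v, norm_sq_co]
  simp only [h]
  rw [Finset.sum_comm, Finset.mul_sum]
  refine Finset.sum_congr rfl fun u _ => ?_
  rw [Finset.sum_comm, Finset.mul_sum]
  exact Finset.sum_congr rfl fun w _ => sum_nsq_loc _ s hs _

lemma inst_kB (b l) {s : O → O} (hs : (∀ o, (s o).1 = o.1) ∨ ∀ o, (s o).1 = o.2) :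
    Inst (S.kB b l s) := fun v => by
  have h : ∀ o, ‖S.kB b l s o v‖ ^ 2 = ∑ u, ∑ w,
      nsq (loc (Fin.natAdd 11 l) (s o) (S.co (S.T 0 b v) u w)) := fun o => by
    rw [← S.norm_T 0 b, T_kB, norm_sq_co]
    simp only [co_right]
  rw [← S.norm_T 0 b v, norm_sq_co]
  simp only [h]
  rw [Finset.sum_comm, Finset.mul_sum]
  refine Finset.sum_congr rfl fun u _ => ?_
  rw [Finset.sum_comm, Finset.mul_sum]
  exact Finset.sum_congr rfl fun w _ => sum_nsq_loc _ s hs _

lemma loc_comm {ι : Type} [DecidableEq ι] {i j : ι} (h : i ≠ j) (o o' : O)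
    (F : (ι → Bool) → ℂ) : loc i o (loc j o' F) = loc j o' (loc i o F) := by
  funext x
  simp only [loc, update_of_ne h, update_of_ne h.symm, update_comm h]
  split_ifs <;> simp

lemma commute_kA (a) {l l' : Fin 11} (h : l ≠ l') (s o o') :
    Commute (S.kA a l s o) (S.kA a l' s o') :=
  LinearMap.ext fun v => S.T_injective a 0 (S.co_injective (by
    funext u w
    simp only [Module.End.mul_apply, T_kA, co_left]
    exact loc_comm ((Fin.castAdd_injective 11 11).ne h) _ _ _))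

lemma commute_kB (b) {l l' : Fin 11} (h : l ≠ l') (s o o') :
    Commute (S.kB b l s o) (S.kB b l' s o') :=
  LinearMap.ext fun v => S.T_injective 0 b (S.co_injective (by
    funext u w
    simp only [Module.End.mul_apply, T_kB, co_right]
    exact loc_comm ((Fin.natAdd_injective 11 11).ne h) _ _ _))

lemma left_ne_right (l l' : Fin 11) : Fin.castAdd 11 l ≠ Fin.natAdd 11 l' := by
  rw [Ne, Fin.ext_iff]
  simp only [Fin.val_natAdd, Fin.val_castAdd]
  omega

lemma norm_sub_sq (a b l l' s s' o) : ‖S.kA a l s o S.Ψ - S.kB b l' s' o S.Ψ‖ ^ 2 = ∑ u, ∑ w,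
    nsq (loc (Fin.castAdd 11 l) (s o) (S.out a b u w) -
      loc (Fin.natAdd 11 l') (s' o) (S.out a b u w)) := by
  rw [← S.norm_T a b, map_sub, T_kA, T_kB, norm_sq_co]
  simp only [← co_T, ← co_left, ← co_right]
  rfl

lemma rej_zt (w a b) (l l' : Fin 11) (v) : 1 - S.acc (zt w a b l l' v) = ∑ u, ∑ w,
    rej [] [(Fin.castAdd 11 l, v), (Fin.natAdd 11 l', !v)] (S.out a b u w) := by
  rw [one_sub_acc, ← ofNat_left, ← ofNat_right]
  rfl

lemma rej_xt (w a b) (l l' : Fin 11) (v) : 1 - S.acc (xt w a b l l' v) = ∑ u, ∑ w,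
    rej [([], 1, Fin.castAdd 11 l), ([], 1, Fin.natAdd 11 l')]
      [(Fin.castAdd 11 l, v), (Fin.natAdd 11 l', !v)] (S.out a b u w) := by
  rw [one_sub_acc, ← ofNat_left, ← ofNat_right]
  rfl

lemma close_qubit {ε : ℝ} (hε : 0 ≤ ε) {w a b : ℕ} {l l' : Fin 11}
    (h : ∀ v, 1 - S.acc (zt w a b l l' v) ≤ ε ^ 2 ∧ 1 - S.acc (xt w a b l l' v) ≤ ε ^ 2) (o : O) :
    ‖S.kA a l id o S.Ψ - S.kB b l' Prod.swap o S.Ψ‖ ≤ 4 * ε := by
  refine abs_le_of_sq_le_sq' ?_ (by positivity) |>.2
  have h1 := h true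
  have h2 := h false
  simp only [rej_zt, rej_xt] at h1 h2
  refine (S.norm_sub_sq ..).trans_le ((Finset.sum_le_sum fun u _ => Finset.sum_le_sum fun w _ =>
    bell (left_ne_right l l') o _).trans ?_)
  simp only [Fintype.sum_bool, ← Finset.mul_sum, Finset.sum_add_distrib]
  nlinarith [h1.1, h1.2, h2.1, h2.2]

lemma close_key {ε : ℝ} (hε : 0 ≤ ε) {w a b : ℕ} {l l' : Fin 11}
    (h : ∀ v, 1 - S.acc (zt w a b l l' v) ≤ ε ^ 2) (o : O) :
    ‖S.kB b l' (fun o => (o.1, o.1)) o S.Ψ - S.kA a l (fun o => (o.1, o.1)) o S.Ψ‖ ≤ 4 * ε := by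
  refine abs_le_of_sq_le_sq' ?_ (by positivity) |>.2
  have h1 := h true
  have h2 := h false
  simp only [rej_zt] at h1 h2
  rw [norm_sub_rev]
  refine (S.norm_sub_sq ..).trans_le ((Finset.sum_le_sum fun u _ => Finset.sum_le_sum fun w _ =>
    bell_key (left_ne_right l l') o.1 _).trans ?_)
  simp only [Fintype.sum_bool, ← Finset.mul_sum, Finset.sum_add_distrib]
  nlinarith [sq_nonneg ε]

end Strategy

end Pool.Agent.MP_d439b8_lc.H96
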