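import Pool.Agent.MP_d439b8_lc.H96.Ham
import Pool.Agent.MP_d439b8_lc.H96.Extract

/-!
The table of all tests.
-/

namespace Pool.Agent.MP_d439b8_lc.H96

open Function

/-- All lists of `k` distinct members of `L`. -/
def tup (L : List ℕ) : ℕ → List (List ℕ)
  | 0 => [[]]
  | k + 1 => (tup L k).flatMap fun l => (L.filter fun a => decide (a ∉ l)).map fun a => a :: l

lemma mem_tup {L : List ℕ} {k : ℕ} {l : List ℕ} :
    l ∈ tup L k ↔ l.length = k ∧ l.Nodup ∧ ∀ a ∈ l, a ∈ L := by
  induction k generalizing l with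
  | zero => cases l <;> simp [tup]
  | succ k ih =>
    simp only [tup, List.mem_flatMap, List.mem_map, List.mem_filter, decide_eq_true_eq, ih]
    constructor
    · rintro ⟨l, ⟨h1, h2, h3⟩, a, ⟨h4, h5⟩, rfl⟩
      exact ⟨by simp [h1], List.nodup_cons.mpr ⟨h5, h2⟩, List.forall_mem_cons.mpr ⟨h4, h3⟩⟩
    · rintro ⟨h1, h2, h3⟩
      obtain _ | ⟨a, l⟩ := l
      · simp at h1
      · rw [List.nodup_cons] at h2
        rw [List.forall_mem_cons] at h3
        exact ⟨l, ⟨by simpa using h1, h2.2, h3.2⟩, a, ⟨h3.1, h2.1⟩, rfl⟩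

/-- The list of values of an embedding. -/
def lst {n : ℕ} (q : Fin 11 ↪ Fin n) : List ℕ := List.ofFn fun i => (q i : ℕ)

lemma getD_lst {n : ℕ} (q : Fin 11 ↪ Fin n) (i : Fin 11) : (lst q).getD i 0 = q i := by
  rw [lst, List.getD_eq_getElem _ _ (by simp), List.getElem_ofFn]

lemma lst_injective {n : ℕ} : Injective (lst (n := n)) := fun q q' h =>
  DFunLike.ext _ _ fun i => Fin.ext (by rw [← getD_lst, h, getD_lst])

lemma mem_tup_iff {n : ℕ} {l : List ℕ} :
    l ∈ tup (List.range n) 11 ↔ ∃ q : Fin 11 ↪ Fin n, lst q = l := by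
  rw [mem_tup]
  constructor
  · rintro ⟨h1, h2, h3⟩
    refine ⟨⟨fun i => ⟨l[i], List.mem_range.mp (h3 _ (List.getElem_mem _))⟩, fun i j h =>
      Fin.ext (h2.getElem_inj_iff.mp (congrArg Fin.val h))⟩, ?_⟩
    exact List.ext_getElem (by simp [lst, h1]) fun i _ _ => by
      simp only [lst, List.getElem_ofFn]
      rfl
  · rintro ⟨q, rfl⟩
    exact ⟨by simp [lst], List.nodup_ofFn.mpr (Fin.val_injective.comp q.injective),
      List.forall_mem_ofFn_iff.mpr fun i => List.mem_range.mpr (q i).2⟩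

/-- A question as a list. -/
def encQ {N M : ℕ} : Qn N M → Bool × List ℕ :=
  Sum.elim (fun q => (false, lst q)) fun q => (true, lst q)

lemma encQ_injective {N M : ℕ} : Injective (encQ (N := N) (M := M)) := by
  rintro (q | q) (q' | q') h <;> simp only [encQ, Sum.elim_inl, Sum.elim_inr, Prod.mk.injEq] at h
  · rw [lst_injective h.2]
  · exact absurd h.1 (by decide)
  · exact absurd h.1 (by decide)
  · rw [lst_injective h.2]

/-- Two questions, positions with the same entry, and a bit. -/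
def quads (L : List ℕ) : List (List ℕ × List ℕ × ℕ × ℕ × Bool) :=
  (tup L 11 ×ˢ tup L 11 ×ˢ List.range 11 ×ˢ List.range 11 ×ˢ [true, false]).filter fun p =>
    decide (p.1.getD p.2.2.1 0 = p.2.1.getD p.2.2.2.1 0)

lemma mem_quads {n : ℕ} {p : List ℕ × List ℕ × ℕ × ℕ × Bool} : p ∈ quads (List.range n) ↔
    ∃ (q q' : Fin 11 ↪ Fin n) (l l' : Fin 11) (v : Bool), q l = q' l' ∧
      (lst q, lst q', l.1, l'.1, v) = p := by
  obtain ⟨a, b, i, j, v⟩ := p
  simp only [quads, List.mem_filter, List.mem_product, mem_tup_iff, List.mem_range,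
    decide_eq_true_eq]
  constructor
  · rintro ⟨⟨⟨q, rfl⟩, ⟨q', rfl⟩, hi, hj, -⟩, h⟩
    exact ⟨q, q', ⟨i, hi⟩, ⟨j, hj⟩, v,
      Fin.ext ((getD_lst q ⟨i, hi⟩).symm.trans (h.trans (getD_lst q' ⟨j, hj⟩))), rfl⟩
  · rintro ⟨q, q', l, l', v, h, ⟨⟩⟩
    exact ⟨⟨⟨q, rfl⟩, ⟨q', rfl⟩, l.2, l'.2, by cases v <;> simp⟩, by rw [getD_lst, getD_lst, h]⟩

/-- The consistency test in the computational basis. -/
def rz (w : ℕ) (β : Bool) (p : List ℕ × List ℕ × ℕ × ℕ × Bool) : RT :=
  (w, (β, p.1), (β, p.2.1), [], [(p.2.2.1, p.2.2.2.2), (11 + p.2.2.2.1, !p.2.2.2.2)])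

/-- The consistency test in the Hadamard basis. -/
def rx (w : ℕ) (p : List ℕ × List ℕ × ℕ × ℕ × Bool) : RT :=
  (w, (false, p.1), (false, p.2.1), [([], 1, p.2.2.1), ([], 1, 11 + p.2.2.2.1)],
    [(p.2.2.1, p.2.2.2.2), (11 + p.2.2.2.1, !p.2.2.2.2)])

/-- Numbering the questions. -/
def num (G : List RT) (t : RT) : Test :=
  (t.1, (G.map fun t => t.2.1).idxOf t.2.1, (G.map fun t => t.2.2.1).idxOf t.2.2.1, t.2.2.2)

lemma num_rz (G : List RT) (w β a b l l' v) : num G (rz w β (a, b, l, l', v)) =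
    zt w ((G.map fun t => t.2.1).idxOf (β, a)) ((G.map fun t => t.2.2.1).idxOf (β, b)) l l' v := rfl

lemma num_rx (G : List RT) (w a b l l' v) : num G (rx w (a, b, l, l', v)) =
    xt w ((G.map fun t => t.2.1).idxOf (false, a)) ((G.map fun t => t.2.2.1).idxOf (false, b))
      l l' v := rfl

/-- The weighted sum of the rejection probabilities. -/
noncomputable def Strategy.loss (S : Strategy) (G : List Test) : ℝ :=
  (G.map fun t => (t.1 : ℝ) * (1 - S.acc t)).sum

lemma Strategy.val_eq (S : Strategy) {G : List Test} (h : 0 < (G.map fun t => t.1).sum) :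
    S.val G = 1 - S.loss G / ((G.map fun t => t.1).sum : ℕ) := by
  rw [eq_sub_iff_add_eq, val, ← add_div, div_eq_one_iff_eq (Nat.cast_pos.mpr h).ne', loss,
    ← List.sum_map_add, Nat.cast_list_sum, List.map_map]
  exact congrArg List.sum (List.map_congr_left fun t _ => by simp only [comp_apply]; ring)

lemma Strategy.term_nonneg (S : Strategy) (t : Test) : 0 ≤ (t.1 : ℝ) * (1 - S.acc t) :=
  mul_nonneg (Nat.cast_nonneg _) (sub_nonneg.mpr (S.acc_le_one t))

lemma Strategy.loss_nonneg (S : Strategy) (G : List Test) : 0 ≤ S.loss G :=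
  List.sum_nonneg (List.forall_mem_map.mpr fun t _ => S.term_nonneg t)

lemma Strategy.le_loss (S : Strategy) {G : List Test} {t : Test} (h : t ∈ G) :
    (t.1 : ℝ) * (1 - S.acc t) ≤ S.loss G :=
  List.single_le_sum (List.forall_mem_map.mpr fun t _ => S.term_nonneg t) _ (List.mem_map_of_mem h)

lemma Strategy.loss_append (S : Strategy) (G G' : List Test) :
    S.loss (G ++ G') = S.loss G + S.loss G' := by simp [loss]

lemma sum_list_comm {α I : Type} [Fintype I] (l : List α) (f : α → I → ℝ) :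
    (l.map fun σ => ∑ κ, f σ κ).sum = ∑ κ, (l.map fun σ => f σ κ).sum := by
  induction l with
  | nil => simp
  | cons σ l ih => simp only [List.map_cons, List.sum_cons, ih, Finset.sum_add_distrib]

namespace Verifier

variable (V : Verifier)

/-- The inverse density of good labels. -/
def R : ℕ := 36 * V.WE * (36 * V.WE)

/-- The inverse precision of the consistency tests. -/
def k : ℕ := 448 * (V.N + V.M) * (36 * V.WE * V.R)

/-- The consistency tests. -/
def ctests : List RT :=
  (quads (List.range V.N)).map (rz (V.k * V.k) false) ++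
    (quads (List.range V.N)).map (rx (V.k * V.k)) ++
    (quads (List.range V.M)).map (rz (V.k * V.k) true)

/-- All tests. -/
def raw : List RT := V.etests ++ V.ctests

/-- The game. -/
def table : List Test := V.raw.map (num V.raw)

lemma le_N : 11 ≤ V.N := by simp only [N]; omega

lemma le_M : 11 ≤ V.M := V.le_N.trans (by simp only [M]; omega)

lemma WE_pos : 0 < V.WE := by simp [WE, etests]

lemma R_pos : 0 < V.R := by
  have := V.WE_pos
  unfold R
  positivity

variable {V}

lemma etests_wf {t : RT} (ht : t ∈ V.etests) : ∃ (q : Fin 11 ↪ Fin V.N) (q' : Fin 11 ↪ Fin V.M),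
    t.2.1 = encQ (.inl q : Qn V.N V.M) ∧ t.2.2.1 = encQ (.inr q' : Qn V.N V.M) ∧
    (∀ g ∈ t.2.2.2.1, g.2.2 < 11) ∧ joint q q' ∘ Fin.ofNat (11 + 11) = V.place t ∧ t.1 ≤ V.J := by
  have h : t.2.1.1 = false ∧ t.2.2.1.1 = true ∧ t.2.1.2 ∈ tup (List.range V.N) 11 ∧
      t.2.2.1.2 ∈ tup (List.range V.M) 11 ∧ (∀ g ∈ t.2.2.2.1, g.2.2 < 11) ∧ t.1 ≤ V.J := by
    have hN := V.le_N
    have hM := V.le_M
    rcases List.mem_cons.mp ht with rfl | ht
    · refine ⟨rfl, rfl, mem_tup.mpr ⟨rfl, List.nodup_range, fun a ha => ?_⟩,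
        mem_tup.mpr ⟨rfl, List.nodup_range, fun a ha => ?_⟩, by simp, Nat.succ_le_of_lt ?_⟩
      · exact List.mem_range.mpr ((List.mem_range.mp ha).trans_le hN)
      · exact List.mem_range.mpr ((List.mem_range.mp ha).trans_le hM)
      · unfold J
        positivity
    · obtain ⟨σ, hσ, rfl⟩ := List.mem_map.mp ht
      obtain ⟨h1, h2, h3, h4, -, h6⟩ := V.sem_wf σ hσ
      have h7 : ∀ j ∈ σ.2.1, j < V.N := fun j hj => h3 j (List.mem_append_left _ hj)
      have h8 := (List.nodup_append.mp h2).1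
      refine ⟨rfl, rfl, mem_tup.mpr ⟨by simp [etest, h1, pads], h2, fun a ha =>
        List.mem_range.mpr (h3 a ha)⟩, mem_tup.mpr ⟨by simp [etest, h1], ?_, ?_⟩,
        List.forall_mem_append.mpr ⟨by decide, fun g hg => (h4 g hg).1.trans (by decide)⟩, h6⟩
      · refine List.nodup_cons.mpr ⟨by simp, List.nodup_append.mpr
          ⟨h8.map (add_right_injective _), h8.map (add_right_injective _), ?_⟩⟩
        simp only [List.forall_mem_map]
        intro a ha b _
        have := h7 a ha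
        omega
      · simp only [etest, List.forall_mem_cons, List.forall_mem_append, List.forall_mem_map,
          List.mem_range, M]
        exact ⟨by omega, fun a ha => by have := h7 a ha; omega,
          fun a ha => by have := h7 a ha; omega⟩
  obtain ⟨h1, h2, h3, h4, h5, h6⟩ := h
  obtain ⟨q, hq⟩ := mem_tup_iff.mp h3
  obtain ⟨q', hq'⟩ := mem_tup_iff.mp h4
  refine ⟨q, q', Prod.ext h1 hq.symm, Prod.ext h2 hq'.symm, h5, funext fun p => ?_, h6⟩
  rw [comp_apply, place, ← hq, ← hq', show p % 22 = (Fin.ofNat (11 + 11) p : ℕ) from rfl]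
  induction Fin.ofNat (11 + 11) p using Fin.addCases with
  | left i =>
    rw [Fin.val_castAdd, if_pos i.2, getD_lst, Fin.ofNat_val_eq_self, joint, Fin.append_left]
  | right i =>
    rw [Fin.val_natAdd, if_neg (by omega), Nat.add_sub_cancel_left, getD_lst,
      Fin.ofNat_val_eq_self, joint, Fin.append_right]

end Verifier

end Pool.Agent.MP_d439b8_lc.H96
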